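import Pool.Agent.L5helper28.IG.Ell
import Pool.Agent.L5helper28.HD.Main
import Pool.Agent.H281R3.HT.Frm

/-!
# Products of powers of different members
-/

set_option autoImplicit false
set_option linter.unusedSectionVars false

open CategoryTheory AlgebraicGeometry TensorProduct Matrix

universe u

namespace Pool.Agent.L5helper28.IG

open Module
open Pool.Agent.H914 Pool.Agent.H914.VarClass Pool.Agent.H914.VarClass.Obj
  Pool.Agent.H914.WeilCohomology
open Pool.Agent.Y121 Pool.Agent.Y121.AHS Pool.Agent.N996 Pool.Agent.N996.FP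
open Pool.Agent.L5helper28.IF
open Pool.Agent.L5helper28.CA (AllIn prod_in snd_in in_of_retract)
open Pool.Agent.Y133.Half (pw ClassPred)

noncomputable section

variable {k : Type u} [Field k] {𝒱 : VarClass k} {ops : CycleOps 𝒱} {T : HodgeTheory ops}
  {X Y P Q : 𝒱.Obj}

set_option maxHeartbeats 400000

/-- the system of the classes of algebraic cycles -/
def algPred (T : HodgeTheory ops) : ClassPred T.W where
  P X j c := ∃ z, X.IsCyc j z ∧ T.W.cl X z = c
  gr := by
    rintro X j _ ⟨z, hz, rfl⟩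
    exact T.W.cl_mem hz
  zero := ⟨0, SmVar.IsCyc.zero _ _, map_zero _⟩
  add := by
    rintro X j _ _ ⟨z, hz, rfl⟩ ⟨w, hw, rfl⟩
    exact ⟨z + w, hz.add hw, map_add _ _ _⟩
  smul := by
    rintro X j r _ ⟨z, hz, rfl⟩
    obtain ⟨q, rfl⟩ := T.rat r
    exact ⟨q • z, SmVar.IsCyc.smul q hz, T.W.cl_smul q z⟩
  cl := fun hz => ⟨_, hz, rfl⟩
  mul := by
    rintro X i j _ _ ⟨z, hz, rfl⟩ ⟨w, hw, rfl⟩
    exact ⟨ops.mul z w, ops.mul_mem hz hw, T.W.cl_mul z w⟩
  map := by
    rintro X Y f j _ ⟨z, hz, rfl⟩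
    exact ⟨ops.pull f z, ops.pull_mem f hz, T.W.cl_pull f z⟩
  push := by
    rintro X Y f j l hjl _ ⟨z, hz, rfl⟩
    exact ⟨ops.push f z, ops.push_mem f hz hjl.symm, T.W.cl_push f z⟩

theorem hc_allIn : HodgeConjecture T X ↔ AllIn T (algPred T) X := Iff.rfl

variable (T) in
/-- Products of powers of different members with indices in the given set, up to isogeny. -/
inductive PP {ι : Type*} (X : ι → 𝒱.Obj) : Set ι → 𝒱.Obj → Prop
  | pow (i : ι) (n : ℕ) : PP X {i} (pw (X i) n)
  | mul (i : ι) (n : ℕ) {A : Set ι} {P : 𝒱.Obj} : i ∉ A → PP X A P →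
      PP X (insert i A) ((pw (X i) n).prod P)
  | isog {A : Set ι} {P Q : 𝒱.Obj} (f : P ⟶ Q) : Function.Bijective (T.W.map f) → PP X A P →
      PP X A Q

variable {ι : Type*} {x : ι → 𝒱.Obj}

theorem built_pow {S : Set 𝒱.Obj} (h : Built T S X) (n : ℕ) : Built T S (pw X n) := by
  induction n with
  | zero => exact h
  | succ n ih => exact Built.prod ih h

theorem PP.finite {A : Set ι} (h : PP T x A P) : A.Finite := by
  induction h with
  | pow i n => exact Set.finite_singleton i
  | mul i n _ _ ih => exact ih.insert i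
  | isog _ _ _ ih => exact ih

/-- an element of the Lie algebra which vanishes on the members vanishes on the product -/
theorem PP.kill {A : Set ι} (h : PP T x A P) {D : Ops fun X : 𝒱.Obj => CV T.W X}
    (hD : D ∈ LT T) (h0 : ∀ i ∈ A, D (x i) = 0) : D P = 0 := by
  have hpw : ∀ (i : ι) (n : ℕ), D (x i) = 0 → D (pw (x i) n) = 0 := by
    intro i n hi
    refine (built_pow (T := T) (Built.of (Set.mem_singleton (x i))) n).kill hD ?_
    intro X hX
    rw [Set.mem_singleton_iff.1 hX]
    exact hi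
  induction h with
  | pow i n => exact hpw i n (h0 i rfl)
  | @mul i n A P _ _ ih =>
    have h1 := hpw i n (h0 i (Set.mem_insert _ _))
    have h2 := ih fun j hj => h0 j (Set.mem_insert_of_mem _ hj)
    refine Built.kill (T := T) (Built.prod (Built.of (S := {pw (x i) n, P}) (by simp))
      (Built.of (by simp))) hD ?_
    rintro _ (rfl | rfl)
    · exact h1
    · exact h2
  | @isog A P Q f hf _ ih =>
    have h1 := ih h0
    refine LinearMap.ext fun z => ?_
    have h2 := LT_map hD (isShift_map f) z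
    rw [h1, LinearMap.zero_apply] at h2
    have h3 : Function.Injective ((T.W.map f).toLinearMap.baseChange ℂ) :=
      Module.Flat.lTensor_preserves_injective_linearMap (M := ℂ) _ hf.1
    rw [LinearMap.zero_apply]
    apply h3
    rw [map_zero]
    exact h2.symm

theorem PP.agree {A : Set ι} (h : PP T x A P) {D D' : Ops fun X : 𝒱.Obj => CV T.W X}
    (hD : D ∈ LT T) (hD' : D' ∈ LT T) (h0 : ∀ i ∈ A, D' (x i) = D (x i)) : D' P = D P := by
  have h1 := h.kill (sub_mem hD' hD) fun i hi => by
    change D' (x i) - D (x i) = 0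
    rw [h0 i hi, sub_self]
  change D' P - D P = 0 at h1
  exact sub_eq_zero.1 h1

/-- **Exceptional members.** -/
theorem exists_spl (x : ι → 𝒱.Obj) (hx : ∀ i, ∃ ψ, IsPolarisation T (x i) ψ)
    (hind : ∀ F : Finset ι, Ind (LT T) x F) {Z : 𝒱.Obj} (hZ : ∃ ψ, IsPolarisation T Z ψ) :
    ∃ S : Finset ι, 2 * S.card ≤ transBetti T Z ∧
      ∀ P Y : 𝒱.Obj, (Built T (x '' (S : Set ι)ᶜ) P ∨ ∃ A, Disjoint A (S : Set ι) ∧ PP T x A P) →
        Built T (insert Z (x '' (S : Set ι))) Y → Spl T P Y := by
  classical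
  choose ψ hψ using hx
  obtain ⟨φ, hφ⟩ := hZ
  obtain ⟨S, hS, h1⟩ := exists_S (P := polS hφ) (Q := fun i => polS (hψ i)) hind
    (V0 := (spH T Z).baseChange ℂ) (fun D hD v hv => base_le_inv hv D hD)
  refine ⟨S, ?_, ?_⟩
  · have h2 := transBetti_eq (T := T) (X := Z)
    rw [finrank_base] at hS
    have h3 : finrank ℂ (CV T.W Z) = finrank T.W.K (T.W.H Z) := Module.finrank_baseChange
    omega
  · intro P Y hP hY D hD
    obtain ⟨F, hF, hP'⟩ : ∃ F : Finset ι, (F : Set ι) ⊆ (S : Set ι)ᶜ ∧
        ∀ D ∈ LT T, ∀ D' ∈ LT T, (∀ i ∈ F, D' (x i) = D (x i)) → D' P = D P := by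
      rcases hP with hP | ⟨A, hA, hP⟩
      · obtain ⟨F, hF, hP'⟩ := hP.exists_finset
        refine ⟨F, hF, fun D hD D' hD' h0 => ?_⟩
        have h5 := hP'.kill (sub_mem hD' hD) (by
          rintro _ ⟨i, hi, rfl⟩
          change D' (x i) - D (x i) = 0
          rw [h0 i (Finset.mem_coe.1 hi), sub_self])
        change D' P - D P = 0 at h5
        exact sub_eq_zero.1 h5
      · refine ⟨hP.finite.toFinset, ?_, fun D hD D' hD' h0 => hP.agree hD hD' fun i hi =>
          h0 i (by simpa using hi)⟩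
        intro i hi hiS
        exact Set.disjoint_left.1 hA (by simpa using hi) hiS
    obtain ⟨D', hD', h2, h3, h4⟩ := h1 F (by
      rw [Finset.disjoint_left]
      intro i hi hi'
      exact hF (Finset.mem_coe.2 hi) (Finset.mem_coe.2 hi')) D hD
    refine ⟨D', hD', hP' D hD D' hD' h2, ?_⟩
    refine hY.kill hD' ?_
    rintro _ (rfl | ⟨i, hi, rfl⟩)
    · exact h4
    · exact h3 i (Finset.mem_coe.1 hi)

/-- the inverse of a bijective pull-back preserves the types -/
theorem type_inv_map {f : P ⟶ Q} (hf : Function.Bijective (T.W.map f)) {p q : ℤ} {x : CV T.W Q}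
    (hx : IsType T.pq p q (show HL T.W ℂ P from pb (T := T) f x)) :
    IsType T.pq p q (show HL T.W ℂ Q from x) := by
  have hinj : Function.Injective (pb (T := T) f) :=
    Module.Flat.lTensor_preserves_injective_linearMap (M := ℂ) _ hf.1
  let u : ∀ X : 𝒱.Obj, Module.End ℂ (CV T.W X) := fun X =>
    AH.dia (AH.isInternal (toH T) X) fun r => if r = (p, q) then 1 else 0
  have hu : ∀ (X : 𝒱.Obj) (a b : ℤ) (x : CV T.W X),
      IsType T.pq a b (show HL T.W ℂ X from x) →
        u X x = (if ((a, b) : ℤ × ℤ) = (p, q) then (1 : ℂ) else 0) • x := by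
    intro X a b x hx
    exact AH.dia_apply (AH.isInternal (toH T) X) _ (i := (a, b)) hx
  have h1 : ∀ x : CV T.W Q, pb (T := T) f (u Q x) = u P (pb (T := T) f x) := by
    intro x
    refine hop_ind (T := T) (P := fun x => pb (T := T) f (u Q x) = u P (pb (T := T) f x))
      ?_ ?_ ?_ x
    · intro a b x hx
      have h2 : IsType T.pq a b (show HL T.W ℂ P from pb (T := T) f x) := T.map _ _ f a b x hx
      rw [hu _ _ _ _ hx, hu _ _ _ _ h2, map_smul]
    · intro a b ha hb
      rw [map_add, map_add, map_add, map_add, ha, hb]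
    · simp only [map_zero]
  have h3 := hu _ _ _ _ hx
  rw [if_pos rfl, one_smul, ← h1] at h3
  have h4 : u Q x = x := hinj h3
  have h5 : ∀ x : CV T.W Q, IsType T.pq p q (show HL T.W ℂ Q from u Q x) := by
    intro x
    refine hop_ind (T := T) (P := fun x => IsType T.pq p q (show HL T.W ℂ Q from u Q x))
      ?_ ?_ ?_ x
    · intro a b x hx'
      rw [hu _ _ _ _ hx']
      split_ifs with h
      · rw [one_smul]
        obtain ⟨rfl, rfl⟩ := Prod.mk.inj h
        exact hx'
      · rw [zero_smul]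
        exact zero_mem (T.pq Q p q)
    · intro a b ha hb
      rw [map_add]
      exact add_mem (S := Submodule ℂ (HL T.W ℂ Q)) (s := T.pq Q p q) ha hb
    · rw [map_zero]
      exact zero_mem (T.pq Q p q)
  have h6 := h5 x
  rw [h4] at h6
  exact h6

/-- the inverse of a bijective pull-back preserves the Hodge classes -/
theorem hodge_inv_map {f : P ⟶ Q} (hf : Function.Bijective (T.W.map f)) {j : ℕ} {c : T.W.H Q}
    (hc : IsHodge T P j (T.W.map f c)) : IsHodge T Q j c := by
  constructor
  · have h1 : ∀ x : T.W.H Q, T.W.map f (H914.proj (T.W.isInternal Q) (2 * j) x) =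
        H914.proj (T.W.isInternal P) (2 * j) (T.W.map f x) := by
      intro x
      refine gr_induction (T.W.isInternal Q) (p := fun x =>
        T.W.map f (H914.proj (T.W.isInternal Q) (2 * j) x) =
          H914.proj (T.W.isInternal P) (2 * j) (T.W.map f x)) ?_ ?_ x
      · intro i a ha
        by_cases hi : i = 2 * j
        · subst hi
          rw [H914.proj_same _ ha, H914.proj_same _ (T.W.map_mem f ha)]
        · rw [H914.proj_ne _ ha hi, H914.proj_ne _ (T.W.map_mem f ha) hi, map_zero]
      · intro a b ha hb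
        rw [map_add, map_add, map_add, map_add, ha, hb]
    have h2 := h1 c
    rw [H914.proj_same _ hc.1] at h2
    rw [← hf.1 h2]
    exact H914.proj_mem _ _ _
  · refine type_inv_map hf (x := (1 : ℂ) ⊗ₜ[T.W.K] c) ?_
    have h4 : pb (T := T) f ((1 : ℂ) ⊗ₜ[T.W.K] c) = (1 : ℂ) ⊗ₜ[T.W.K] (T.W.map f c) := by
      rw [pb, LinearMap.baseChange_tmul]
      rfl
    rw [h4]
    exact hc.2

/-- the inverse of a bijective pull-back is a morphism of Hodge structures -/
theorem isShift_inv {f : P ⟶ Q} (hf : Function.Bijective (T.W.map f)) :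
    IsShift T (LinearEquiv.ofBijective (T.W.map f).toLinearMap hf).symm.toLinearMap 0 := by
  intro p q c hc
  rw [add_zero, add_zero]
  refine type_inv_map hf (x := (LinearEquiv.ofBijective (T.W.map f).toLinearMap
    hf).symm.toLinearMap.baseChange ℂ (show CV T.W P from c)) ?_
  have h1 : ∀ c : CV T.W P, pb (T := T) f ((LinearEquiv.ofBijective (T.W.map f).toLinearMap
      hf).symm.toLinearMap.baseChange ℂ c) = c := by
    intro c
    refine cv_ind (P := fun c => pb (T := T) f ((LinearEquiv.ofBijective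
      (T.W.map f).toLinearMap hf).symm.toLinearMap.baseChange ℂ c) = c) ?_ ?_ ?_ c
    · rw [map_zero, map_zero]
    · intro l c
      rw [LinearMap.baseChange_tmul, pb, LinearMap.baseChange_tmul]
      congr 1
      exact (LinearEquiv.ofBijective (T.W.map f).toLinearMap hf).apply_symm_apply c
    · intro a b ha hb
      rw [map_add, map_add, ha, hb]
  rw [h1]
  exact hc

theorem PP.built {A : Set ι} (h : PP T x A P) : Built T (x '' A) P := by
  induction h with
  | pow i n => exact built_pow (Built.of (Set.mem_image_of_mem x (Set.mem_singleton i))) n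
  | @mul i n A P _ _ ih =>
    refine Built.prod (built_pow (Built.of (Set.mem_image_of_mem x (Set.mem_insert _ _))) n)
      (ih.mono (Set.image_mono (Set.subset_insert _ _)))
  | @isog A P Q f hf _ ih =>
    refine Built.gen 1 (fun _ => P) (fun _ => (LinearEquiv.ofBijective
      (T.W.map f).toLinearMap hf).symm.toLinearMap) (fun _ => 0) (fun _ => ih)
      (fun _ => isShift_inv hf) ?_
    rw [eq_top_iff]
    intro y _
    exact Algebra.subset_adjoin (Set.mem_iUnion.2 ⟨0, T.W.map f y,
      (LinearEquiv.ofBijective (T.W.map f).toLinearMap hf).symm_apply_apply y⟩)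

theorem g2_isog {f : P ⟶ Q} (hf : Function.Bijective (T.W.map f)) (h : G2 T P) : G2 T Q := by
  intro j c hc
  have h1 := h j (T.W.map f c) ⟨T.W.map_mem _ hc.1, (T.map _ _ f _ _ _ hc.2 :)⟩
  have h2 : ∀ y ∈ alg2 T P, ∃ x ∈ alg2 T Q, T.W.map f x = y := by
    intro y hy
    induction hy using Algebra.adjoin_induction with
    | mem y hy =>
      obtain ⟨x, rfl⟩ := hf.2 y
      exact ⟨x, Algebra.subset_adjoin (hodge_inv_map hf hy), rfl⟩
    | algebraMap r => exact ⟨algebraMap _ _ r, Subalgebra.algebraMap_mem _ r, AlgHom.commutes _ r⟩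
    | add a b _ _ ha hb =>
      obtain ⟨x, hx, rfl⟩ := ha
      obtain ⟨y, hy, rfl⟩ := hb
      exact ⟨x + y, add_mem hx hy, map_add _ _ _⟩
    | mul a b _ _ ha hb =>
      obtain ⟨x, hx, rfl⟩ := ha
      obtain ⟨y, hy, rfl⟩ := hb
      exact ⟨x * y, mul_mem hx hy, map_mul _ _ _⟩
  obtain ⟨x, hx, h3⟩ := h2 _ h1
  rwa [← hf.1 h3]

/-- **Products of powers of different members.** -/
theorem PP.g2 (hind : ∀ F : Finset ι, Ind (LT T) x F) {A : Set ι} (h : PP T x A P)
    (hg : ∀ i ∈ A, ∀ n, G2 T (pw (x i) n)) : G2 T P := by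
  classical
  induction h with
  | pow i n => exact hg i rfl n
  | @mul i n A P hi hP ih =>
    refine g2_prod ?_ (hg i (Set.mem_insert _ _) n) (ih fun j hj =>
      hg j (Set.mem_insert_of_mem _ hj))
    intro D hD
    obtain ⟨D', hD', h1⟩ := hind (insert i hP.finite.toFinset) i (by simp) D hD
    refine ⟨D', hD'.1, ?_, ?_⟩
    · have h2 : PP T x {i} (pw (x i) n) := PP.pow i n
      exact h2.agree hD hD'.1 fun j hj => by rw [Set.mem_singleton_iff.1 hj, h1]
    · refine hP.kill hD'.1 fun j hj => hD'.2 j ⟨by simp [hj], ?_⟩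
      rintro rfl
      exact hi hj
  | isog f hf _ ih => exact g2_isog hf (ih hg)

end

end Pool.Agent.L5helper28.IG
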