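import Pool.Agent.L5helper28.IG.Mix

/-!
# Varieties with maximal Hodge group: rational form of the condition
-/

set_option autoImplicit false
set_option linter.unusedSectionVars false

open CategoryTheory AlgebraicGeometry TensorProduct Matrix

universe u

namespace Pool.Agent.L5helper28.IG

open Module
open Pool.Agent.H914 Pool.Agent.H914.VarClass Pool.Agent.H914.VarClass.Obj
  Pool.Agent.H914.WeilCohomology
open Pool.Agent.Y121 Pool.Agent.Y121.AHS Pool.Agent.N996 Pool.Agent.N996.FP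
open Pool.Agent.L5helper28.IF

noncomputable section

variable {k : Type u} [Field k] {𝒱 : VarClass k} {ops : CycleOps 𝒱} {T : HodgeTheory ops}
  {X Y P E : 𝒱.Obj}

set_option maxHeartbeats 400000

/-- The Hodge group is the full symplectic group of `H^1`. -/
def Mx (T : HodgeTheory ops) (X : 𝒱.Obj) : Prop :=
  Algebra.adjoin T.W.K (T.W.gr X 1 : Set (T.W.H X)) = ⊤ ∧
    ∃ ψ : RForm T.W X, IsPolarisation T X ψ ∧ ∀ A : Module.End T.W.K (T.W.H X),
      (∀ x ∈ T.W.gr X 1, A x ∈ T.W.gr X 1) →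
      (∀ x ∈ T.W.gr X 1, ∀ y ∈ T.W.gr X 1, ψ (A x) y = -ψ x (A y)) →
      ∃ D ∈ HodgeLie T (fun _ : Fin 1 => X), ∀ x ∈ T.W.gr X 1, D 0 x = A x

theorem B_tmul {ψ : RForm T.W X} (hψ : IsPolarisation T X ψ) (x y : T.W.H X) :
    (polS hψ).B ((1 : ℂ) ⊗ₜ[T.W.K] x) ((1 : ℂ) ⊗ₜ[T.W.K] y) = algebraMap T.W.K ℂ (ψ x y) := by
  change (LinearMap.BilinForm.baseChange ℂ ψ) ((1 : ℂ) ⊗ₜ[T.W.K] x) ((1 : ℂ) ⊗ₜ[T.W.K] y) = _
  rw [LinearMap.BilinForm.baseChange_tmul, Algebra.smul_def, mul_one, mul_one]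

theorem rat_anti {ψ : RForm T.W X} (hψ : IsPolarisation T X ψ) {x y : T.W.H X}
    (hx : x ∈ T.W.gr X 1) (hy : y ∈ T.W.gr X 1) : ψ x y = -ψ y x := by
  have h1 := B_anti hψ (u := (1 : ℂ) ⊗ₜ[T.W.K] x) (v := (1 : ℂ) ⊗ₜ[T.W.K] y)
    (Submodule.tmul_mem_baseChange_of_mem (1 : ℂ) hx)
    (Submodule.tmul_mem_baseChange_of_mem (1 : ℂ) hy)
  rw [B_tmul, B_tmul, ← map_neg] at h1
  exact (algebraMap T.W.K ℂ).injective h1

/-- the vectors of the rational structure -/
def tv (x : T.W.gr X 1) : ↥(gC T X 1) :=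
  ⟨(1 : ℂ) ⊗ₜ[T.W.K] (x : T.W.H X), Submodule.tmul_mem_baseChange_of_mem (1 : ℂ) x.2⟩

theorem tv_ind {C : ↥(gC T X 1) → Prop} (h0 : C 0) (h1 : ∀ x : T.W.gr X 1, C (tv x))
    (h2 : ∀ x y, C x → C y → C (x + y)) (h3 : ∀ (c : ℂ) x, C x → C (c • x)) (z : ↥(gC T X 1)) :
    C z := by
  obtain ⟨z, hz⟩ := z
  have h4 : ∀ z ∈ gC T X 1, ∃ hz : z ∈ gC T X 1, C ⟨z, hz⟩ := by
    intro z hz
    have hz' := hz
    rw [gC, Submodule.baseChange_eq_span] at hz
    induction hz using Submodule.span_induction with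
    | mem z hz =>
      obtain ⟨c, hc, rfl⟩ := hz
      exact ⟨Submodule.tmul_mem_baseChange_of_mem (1 : ℂ) hc, h1 ⟨c, hc⟩⟩
    | zero => exact ⟨zero_mem _, h0⟩
    | add a b ha hb iha ihb =>
      rw [← Submodule.baseChange_eq_span] at ha hb
      obtain ⟨h5, h6⟩ := iha ha
      obtain ⟨h7, h8⟩ := ihb hb
      exact ⟨add_mem h5 h7, h2 _ _ h6 h8⟩
    | smul c a ha iha =>
      rw [← Submodule.baseChange_eq_span] at ha
      obtain ⟨h5, h6⟩ := iha ha
      exact ⟨Submodule.smul_mem _ _ h5, h3 c _ h6⟩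
  obtain ⟨h5, h6⟩ := h4 z hz
  exact h6

/-- **The complex form of the condition.** -/
theorem mxC_of_mx (h : Mx T X) : MxC T X := by
  obtain ⟨hg, ψ, hψ, hmx⟩ := h
  haveI : FiniteDimensional ℂ (CV T.W X) := Module.Finite.of_basis (rb T.W X)
  have hsy := sy_om hψ
  refine ⟨hg, ψ, hψ, fun A hA => ?_⟩
  let I : Submodule ℂ (End ℂ ↥(gC T X 1)) :=
    { carrier := {A | ∃ E ∈ LT T, ∀ v : ↥(gC T X 1), E X v = A v}
      zero_mem' := ⟨0, zero_mem _, fun v => rfl⟩
      add_mem' := by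
        rintro A B ⟨E, hE, h1⟩ ⟨E', hE', h3⟩
        refine ⟨E + E', add_mem hE hE', fun v => ?_⟩
        change E X v + E' X v = A v + B v
        rw [h1, h3]
      smul_mem' := by
        rintro c A ⟨E, hE, h1⟩
        refine ⟨c • E, Submodule.smul_mem _ _ hE, fun v => ?_⟩
        change c • E X v = c • (A v : CV T.W X)
        rw [h1] }
  have hrat : ∀ x y : T.W.gr X 1, S2 (om hψ) (tv x) (tv y) ∈ I := by
    intro x y
    let A0 : Module.End T.W.K (T.W.H X) :=
      LinearMap.smulRight (ψ x) (y : T.W.H X) + LinearMap.smulRight (ψ y) (x : T.W.H X)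
    have hA0 : ∀ z, A0 z = ψ x z • (y : T.W.H X) + ψ y z • (x : T.W.H X) := fun z => rfl
    obtain ⟨D, hD, h1⟩ := hmx A0 (by
      intro z _
      rw [hA0]
      exact add_mem (Submodule.smul_mem _ _ y.2) (Submodule.smul_mem _ _ x.2)) (by
      intro z hz w hw
      rw [hA0, hA0]
      simp only [map_add, map_smul, LinearMap.add_apply, LinearMap.smul_apply, smul_eq_mul]
      rw [rat_anti hψ hz y.2, rat_anti hψ hz x.2]
      ring)
    obtain ⟨E, hE, h2⟩ := mem_hodgeLie.1 hD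
    refine ⟨E, hE, fun v => ?_⟩
    refine tv_ind (C := fun v => E X v = (S2 (om hψ) (tv x) (tv y) v : ↥(gC T X 1))) ?_ ?_ ?_ ?_ v
    · rw [map_zero, Submodule.coe_zero, map_zero]
    · intro z
      have h3 : E X = (D 0).baseChange ℂ := congrFun h2 0
      have h4 : E X ((1 : ℂ) ⊗ₜ[T.W.K] (z : T.W.H X)) = (1 : ℂ) ⊗ₜ[T.W.K] A0 z := by
        rw [h3, LinearMap.baseChange_tmul, h1 z z.2]
      change E X ((1 : ℂ) ⊗ₜ[T.W.K] (z : T.W.H X)) = _
      rw [h4, hA0, S2_apply, Submodule.coe_add, Submodule.coe_smul, Submodule.coe_smul,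
        om_apply, om_apply]
      change _ = (polS hψ).B ((1 : ℂ) ⊗ₜ[T.W.K] (x : T.W.H X))
          ((1 : ℂ) ⊗ₜ[T.W.K] (z : T.W.H X)) • ((1 : ℂ) ⊗ₜ[T.W.K] (y : T.W.H X)) +
        (polS hψ).B ((1 : ℂ) ⊗ₜ[T.W.K] (y : T.W.H X))
          ((1 : ℂ) ⊗ₜ[T.W.K] (z : T.W.H X)) • ((1 : ℂ) ⊗ₜ[T.W.K] (x : T.W.H X))
      rw [B_tmul, B_tmul, TensorProduct.tmul_add]
      congr 1
      · rw [TensorProduct.tmul_smul, TensorProduct.smul_tmul', TensorProduct.smul_tmul',
          Algebra.smul_def, smul_eq_mul]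
      · rw [TensorProduct.tmul_smul, TensorProduct.smul_tmul', TensorProduct.smul_tmul',
          Algebra.smul_def, smul_eq_mul]
    · intro a b ha hb
      rw [Submodule.coe_add, map_add, map_add, Submodule.coe_add, ha, hb]
    · intro c a ha
      rw [Submodule.coe_smul, map_smul, map_smul, Submodule.coe_smul, ha]
  have h2 : ∀ u v, S2 (om hψ) u v ∈ I := by
    intro u v
    have hadd : ∀ a b v, S2 (om hψ) (a + b) v = S2 (om hψ) a v + S2 (om hψ) b v := by
      intro a b v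
      refine LinearMap.ext fun z => ?_
      rw [LinearMap.add_apply, S2_apply, S2_apply, S2_apply, map_add, LinearMap.add_apply,
        add_smul, smul_add]
      abel
    have hsm : ∀ (c : ℂ) a v, S2 (om hψ) (c • a) v = c • S2 (om hψ) a v := by
      intro c a v
      refine LinearMap.ext fun z => ?_
      rw [LinearMap.smul_apply, S2_apply, S2_apply, map_smul, LinearMap.smul_apply, smul_add,
        smul_smul, smul_smul, smul_smul, smul_eq_mul, mul_comm (om hψ v z) c]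
    have hz : ∀ v, S2 (om hψ) 0 v = 0 := by
      intro v
      refine LinearMap.ext fun z => ?_
      rw [S2_apply, map_zero, LinearMap.zero_apply, zero_smul, smul_zero, add_zero,
        LinearMap.zero_apply]
    refine tv_ind (C := fun u => S2 (om hψ) u v ∈ I) ?_ ?_ ?_ ?_ u
    · rw [hz]; exact zero_mem _
    · intro x
      rw [S2_comm]
      refine tv_ind (C := fun v => S2 (om hψ) v (tv x) ∈ I) ?_ ?_ ?_ ?_ v
      · rw [hz]; exact zero_mem _
      · intro y
        exact hrat y x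
      · intro a b ha hb
        rw [hadd]; exact add_mem ha hb
      · intro c a ha
        rw [hsm]; exact Submodule.smul_mem _ _ ha
    · intro a b ha hb
      rw [hadd]; exact add_mem ha hb
    · intro c a ha
      rw [hsm]; exact Submodule.smul_mem _ _ ha
  exact hsy.sk_mem h2 hA

end

end Pool.Agent.L5helper28.IG
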