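import Pool.Agent.L5helper28.IG.Match

/-!
# Invariants are generated by invariants of degree two
-/

set_option autoImplicit false
set_option linter.unusedSectionVars false

open Matrix

namespace Pool.Agent.L5helper28.IG

noncomputable section

variable {R : Type} [Fintype R] [DecidableEq R]

/-- the function is invariant -/
def InvFun (S : Set (Matrix R R ℂ)) {n : ℕ} (F : (Fin n → R) → ℂ) : Prop :=
  ∀ g ∈ S, ∀ I : Fin n → R, ∑ k, ∑ y, g (I k) y * F (Function.update I k y) = 0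

/-- the form is invariant -/
def InvForm (S : Set (Matrix R R ℂ)) (B : R → R → ℂ) : Prop :=
  ∀ g ∈ S, ∀ x y, ∑ z, g x z * B z y + ∑ z, g y z * B x z = 0

/-- The first fundamental theorem for the Lie algebra `S`. -/
def FFT (S : Set (Matrix R R ℂ)) : Prop :=
  ∀ (n : ℕ) (F : (Fin n → R) → ℂ), InvFun S F → F ∈ Submodule.span ℂ
    {G | ∃ (m : ℕ) (e : Fin m × Fin 2 ≃ Fin n) (B : Fin m → R → R → ℂ),
      (∀ s, InvForm S (B s)) ∧ G = fun I => ∏ s, B s (I (e (s, 0))) (I (e (s, 1)))}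

variable {J : Type} {A : Type*} [Ring A] [Algebra ℂ A] {u : J → R → A}

theorem exists_piw {c : A} (hc : c ∈ Submodule.span ℂ
    {x | ∃ (n : ℕ) (a : Fin n → J) (I : Fin n → R), x = wd u a I}) :
    ∃ (r : ℕ) (N : Fin r → ℕ) (a : ∀ p, Fin (N p) → J) (F : Idx R N → ℂ), piw u a F = c := by
  classical
  obtain ⟨r, f, g, h⟩ := Submodule.mem_span_set'.1 hc
  choose N a I hI using fun i => (g i).2
  refine ⟨r, N, a, fun ω => if ω.2 = I ω.1 then f ω.1 else 0, ?_⟩
  rw [← h, piw_apply, Fintype.sum_sigma]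
  refine Finset.sum_congr rfl fun p _ => ?_
  rw [Finset.sum_eq_single (I p)]
  · simp only [if_true, hI p]
  · intro I' _ hne
    simp only [if_neg hne, zero_smul]
  · intro h
    exact absurd (Finset.mem_univ _) h

/-- **The invariants are generated by forms.** -/
theorem mem_of_inv {S : Set (Matrix R R ℂ)} (hS : ∀ g ∈ S, gᴴ ∈ S) (hF : FFT S)
    (hu : ∀ i j x y, u i x * u j y = -(u j y * u i x)) {c : A} (hc : c ∈ Submodule.span ℂ
      {x | ∃ (n : ℕ) (a : Fin n → J) (I : Fin n → R), x = wd u a I})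
    (hD : ∀ g ∈ S, ∃ D : A →ₗ[ℂ] A, (∀ x y, D (x * y) = D x * y + x * D y) ∧
      (∀ i y, D (u i y) = ∑ x, g x y • u i x) ∧ D c = 0) (𝒮 : Subalgebra ℂ A)
    (h𝒮 : ∀ B, InvForm S B → ∀ i j, ∑ t : R × R, B t.1 t.2 • (u i t.1 * u j t.2) ∈ 𝒮) :
    c ∈ 𝒮 := by
  obtain ⟨r, N, a, F0, rfl⟩ := exists_piw hc
  obtain ⟨F, h1, h2⟩ := lift_inv (piw u a) S hS (by
      intro g hg F h
      obtain ⟨D, hD1, hD2, -⟩ := hD g hg
      refine (piw_der hD1 hD2 a F).symm.trans ?_
      rw [h, map_zero]) F0 (by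
      intro g hg
      obtain ⟨D, hD1, hD2, hD3⟩ := hD g hg
      exact (piw_der hD1 hD2 a F0).symm.trans hD3)
  rw [← h1, piw_apply, Fintype.sum_sigma]
  refine 𝒮.sum_mem fun p _ => ?_
  have h3 : InvFun S (fun I : Fin (N p) → R => F ⟨p, I⟩) := by
    intro g hg I
    exact congrFun (h2 g hg) ⟨p, I⟩
  have h4 := hF (N p) _ h3
  have h5 : ∀ G ∈ Submodule.span ℂ {G : (Fin (N p) → R) → ℂ | ∃ (m : ℕ)
      (e : Fin m × Fin 2 ≃ Fin (N p)) (B : Fin m → R → R → ℂ), (∀ s, InvForm S (B s)) ∧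
        G = fun I => ∏ s, B s (I (e (s, 0))) (I (e (s, 1)))},
      ∑ I, G I • wd u (a p) I ∈ 𝒮 := by
    intro G hG
    induction hG using Submodule.span_induction with
    | mem G hG =>
      obtain ⟨m, e, B, hB, rfl⟩ := hG
      exact sum_match_mem e hu (a p) B 𝒮 fun s i j => h𝒮 _ (hB s) i j
    | zero =>
      simp only [Pi.zero_apply, zero_smul, Finset.sum_const_zero]
      exact zero_mem _
    | add x y _ _ hx hy =>
      simp only [Pi.add_apply, add_smul, Finset.sum_add_distrib]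
      exact add_mem hx hy
    | smul r x _ hx =>
      simp only [Pi.smul_apply, smul_eq_mul, mul_smul, ← Finset.smul_sum]
      exact 𝒮.smul_mem hx r
  exact h5 _ h4

end

end Pool.Agent.L5helper28.IG
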