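import Pool.Agent.L5helper28.IG.Gen
import Pool.Agent.L5helper28.IF.EllG

/-!
# Elliptic curves
-/

set_option autoImplicit false
set_option linter.unusedSectionVars false

open CategoryTheory AlgebraicGeometry TensorProduct Matrix

universe u

namespace Pool.Agent.L5helper28.IG

open Module
open Pool.Agent.H914 Pool.Agent.H914.VarClass Pool.Agent.H914.VarClass.Obj
  Pool.Agent.H914.WeilCohomology
open Pool.Agent.Y121 Pool.Agent.Y121.AHS Pool.Agent.N996 Pool.Agent.N996.FP
open Pool.Agent.L5helper28.IF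
open Pool.Agent.Y133.Half (pw ClassPred)

noncomputable section

variable {k : Type u} [Field k] {𝒱 : VarClass k} {ops : CycleOps 𝒱} {T : HodgeTheory ops}
  {E X Y P : 𝒱.Obj}

set_option maxHeartbeats 400000

/-- the cohomology of an elliptic curve is generated by `H^1` -/
theorem gen_ell (hE : IsEllipticCurve T E) :
    Algebra.adjoin T.W.K (T.W.gr E 1 : Set (T.W.H E)) = ⊤ := by
  have h2d : 2 * E.dim = 2 := by rw [hE.1]
  -- a nonzero product
  have h1 : ∃ a ∈ T.W.gr E 1, ∃ b ∈ T.W.gr E 1, a * b ≠ 0 := by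
    by_contra hcon
    push Not at hcon
    have h2 : T.W.gr E 1 = ⊥ := by
      rw [eq_bot_iff]
      intro a ha
      rw [Submodule.mem_bot]
      refine T.W.nondeg a fun y => ?_
      refine gr_induction (T.W.isInternal E) (p := fun y => T.W.tr E (a * y) = 0) ?_ ?_ y
      · intro i y hy
        by_cases hi : i = 1
        · subst hi
          rw [hcon a ha y hy, map_zero]
        · exact T.W.tr_eq_zero (T.W.mul_mem ha hy) (by omega)
      · intro x y hx hy
        rw [mul_add, map_add, hx, hy, add_zero]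
    have h3 := hE.2
    rw [h2, finrank_bot] at h3
    exact absurd h3 (by decide)
  obtain ⟨a, ha, b, hb, hab⟩ := h1
  have htr : ∀ x ∈ T.W.gr E 2, T.W.tr E x = 0 → x = 0 := by
    intro x hx h0
    refine T.W.nondeg x fun y => ?_
    refine gr_induction (T.W.isInternal E) (p := fun y => T.W.tr E (x * y) = 0) ?_ ?_ y
    · intro i y hy
      by_cases hi : i = 0
      · subst hi
        rw [T.W.gr_zero] at hy
        obtain ⟨r, rfl⟩ := Submodule.mem_span_singleton.1 hy
        rw [mul_smul_comm, mul_one, map_smul, h0, smul_zero]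
      · exact T.W.tr_eq_zero (T.W.mul_mem hx hy) (by omega)
    · intro y z hy hz
      rw [mul_add, map_add, hy, hz, add_zero]
  rw [eq_top_iff]
  intro z _
  refine gr_induction (T.W.isInternal E) (p := fun z => z ∈ Algebra.adjoin T.W.K
    (T.W.gr E 1 : Set (T.W.H E))) ?_ ?_ z
  · intro i z hz
    by_cases h0 : i = 0
    · subst h0
      rw [T.W.gr_zero] at hz
      obtain ⟨r, rfl⟩ := Submodule.mem_span_singleton.1 hz
      exact (Algebra.adjoin T.W.K _).smul_mem (one_mem _) r
    · by_cases h1 : i = 1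
      · subst h1
        exact Algebra.subset_adjoin hz
      · by_cases h2 : i = 2
        · subst h2
          have hab2 : a * b ∈ T.W.gr E 2 := T.W.mul_mem ha hb
          have h3 : T.W.tr E (a * b) ≠ 0 := fun h => hab (htr _ hab2 h)
          have h4 : z = (T.W.tr E z / T.W.tr E (a * b)) • (a * b) := by
            rw [← sub_eq_zero]
            refine htr _ (sub_mem hz (Submodule.smul_mem _ _ hab2)) ?_
            rw [map_sub, map_smul, smul_eq_mul, div_mul_cancel₀ _ h3, sub_self]
          rw [h4]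
          exact (Algebra.adjoin T.W.K _).smul_mem
            (mul_mem (Algebra.subset_adjoin ha) (Algebra.subset_adjoin hb)) _
        · rw [T.W.gr_eq_bot E i (by omega)] at hz
          rw [(Submodule.mem_bot _).1 hz]
          exact zero_mem _
  · intro x y hx hy
    exact add_mem hx hy

/-- generation with complex coefficients -/
theorem gen_C {R : Type} {b : R → CV T.W X}
    (hg : Algebra.adjoin T.W.K (T.W.gr X 1 : Set (T.W.H X)) = ⊤)
    (hb : ∀ z ∈ gC T X 1, z ∈ Submodule.span ℂ (Set.range b)) (z : CV T.W X) :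
    z ∈ Algebra.adjoin ℂ (Set.range b) := by
  have h1 : ∀ z ∈ gC T X 1, z ∈ Algebra.adjoin ℂ (Set.range b) := fun z hz =>
    Algebra.span_le_adjoin ℂ _ (hb z hz)
  have h2 : ∀ x ∈ Algebra.adjoin T.W.K (T.W.gr X 1 : Set (T.W.H X)),
      ((1 : ℂ) ⊗ₜ[T.W.K] x : CV T.W X) ∈ Algebra.adjoin ℂ (Set.range b) := by
    intro x hx
    induction hx using Algebra.adjoin_induction with
    | mem x hx => exact h1 _ (Submodule.tmul_mem_baseChange_of_mem (1 : ℂ) hx)
    | algebraMap r =>
      have h3 : ((1 : ℂ) ⊗ₜ[T.W.K] (algebraMap T.W.K (T.W.H X) r) : CV T.W X) =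
          (algebraMap T.W.K ℂ r) • (1 : CV T.W X) := by
        rw [Algebra.algebraMap_eq_smul_one, TensorProduct.tmul_smul,
          Algebra.TensorProduct.one_def, TensorProduct.smul_tmul', TensorProduct.smul_tmul',
          Algebra.smul_def, smul_eq_mul]
      rw [h3]
      exact (Algebra.adjoin ℂ (Set.range b)).smul_mem (one_mem _) _
    | add x y _ _ hx hy => rw [TensorProduct.tmul_add]; exact add_mem hx hy
    | mul x y _ _ hx hy =>
      have h3 : ((1 : ℂ) ⊗ₜ[T.W.K] (x * y) : CV T.W X) =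
          ((1 : ℂ) ⊗ₜ[T.W.K] x) * ((1 : ℂ) ⊗ₜ[T.W.K] y) := by
        rw [Algebra.TensorProduct.tmul_mul_tmul, one_mul]
      rw [h3]
      exact mul_mem hx hy
  refine cv_ind (P := fun z => z ∈ Algebra.adjoin ℂ (Set.range b)) (zero_mem _) ?_
    (fun x y hx hy => add_mem hx hy) z
  intro l x
  have h3 : (l ⊗ₜ[T.W.K] x : CV T.W X) = l • ((1 : ℂ) ⊗ₜ[T.W.K] x) := by
    rw [TensorProduct.smul_tmul', smul_eq_mul, mul_one]
  rw [h3]
  exact (Algebra.adjoin ℂ (Set.range b)).smul_mem (h2 x (by rw [hg]; trivial)) l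

/-- the first cohomology is spanned by the basis -/
theorem span_ev (c : Basis (Fin 2) T.W.K (T.W.gr E 1)) {z : CV T.W E} (hz : z ∈ gC T E 1) :
    z = ∑ a, fC (ph c a) z • ev c a := by
  have h1 := q1_same (T := T) (E := E) (x := z) hz
  rw [← q1C_eq c, h1]

/-- the case of the full Lie algebra -/
theorem good_full (hE : IsEllipticCurve T E) {ψ : RForm T.W E} (hψ : IsPolarisation T E ψ)
    (c : Basis (Fin 2) T.W.K (T.W.gr E 1))
    (h : (LT T).map (mt c) = Pool.Agent.N179.DB.Mt.sl) : Good T E := by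
  refine ⟨Fin 2, inferInstance, inferInstance, ev c, sl2, ?_, ?_, sl2_star, fft_sl2, ?_, ?_⟩
  · intro x
    exact Submodule.tmul_mem_baseChange_of_mem (1 : ℂ) (c x).2
  · refine gen_C (gen_ell hE) fun z hz => ?_
    rw [span_ev c hz]
    exact sum_mem fun a _ => Submodule.smul_mem _ _ (Submodule.subset_span ⟨a, rfl⟩)
  · intro g hg
    have h1 : g ∈ (LT T).map (mt c) := by
      rw [h]
      exact Pool.Agent.N179.DB.Mt.mem_sl'.2 hg
    obtain ⟨D, hD, rfl⟩ := h1
    exact ⟨D, hD, fun y => D_ev c hE hψ hD y⟩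
  · intro D hD
    exact ⟨mt c D, Pool.Agent.N179.DB.Mt.mem_sl'.1 (mt_tr c hE hψ hD),
      fun y => D_ev c hE hψ hD y⟩

/-- the first cohomology is stable -/
theorem D_gC (hE : IsEllipticCurve T E) {ψ : RForm T.W E} (hψ : IsPolarisation T E ψ)
    (c : Basis (Fin 2) T.W.K (T.W.gr E 1)) {D : Ops fun X : 𝒱.Obj => CV T.W X} (hD : D ∈ LT T)
    {x : CV T.W E} (hx : x ∈ gC T E 1) : D E x ∈ gC T E 1 := by
  have h1 := span_ev c hx
  rw [h1, map_sum]
  refine Submodule.sum_mem (gC T E 1) fun a _ => ?_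
  rw [map_smul, D_ev c hE hψ hD]
  refine Submodule.smul_mem (gC T E 1) _ (Submodule.sum_mem (gC T E 1) fun d _ => ?_)
  exact Submodule.smul_mem (gC T E 1) _ (Submodule.tmul_mem_baseChange_of_mem (1 : ℂ) (c d).2)

theorem hop_hop1 (hE : IsEllipticCurve T E) {ψ : RForm T.W E} (hψ : IsPolarisation T E ψ)
    {x : CV T.W E} (hx : x ∈ gC T E 1) : hop T E (hop T E x) = x := by
  rw [hop_hop hE hψ, q1_same hx]

/-- the case of complex multiplication -/
theorem good_torus (hE : IsEllipticCurve T E) {ψ : RForm T.W E} (hψ : IsPolarisation T E ψ)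
    (c : Basis (Fin 2) T.W.K (T.W.gr E 1))
    (h : ∀ D ∈ LT T, ∃ r : ℂ, mt c D = r • mt c (fun X => hop T X)) : Good T E := by
  have hDh : ∀ D ∈ LT T, ∀ r : ℂ, mt c D = r • mt c (fun X => hop T X) →
      ∀ x ∈ gC T E 1, D E x = r • hop T E x := by
    intro D hD r hr x hx
    have h0 : ∀ b, D E (ev c b) = r • hop T E (ev c b) := by
      intro b
      have h1 := D_ev c hE hψ hD b
      have h2 : hop T E (ev c b) = ∑ a, mt c (fun X => hop T X) a b • ev c a :=
        D_ev c hE hψ (D := fun X => hop T X) H_mem b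
      rw [h1, h2, hr, Finset.smul_sum]
      refine Finset.sum_congr rfl fun a _ => ?_
      rw [Matrix.smul_apply, smul_eq_mul, mul_smul]
    rw [span_ev c hx, map_sum, map_sum, Finset.smul_sum]
    refine Finset.sum_congr rfl fun a _ => ?_
    rw [map_smul, map_smul, h0, smul_comm]
  have hhop : ∀ x ∈ gC T E 1, hop T E x ∈ gC T E 1 := fun x hx =>
    D_gC hE hψ c (D := fun X => hop T X) H_mem hx
  have hev : ∀ b, ev c b ∈ gC T E 1 := fun b =>
    Submodule.tmul_mem_baseChange_of_mem (1 : ℂ) (c b).2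
  -- eigenvectors
  have hex : ∀ s : ℂ, (s = 1 ∨ s = -1) → ∃ v ∈ gC T E 1, v ≠ 0 ∧ hop T E v = s • v := by
    intro s hs
    have hss : s * s = 1 := by
      rcases hs with rfl | rfl <;> ring
    by_contra hcon
    push Not at hcon
    have h1 : ∀ x ∈ gC T E 1, x + s • hop T E x = 0 := by
      intro x hx
      by_contra h2
      refine hcon _ (add_mem hx (Submodule.smul_mem _ _ (hhop x hx))) h2 ?_
      rw [map_add, map_smul, hop_hop1 hE hψ hx, smul_add, smul_smul, hss, one_smul, add_comm]
    have h2 : ∀ b, hop T E (ev c b) = (-s) • ev c b := by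
      intro b
      have h3 := h1 _ (hev b)
      have h4 : s • hop T E (ev c b) = -ev c b := eq_neg_of_add_eq_zero_right h3
      have h5 : s • s • hop T E (ev c b) = hop T E (ev c b) := by rw [smul_smul, hss, one_smul]
      rw [← h5, h4, smul_neg, neg_smul]
    have h3 : ∀ a b, mt c (fun X => hop T X) a b = if b = a then -s else 0 := by
      intro a b
      rw [mt_apply]
      change fC (ph c a) (hop T E (ev c b)) = _
      rw [h2, map_smul, fC_ev]
      split_ifs <;> simp
    have h4 := Pool.Agent.N179.DB.Mt.mem_sl'.1 (mt_tr_hop c hE hψ)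
    rw [h3, h3, if_pos rfl, if_pos rfl, neg_neg] at h4
    rcases hs with rfl | rfl <;> norm_num at h4
  obtain ⟨v, hv, hv0, hv1⟩ := hex 1 (Or.inl rfl)
  obtain ⟨w, hw, hw0, hw1⟩ := hex (-1) (Or.inr rfl)
  rw [one_smul] at hv1
  rw [neg_smul, one_smul] at hw1
  let b : Fin 2 → CV T.W E := ![v, w]
  have hli : LinearIndependent ℂ b := by
    rw [LinearIndependent.pair_iff]
    intro s t hst
    have h1 := congrArg (hop T E) hst
    rw [map_add, map_smul, map_smul, hv1, hw1, map_zero, smul_neg] at h1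
    have h2 : (2 * s) • v = 0 := by
      have h3 : (2 * s) • v = (s • v + t • w) + (s • v + -(t • w)) := by
        rw [two_mul, add_smul]; abel
      rw [h3, hst, h1, add_zero]
    have h3 : s = 0 := (mul_eq_zero.1 ((smul_eq_zero.1 h2).resolve_right hv0)).resolve_left
      two_ne_zero
    refine ⟨h3, ?_⟩
    rw [h3, zero_smul, zero_add] at hst
    exact (smul_eq_zero.1 hst).resolve_right hw0
  have hspan : Submodule.span ℂ (Set.range b) = gC T E 1 := by
    refine Submodule.eq_of_le_of_finrank_le ?_ ?_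
    · refine Submodule.span_le.2 ?_
      rintro _ ⟨a, rfl⟩
      fin_cases a
      · exact hv
      · exact hw
    · rw [finrank_span_eq_card hli, Fintype.card_fin]
      have h1 := finrank_base (T := T) (X := E) (T.W.gr E 1)
      have h2 : finrank ℂ (gC T E 1) = 2 := h1.trans hE.2
      rw [h2]
  refine ⟨Fin 2, inferInstance, inferInstance, b, tor, ?_, ?_, tor_star, fft_tor, ?_, ?_⟩
  · intro x
    rw [← hspan]
    exact Submodule.subset_span ⟨x, rfl⟩
  · exact gen_C (gen_ell hE) fun z hz => by rw [hspan]; exact hz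
  · rintro _ ⟨r, rfl⟩
    refine ⟨r • (fun X => hop T X), Submodule.smul_mem _ _ H_mem, fun y => ?_⟩
    rw [Fin.sum_univ_two]
    fin_cases y
    · change r • hop T E v = r • v + (0 : ℂ) • w
      rw [hv1, zero_smul, add_zero]
    · change r • hop T E w = (0 : ℂ) • v + (-r) • w
      rw [hw1, zero_smul, zero_add, smul_neg, neg_smul]
  · intro D hD
    obtain ⟨r, hr⟩ := h D hD
    refine ⟨dg r, ⟨r, rfl⟩, fun y => ?_⟩
    rw [Fin.sum_univ_two]
    fin_cases y
    · change D E v = r • v + (0 : ℂ) • w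
      rw [hDh D hD r hr v hv, hv1, zero_smul, add_zero]
    · change D E w = (0 : ℂ) • v + (-r) • w
      rw [hDh D hD r hr w hw, hw1, zero_smul, zero_add, smul_neg, neg_smul]

/-- **Elliptic curves.** -/
theorem good_ell (hE : IsEllipticCurve T E) (hp : ∃ ψ, IsPolarisation T E ψ) : Good T E := by
  obtain ⟨ψ, hψ⟩ := hp
  let c : Basis (Fin 2) T.W.K (T.W.gr E 1) := Module.finBasisOfFinrankEq _ _ hE.2
  have h1 : hh (fun X => rb T.W X) (fun X => hop T X) 1 = fun X => hop T X := by
    funext Y
    exact cjg_one _ _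
  have S : ESys (LT T) (hh (fun X => rb T.W X) (fun X => hop T X)) (fun _ : Unit => mt c)
      (algebraMap T.W.K ℂ).fieldRange :=
    { lie := fun D hD E hE => LL_br hD hE
      gen := fun σ => LL_of σ
      mul := fun i D _ E hE' => mt_mul c hE hψ D hE'
      tr := fun i D hD => mt_tr c hE hψ hD
      gl := fun i σ => by
        rw [h1]
        exact mt_gal c hE hψ σ _
      sq := fun i => by
        rw [h1]
        exact mt_sq c hE hψ
      cj := fun i => by
        rw [h1]
        exact mt_cj c hE hψ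
      act := fun τ D hD => ⟨_, cjg_mem (fun X => rb T.W X) (fun X => hop T X) τ hD,
        fun i => mt_gal c hE hψ τ D⟩
      noiso := fun i j hij g hg h => absurd rfl hij }
  rcases S.dich' () with h | h
  · exact good_full hE hψ c h
  · refine good_torus hE hψ c fun D hD => ?_
    obtain ⟨r, hr⟩ := h D hD
    rw [h1] at hr
    exact ⟨r, hr⟩

end

end Pool.Agent.L5helper28.IG
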