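import Mathlib

/-!
# Representations on functions of several indices: invariants lift
-/

set_option autoImplicit false
set_option linter.unusedSectionVars false

open Matrix ComplexConjugate

namespace Pool.Agent.L5helper28.IG

noncomputable section

variable {R : Type} [Fintype R] [DecidableEq R] {ι : Type} [Fintype ι] (N : ι → ℕ)

/-- the tuples of indices -/
abbrev Idx (R : Type) (N : ι → ℕ) : Type := Σ p : ι, (Fin (N p) → R)

/-- the action of a matrix on the functions of several indices -/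
def rho (g : Matrix R R ℂ) : (Idx R N → ℂ) →ₗ[ℂ] (Idx R N → ℂ) where
  toFun F ω := ∑ k, ∑ y, g (ω.2 k) y * F ⟨ω.1, Function.update ω.2 k y⟩
  map_add' F G := by
    funext ω
    simp only [Pi.add_apply, mul_add, Finset.sum_add_distrib]
  map_smul' c F := by
    funext ω
    simp only [Pi.smul_apply, smul_eq_mul, RingHom.id_apply, Finset.mul_sum]
    refine Finset.sum_congr rfl fun k _ => Finset.sum_congr rfl fun y _ => ?_
    ring

variable {N}

theorem rho_apply (g : Matrix R R ℂ) (F : Idx R N → ℂ) (ω : Idx R N) :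
    rho N g F ω = ∑ k, ∑ y, g (ω.2 k) y * F ⟨ω.1, Function.update ω.2 k y⟩ := rfl

/-- exchanging an index and the value at `k` -/
theorem sum_swap {M : Type*} [AddCommMonoid M] {n : ℕ} (k : Fin n) (f : (Fin n → R) → R → M) :
    ∑ I, ∑ y, f I y = ∑ I, ∑ y, f (Function.update I k y) (I k) := by
  rw [← Fintype.sum_prod_type', ← Fintype.sum_prod_type']
  refine Fintype.sum_bijective (fun t : (Fin n → R) × R => (Function.update t.1 k t.2, t.1 k)) ?_ _ _ ?_
  · have h : Function.Involutive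
        (fun t : (Fin n → R) × R => (Function.update t.1 k t.2, t.1 k)) := by
      rintro ⟨I, y⟩
      simp
    exact h.bijective
  · rintro ⟨I, y⟩
    simp

theorem adj_aux {n : ℕ} (g : Matrix R R ℂ) (F G : (Fin n → R) → ℂ) :
    ∑ I : Fin n → R, conj (F I) * ∑ k, ∑ y, g (I k) y * G (Function.update I k y) =
      ∑ I : Fin n → R, conj (∑ k, ∑ y, gᴴ (I k) y * F (Function.update I k y)) * G I := by
  simp only [map_sum, Finset.mul_sum, Finset.sum_mul]
  rw [Finset.sum_comm, Finset.sum_comm (s := Finset.univ) (t := Finset.univ)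
    (f := fun I k => ∑ y, conj (gᴴ (I k) y * F (Function.update I k y)) * G I)]
  refine Finset.sum_congr rfl fun k _ => ?_
  rw [sum_swap k]
  refine Finset.sum_congr rfl fun I _ => Finset.sum_congr rfl fun y _ => ?_
  rw [Function.update_self, Function.update_idem, Function.update_eq_self, map_mul,
    conjTranspose_apply, RCLike.star_def, Complex.conj_conj]
  ring

theorem rho_adj (g : Matrix R R ℂ) (F G : Idx R N → ℂ) :
    ∑ ω, conj (F ω) * rho N g G ω = ∑ ω, conj (rho N gᴴ F ω) * G ω := by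
  rw [Fintype.sum_sigma, Fintype.sum_sigma]
  exact Finset.sum_congr rfl fun p _ => adj_aux g (fun I => F ⟨p, I⟩) (fun I => G ⟨p, I⟩)

/-- orthogonal decomposition -/
theorem exists_orth {Ω : Type} [Fintype Ω] (K : Submodule ℂ (Ω → ℂ)) (F : Ω → ℂ) :
    ∃ F1 ∈ K, ∃ F2 : Ω → ℂ, F = F1 + F2 ∧ ∀ G ∈ K, ∑ ω, conj (G ω) * F2 ω = 0 := by
  let φ := WithLp.linearEquiv 2 ℂ (Ω → ℂ)
  let K' : Submodule ℂ (EuclideanSpace ℂ Ω) := K.comap φ.toLinearMap
  obtain ⟨a, ha, b, hb, hab⟩ := K'.exists_add_mem_mem_orthogonal (φ.symm F)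
  refine ⟨φ a, ha, φ b, ?_, ?_⟩
  · rw [← map_add, ← hab, LinearEquiv.apply_symm_apply]
  · intro G hG
    have h1 : φ.symm G ∈ K' := by
      change φ (φ.symm G) ∈ K
      rw [LinearEquiv.apply_symm_apply]
      exact hG
    have h2 := (Submodule.mem_orthogonal K' b).1 hb _ h1
    rw [PiLp.inner_apply] at h2
    rw [← h2]
    refine Finset.sum_congr rfl fun ω _ => ?_
    rw [RCLike.inner_apply, mul_comm]
    rfl

/-- **Invariants lift.** -/
theorem lift_inv {E : Type*} [AddCommGroup E] [Module ℂ E] (π : (Idx R N → ℂ) →ₗ[ℂ] E)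
    (S : Set (Matrix R R ℂ)) (hS : ∀ g ∈ S, gᴴ ∈ S)
    (hK : ∀ g ∈ S, ∀ F, π F = 0 → π (rho N g F) = 0) (F0 : Idx R N → ℂ)
    (h0 : ∀ g ∈ S, π (rho N g F0) = 0) :
    ∃ F, π F = π F0 ∧ ∀ g ∈ S, rho N g F = 0 := by
  obtain ⟨F1, h1, F2, h2, h3⟩ := exists_orth (LinearMap.ker π) F0
  refine ⟨F2, ?_, fun g hg => ?_⟩
  · rw [h2, map_add, LinearMap.mem_ker.1 h1, zero_add]
  · have h4 : rho N g F2 ∈ LinearMap.ker π := by
      have h5 : rho N g F2 = rho N g F0 - rho N g F1 := by rw [h2, map_add, add_sub_cancel_left]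
      rw [h5, LinearMap.mem_ker, map_sub, h0 g hg, hK g hg F1 (LinearMap.mem_ker.1 h1), sub_zero]
    have h5 : ∑ ω, conj (rho N g F2 ω) * rho N g F2 ω = 0 := by
      rw [rho_adj]
      have h6 : rho N gᴴ (rho N g F2) ∈ LinearMap.ker π :=
        LinearMap.mem_ker.2 (hK _ (hS g hg) _ (LinearMap.mem_ker.1 h4))
      exact h3 _ h6
    funext ω
    have h6 : ∑ ω, ‖rho N g F2 ω‖ ^ 2 = 0 := by
      have h7 : ((∑ ω, ‖rho N g F2 ω‖ ^ 2 : ℝ) : ℂ) = 0 := by
        rw [← h5, Complex.ofReal_sum]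
        refine Finset.sum_congr rfl fun ω _ => ?_
        rw [← Complex.normSq_eq_conj_mul_self, Complex.normSq_eq_norm_sq]
      exact_mod_cast h7
    have h7 := (Finset.sum_eq_zero_iff_of_nonneg (fun ω _ => by positivity)).1 h6 ω
      (Finset.mem_univ ω)
    exact norm_eq_zero.1 (pow_eq_zero_iff two_ne_zero |>.1 h7)

end

end Pool.Agent.L5helper28.IG
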