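import Pool.Agent.L5helper28.IG.Geo2
import Pool.Agent.L5helper28.CA.Cls

/-!
# Hodge classes generated by Hodge classes of degree two
-/

set_option autoImplicit false
set_option linter.unusedSectionVars false

open CategoryTheory AlgebraicGeometry TensorProduct Matrix

universe u

namespace Pool.Agent.L5helper28.IG

open Module
open Pool.Agent.H914 Pool.Agent.H914.VarClass Pool.Agent.H914.VarClass.Obj
  Pool.Agent.H914.WeilCohomology
open Pool.Agent.Y121 Pool.Agent.Y121.AHS Pool.Agent.N996 Pool.Agent.N996.FP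
open Pool.Agent.L5helper28.IF
open Pool.Agent.L5helper28.CA (AllIn)
open Pool.Agent.Y133.Half (pw ClassPred)

noncomputable section

variable {k : Type u} [Field k] {𝒱 : VarClass k} {ops : CycleOps 𝒱} {T : HodgeTheory ops}
  {X Y P : 𝒱.Obj}

set_option maxHeartbeats 400000

/-- the algebra generated by the Hodge classes of degree two -/
def alg2 (T : HodgeTheory ops) (P : 𝒱.Obj) : Subalgebra T.W.K (T.W.H P) :=
  Algebra.adjoin T.W.K {d : T.W.H P | IsHodge T P 1 d}

/-- all Hodge classes are generated by Hodge classes of degree two -/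
def G2 (T : HodgeTheory ops) (P : 𝒱.Obj) : Prop :=
  ∀ (j : ℕ) (c : T.W.H P), IsHodge T P j c → c ∈ alg2 T P

/-- the projection to the cohomology of degree two -/
def q2 (T : HodgeTheory ops) (P : 𝒱.Obj) : Module.End T.W.K (T.W.H P) :=
  H914.proj (T.W.isInternal P) 2

theorem q2_gC {x : CV T.W P} (hx : x ∈ gC T P 2) : (q2 T P).baseChange ℂ x = x := by
  rw [gC, Submodule.baseChange_eq_span] at hx
  induction hx using Submodule.span_induction with
  | mem x hx =>
    obtain ⟨c, hc, rfl⟩ := hx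
    rw [TensorProduct.mk_apply, LinearMap.baseChange_tmul]
    have h1 : q2 T P c = c := H914.proj_same (T.W.isInternal P) hc
    rw [h1]
  | zero => rw [map_zero]
  | add x y _ _ hx hy => rw [map_add, hx, hy]
  | smul c x _ hx => rw [map_smul, hx]

theorem q2_spH {c : T.W.H P} (hc : c ∈ spH T P) : q2 T P c ∈ alg2 T P := by
  induction hc using Submodule.span_induction with
  | mem c hc =>
    obtain ⟨j, hj⟩ := hc
    by_cases h1 : j = 1
    · subst h1
      have h2 : q2 T P c = c := H914.proj_same (T.W.isInternal P) hj.1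
      rw [h2]
      exact Algebra.subset_adjoin hj
    · have h2 : q2 T P c = 0 := H914.proj_ne (T.W.isInternal P) hj.1 (by omega)
      rw [h2]
      exact zero_mem _
  | zero => rw [map_zero]; exact zero_mem _
  | add x y _ _ hx hy => rw [map_add]; exact add_mem hx hy
  | smul r x _ hx => rw [map_smul]; exact (alg2 T P).smul_mem hx r

/-- the complex span of the algebra -/
def alg2C (T : HodgeTheory ops) (P : 𝒱.Obj) : Submodule ℂ (CV T.W P) :=
  (Subalgebra.toSubmodule (alg2 T P)).baseChange ℂ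

theorem tmul_mem {c : T.W.H P} (hc : c ∈ alg2 T P) : (1 : ℂ) ⊗ₜ[T.W.K] c ∈ alg2C T P :=
  Submodule.tmul_mem_baseChange_of_mem (1 : ℂ) hc

theorem alg2C_mul {x y : CV T.W P} (hx : x ∈ alg2C T P) (hy : y ∈ alg2C T P) :
    x * y ∈ alg2C T P := by
  rw [alg2C, Submodule.baseChange_eq_span] at hx hy
  induction hx using Submodule.span_induction with
  | mem x hx =>
    obtain ⟨c, hc, rfl⟩ := hx
    induction hy using Submodule.span_induction with
    | mem y hy =>
      obtain ⟨d, hd, rfl⟩ := hy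
      rw [TensorProduct.mk_apply, TensorProduct.mk_apply, Algebra.TensorProduct.tmul_mul_tmul,
        one_mul]
      exact tmul_mem (mul_mem hc hd)
    | zero => rw [mul_zero]; exact zero_mem _
    | add x y _ _ hx hy => rw [mul_add]; exact add_mem hx hy
    | smul r x _ hx => rw [mul_smul_comm]; exact Submodule.smul_mem _ _ hx
  | zero => rw [zero_mul]; exact zero_mem _
  | add x y _ _ hx hy => rw [add_mul]; exact add_mem hx hy
  | smul r x _ hx => rw [smul_mul_assoc]; exact Submodule.smul_mem _ _ hx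

theorem theta_mem {x : CV T.W P} (h1 : x ∈ inv T P) (h2 : x ∈ gC T P 2) : x ∈ alg2C T P := by
  have h3 : ∀ x ∈ (spH T P).baseChange ℂ, (q2 T P).baseChange ℂ x ∈ alg2C T P := by
    intro x hx
    rw [Submodule.baseChange_eq_span] at hx
    induction hx using Submodule.span_induction with
    | mem x hx =>
      obtain ⟨c, hc, rfl⟩ := hx
      rw [TensorProduct.mk_apply, LinearMap.baseChange_tmul]
      exact tmul_mem (q2_spH hc)
    | zero => rw [map_zero]; exact zero_mem _
    | add x y _ _ hx hy => rw [map_add]; exact add_mem hx hy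
    | smul c x _ hx => rw [map_smul]; exact Submodule.smul_mem _ _ hx
  have h4 := h3 x (inv_le h1)
  rwa [q2_gC h2] at h4

/-- **Powers.** -/
theorem g2_pw (h : Good T X) (n : ℕ) : G2 T (pw X n) := by
  intro j c hc
  have h1 := inv_pw h n (hodge_inv hc)
  refine mem_of_baseChange (Subalgebra.toSubmodule (alg2 T (pw X n))) ?_
  change (1 : ℂ) ⊗ₜ[T.W.K] c ∈ alg2C T (pw X n)
  generalize (1 : ℂ) ⊗ₜ[T.W.K] c = x at h1
  induction h1 using Algebra.adjoin_induction with
  | mem x hx => exact theta_mem hx.1 hx.2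
  | algebraMap r =>
    rw [Algebra.algebraMap_eq_smul_one]
    exact Submodule.smul_mem _ _ (tmul_mem (one_mem _))
  | add x y _ _ hx hy => exact add_mem hx hy
  | mul x y _ _ hx hy => exact alg2C_mul hx hy

theorem map_alg2 {A B : 𝒱.Obj} (f : A ⟶ B) {c : T.W.H B} (hc : c ∈ alg2 T B) :
    T.W.map f c ∈ alg2 T A := by
  have h1 : T.W.map f c ∈ (alg2 T B).map (T.W.map f) := ⟨c, hc, rfl⟩
  rw [alg2, AlgHom.map_adjoin] at h1
  refine Algebra.adjoin_mono ?_ h1
  rintro _ ⟨d, hd, rfl⟩
  exact ⟨T.W.map_mem _ hd.1, (T.map _ _ f _ _ _ hd.2 :)⟩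

/-- **Products.** -/
theorem g2_prod (hs : Spl T P Y) (hP : G2 T P) (hY : G2 T Y) : G2 T (P.prod Y) := by
  intro j c hc
  refine (Submodule.span_le (p := Subalgebra.toSubmodule (alg2 T (P.prod Y)))).2 ?_
    (hodge_prod' hs hc)
  rintro x ⟨i, l, a, b, ha, hb, rfl⟩
  exact (alg2 T (P.prod Y)).mul_mem (map_alg2 _ (hP i a ha)) (map_alg2 _ (hY l b hb))

/-- Isomorphic varieties. -/
theorem g2_retract {A B : 𝒱.Obj} (f : A ⟶ B) (g : B ⟶ A) (hfg : f ≫ g = 𝟙 A) (h : G2 T B) :
    G2 T A := by
  intro j c hc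
  have h1 : T.W.map g c ∈ alg2 T B := h j _ ⟨T.W.map_mem _ hc.1, (T.map _ _ g _ _ _ hc.2 :)⟩
  have h2 := map_alg2 f h1
  rwa [← T.W.map_comp, hfg, T.W.map_id] at h2

/-- Systems of classes. -/
theorem allIn_of_g2 {Q : ClassPred T.W} (h : G2 T P)
    (h1 : ∀ d : T.W.H P, IsHodge T P 1 d → Q.P P 1 d) : AllIn T Q P := by
  intro j c hc
  have h2 : ∀ x ∈ alg2 T P, x ∈ Q.sys.C P := by
    intro x hx
    induction hx using Algebra.adjoin_induction with
    | mem x hx => exact ClassPred.sp_of (h1 x hx)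
    | algebraMap r =>
      rw [Algebra.algebraMap_eq_smul_one]
      exact Submodule.smul_mem _ _ (Q.sys.one P)
    | add x y _ _ hx hy => exact add_mem hx hy
    | mul x y _ _ hx hy => exact Q.sys.mul hx hy
  have h3 : c ∈ Q.sp P := h2 c (h j c hc)
  have h4 := ClassPred.sp_proj h3 j
  rwa [H914.proj_same _ hc.1] at h4

end

end Pool.Agent.L5helper28.IG
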