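import Pool.Agent.L5helper28.IG.Inst
import Pool.Agent.L5helper28.IF.Kun2

/-!
# Hodge classes on powers generated by Hodge classes of degree two
-/

set_option autoImplicit false
set_option linter.unusedSectionVars false

open CategoryTheory AlgebraicGeometry TensorProduct Matrix

universe u

namespace Pool.Agent.L5helper28.IG

open Module
open Pool.Agent.H914 Pool.Agent.H914.VarClass Pool.Agent.H914.VarClass.Obj
  Pool.Agent.H914.WeilCohomology
open Pool.Agent.Y121 Pool.Agent.Y121.AHS Pool.Agent.N996 Pool.Agent.N996.FP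
open Pool.Agent.L5helper28.IF
open Pool.Agent.Y133.Half (pw)

noncomputable section

variable {k : Type u} [Field k] {𝒱 : VarClass k} {ops : CycleOps 𝒱} {T : HodgeTheory ops}
  {X Y P : 𝒱.Obj}

/-! ### Pull-backs -/

theorem pb_mul {X Y : 𝒱.Obj} (f : X ⟶ Y) (x y : CV T.W Y) :
    pb (T := T) f (x * y) = pb (T := T) f x * pb (T := T) f y := by
  rw [← pb_eq, ← pb_eq, ← pb_eq]
  exact map_mul ((baseW T.W ℂ).map f) x y

theorem pb_one {X Y : 𝒱.Obj} (f : X ⟶ Y) : pb (T := T) f (1 : CV T.W Y) = 1 := by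
  rw [← pb_eq]
  exact map_one ((baseW T.W ℂ).map f)

/-- the pull-back as a homomorphism of algebras -/
def pbA {X Y : 𝒱.Obj} (f : X ⟶ Y) : CV T.W Y →ₐ[ℂ] CV T.W X :=
  AlgHom.ofLinearMap (pb (T := T) f) (pb_one f) (pb_mul f)

theorem pbA_apply {X Y : 𝒱.Obj} (f : X ⟶ Y) (x : CV T.W Y) : pbA (T := T) f x = pb (T := T) f x :=
  rfl

theorem pb_comp {X Y Z : 𝒱.Obj} (f : X ⟶ Y) (g : Y ⟶ Z) (x : CV T.W Z) :
    pb (T := T) (f ≫ g) x = pb (T := T) f (pb (T := T) g x) := by
  refine cv_ind (P := fun x => pb (T := T) (f ≫ g) x = pb (T := T) f (pb (T := T) g x))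
    ?_ ?_ ?_ x
  · rw [map_zero, map_zero, map_zero]
  · intro l c
    rw [pb, pb, pb, LinearMap.baseChange_tmul, LinearMap.baseChange_tmul,
      LinearMap.baseChange_tmul]
    congr 1
    exact T.W.map_comp f g c
  · intro x y hx hy
    rw [map_add, map_add, map_add, hx, hy]

theorem pb_id (x : CV T.W X) : pb (T := T) (𝟙 X) x = x := by
  refine cv_ind (P := fun x => pb (T := T) (𝟙 X) x = x) ?_ ?_ ?_ x
  · rw [map_zero]
  · intro l c
    rw [pb, LinearMap.baseChange_tmul]
    congr 1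
    exact T.W.map_id X c
  · intro x y hx hy
    rw [map_add, hx, hy]

/-- classes of degree `i` with complex coefficients -/
def gC (T : HodgeTheory ops) (X : 𝒱.Obj) (i : ℕ) : Submodule ℂ (CV T.W X) :=
  (T.W.gr X i).baseChange ℂ

theorem pb_gC {X Y : 𝒱.Obj} (f : X ⟶ Y) {i : ℕ} {x : CV T.W Y} (hx : x ∈ gC T Y i) :
    pb (T := T) f x ∈ gC T X i := by
  rw [gC, Submodule.baseChange_eq_span] at hx
  induction hx using Submodule.span_induction with
  | mem x hx =>
    obtain ⟨c, hc, rfl⟩ := hx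
    rw [TensorProduct.mk_apply, pb, LinearMap.baseChange_tmul]
    exact Submodule.tmul_mem_baseChange_of_mem (1 : ℂ) (T.W.map_mem f hc)
  | zero => rw [map_zero]; exact zero_mem _
  | add x y _ _ hx hy => rw [map_add]; exact add_mem hx hy
  | smul c x _ hx => rw [map_smul]; exact Submodule.smul_mem _ _ hx

theorem gC_mul {i j : ℕ} {x y : CV T.W X} (hx : x ∈ gC T X i) (hy : y ∈ gC T X j) :
    x * y ∈ gC T X (i + j) := by
  rw [gC, Submodule.baseChange_eq_span] at hx hy
  induction hx using Submodule.span_induction with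
  | mem x hx =>
    obtain ⟨c, hc, rfl⟩ := hx
    induction hy using Submodule.span_induction with
    | mem y hy =>
      obtain ⟨d, hd, rfl⟩ := hy
      rw [TensorProduct.mk_apply, TensorProduct.mk_apply, Algebra.TensorProduct.tmul_mul_tmul,
        one_mul]
      exact Submodule.tmul_mem_baseChange_of_mem (1 : ℂ) (T.W.mul_mem hc hd)
    | zero => rw [mul_zero]; exact zero_mem _
    | add x y _ _ hx hy => rw [mul_add]; exact add_mem hx hy
    | smul r x _ hx => rw [mul_smul_comm]; exact Submodule.smul_mem _ _ hx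
  | zero => rw [zero_mul]; exact zero_mem _
  | add x y _ _ hx hy => rw [add_mul]; exact add_mem hx hy
  | smul r x _ hx => rw [smul_mul_assoc]; exact Submodule.smul_mem _ _ hx

theorem gC_anti {x y : CV T.W X} (hx : x ∈ gC T X 1) (hy : y ∈ gC T X 1) :
    x * y = -(y * x) := by
  rw [gC, Submodule.baseChange_eq_span] at hx hy
  induction hx using Submodule.span_induction with
  | mem x hx =>
    obtain ⟨c, hc, rfl⟩ := hx
    induction hy using Submodule.span_induction with
    | mem y hy =>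
      obtain ⟨d, hd, rfl⟩ := hy
      have h := T.W.comm hc hd
      rw [mul_one, pow_one, neg_smul, one_smul] at h
      rw [TensorProduct.mk_apply, TensorProduct.mk_apply, Algebra.TensorProduct.tmul_mul_tmul,
        Algebra.TensorProduct.tmul_mul_tmul, one_mul, h, TensorProduct.tmul_neg]
    | zero => rw [mul_zero, zero_mul, neg_zero]
    | add x y _ _ hx hy => rw [mul_add, add_mul, hx, hy, neg_add]
    | smul r x _ hx => rw [mul_smul_comm, smul_mul_assoc, hx, smul_neg]
  | zero => rw [zero_mul, mul_zero, neg_zero]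
  | add x y _ _ hx hy => rw [mul_add, add_mul, hx, hy, neg_add]
  | smul r x _ hx => rw [mul_smul_comm, smul_mul_assoc, hx, smul_neg]

/-! ### Words -/

/-- the letters on the power -/
def lt {R : Type} (b : R → CV T.W X) (n i : ℕ) (x : R) : CV T.W (pw X n) :=
  pb (T := T) (pr X n i) (b x)

theorem adjoin_pw {R : Type} {b : R → CV T.W X}
    (hb : ∀ z : CV T.W X, z ∈ Algebra.adjoin ℂ (Set.range b)) (n : ℕ) :
    ∀ z : CV T.W (pw X n), z ∈ Algebra.adjoin ℂ {y | ∃ i ≤ n, ∃ x, y = lt b n i x} := by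
  induction n with
  | zero =>
    intro z
    refine Algebra.adjoin_mono ?_ (hb z)
    rintro _ ⟨x, rfl⟩
    exact ⟨0, le_rfl, x, (pb_id (b x)).symm⟩
  | succ n ih =>
    intro z
    refine pb_ind (P := pw X n) (Y := X) (C := fun z : CV T.W ((pw X n).prod X) =>
      z ∈ Algebra.adjoin ℂ {y : CV T.W ((pw X n).prod X) | ∃ i ≤ n + 1, ∃ x, y = lt b (n + 1) i x})
      (zero_mem _) ?_ (fun x y hx hy => add_mem hx hy) z
    intro a c
    refine mul_mem ?_ ?_
    · have h1 : pbA (T := T) (fst (pw X n) X) a ∈ (Algebra.adjoin ℂ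
          {y : CV T.W (pw X n) | ∃ i ≤ n, ∃ x, y = lt b n i x}).map
            (pbA (T := T) (fst (pw X n) X)) := ⟨a, ih a, rfl⟩
      rw [AlgHom.map_adjoin] at h1
      refine Algebra.adjoin_mono ?_ h1
      rintro _ ⟨_, ⟨i, hi, x, rfl⟩, rfl⟩
      refine ⟨i, hi.trans (Nat.le_succ n), x, ?_⟩
      rw [pbA_apply, lt, lt, ← pb_comp]
      have h2 : pr X (n + 1) i = fst (pw X n) X ≫ pr X n i := if_pos hi
      rw [h2]
      rfl
    · have h1 : pbA (T := T) (snd (pw X n) X) c ∈ (Algebra.adjoin ℂ (Set.range b)).map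
            (pbA (T := T) (snd (pw X n) X)) := ⟨c, hb c, rfl⟩
      rw [AlgHom.map_adjoin] at h1
      refine Algebra.adjoin_mono ?_ h1
      rintro _ ⟨_, ⟨x, rfl⟩, rfl⟩
      refine ⟨n + 1, le_rfl, x, ?_⟩
      rw [pbA_apply, lt]
      have h2 : pr X (n + 1) (n + 1) = snd (pw X n) X := if_neg (by omega)
      rw [h2]
      rfl

/-- words span -/
theorem span_words {A : Type*} [Ring A] [Algebra ℂ A] {J R : Type} [Fintype R] [DecidableEq R]
    (u : J → R → A) {c : A} (hc : c ∈ Algebra.adjoin ℂ {y | ∃ i x, y = u i x}) :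
    c ∈ Submodule.span ℂ {x | ∃ (n : ℕ) (a : Fin n → J) (I : Fin n → R), x = wd u a I} := by
  rw [← Subalgebra.mem_toSubmodule, Algebra.adjoin_eq_span] at hc
  refine Submodule.span_mono ?_ hc
  intro y hy
  obtain ⟨l, hl, rfl⟩ := Submonoid.exists_list_of_mem_closure hy
  have h0 : ∀ k : Fin l.length, ∃ i x, l.get k = u i x := fun k => hl _ (List.get_mem l k)
  choose i x h using h0
  refine ⟨l.length, i, x, ?_⟩
  rw [wd]
  congr 1
  have h1 : (List.ofFn fun k => u (i k) (x k)) = List.ofFn l.get := by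
    congr 1
    funext k
    exact (h k).symm
  rw [h1, List.ofFn_get]

/-- reordering of sums -/
theorem form_sum {R : Type} [Fintype R] {M : Type*} [AddCommGroup M] [Module ℂ M]
    (g : Matrix R R ℂ) (B : R → R → ℂ) (v : R → R → M) :
    ∑ x, ∑ y, (∑ z, (g z x * B x y) • v z y + ∑ z, (g z y * B x y) • v x z) =
      ∑ x, ∑ y, (∑ z, g x z * B z y + ∑ z, g y z * B x z) • v x y := by
  simp only [Finset.sum_add_distrib, add_smul, Finset.sum_smul]
  congr 1
  · have h1 : ∀ f : R → R → R → M, ∑ x, ∑ y, ∑ z, f x y z = ∑ z, ∑ y, ∑ x, f x y z := by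
      intro f
      rw [Finset.sum_comm]
      rw [Finset.sum_congr rfl fun y _ => Finset.sum_comm]
      rw [Finset.sum_comm]
    rw [h1]
  · refine Finset.sum_congr rfl fun x _ => ?_
    rw [Finset.sum_comm]

/-! ### The theorem -/

/-- the invariant element of degree two -/
theorem inv_theta {R J : Type} [Fintype R] {A : Type*} [Ring A] [Algebra ℂ A] {D : A →ₗ[ℂ] A}
    {u : J → R → A} {g : Matrix R R ℂ} {B : R → R → ℂ}
    (hD : ∀ x y, D (x * y) = D x * y + x * D y) (hu : ∀ i y, D (u i y) = ∑ x, g x y • u i x)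
    (hB : ∀ x y, ∑ z, g x z * B z y + ∑ z, g y z * B x z = 0) (i j : J) :
    D (∑ t : R × R, B t.1 t.2 • (u i t.1 * u j t.2)) = 0 := by
  rw [map_sum, Fintype.sum_prod_type]
  have h2 : ∀ x y, D (B x y • (u i x * u j y)) =
      ∑ z, (g z x * B x y) • (u i z * u j y) + ∑ z, (g z y * B x y) • (u i x * u j z) := by
    intro x y
    rw [map_smul, hD, hu, hu, Finset.sum_mul, Finset.mul_sum, smul_add,
      Finset.smul_sum, Finset.smul_sum]
    congr 1
    · refine Finset.sum_congr rfl fun z _ => ?_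
      rw [smul_mul_assoc, smul_smul, mul_comm]
    · refine Finset.sum_congr rfl fun z _ => ?_
      rw [mul_smul_comm, smul_smul, mul_comm]
  rw [Finset.sum_congr rfl fun x _ => Finset.sum_congr rfl fun y _ => h2 x y,
    form_sum g B fun x y => u i x * u j y]
  refine Finset.sum_eq_zero fun x _ => Finset.sum_eq_zero fun y _ => ?_
  rw [hB x y, zero_smul]

/-- The Lie algebra acts on the classes `b x` of degree one, which generate the cohomology, by a Lie
algebra of matrices for which the first fundamental theorem is true. -/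
def Good (T : HodgeTheory ops) (X : 𝒱.Obj) : Prop :=
  ∃ (R : Type) (_ : Fintype R) (_ : DecidableEq R) (b : R → CV T.W X) (S : Set (Matrix R R ℂ)),
    (∀ x, b x ∈ gC T X 1) ∧ (∀ z : CV T.W X, z ∈ Algebra.adjoin ℂ (Set.range b)) ∧
    (∀ g ∈ S, gᴴ ∈ S) ∧ FFT S ∧
    (∀ g ∈ S, ∃ D ∈ LT T, ∀ y, D X (b y) = ∑ x, g x y • b x) ∧
    ∀ D ∈ LT T, ∃ g ∈ S, ∀ y, D X (b y) = ∑ x, g x y • b x

end

end Pool.Agent.L5helper28.IG
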