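import Pool.Agent.L5helper28.IG.Geo

/-!
# Hodge classes on powers generated by Hodge classes of degree two: the theorem
-/

set_option autoImplicit false
set_option linter.unusedSectionVars false

open CategoryTheory AlgebraicGeometry TensorProduct Matrix

universe u

namespace Pool.Agent.L5helper28.IG

open Module
open Pool.Agent.H914 Pool.Agent.H914.VarClass Pool.Agent.H914.VarClass.Obj
  Pool.Agent.H914.WeilCohomology
open Pool.Agent.Y121 Pool.Agent.Y121.AHS Pool.Agent.N996 Pool.Agent.N996.FP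
open Pool.Agent.L5helper28.IF
open Pool.Agent.Y133.Half (pw)

noncomputable section

variable {k : Type u} [Field k] {𝒱 : VarClass k} {ops : CycleOps 𝒱} {T : HodgeTheory ops}
  {X Y P : 𝒱.Obj}

set_option maxHeartbeats 400000

theorem theta_inv {R : Type} [Fintype R] {P : 𝒱.Obj} {uu : ℕ → R → CV T.W P} {B : R → R → ℂ}
    (hB : ∀ D ∈ LT T, ∃ g : Matrix R R ℂ, (∀ i y, D P (uu i y) = ∑ x, g x y • uu i x) ∧
      ∀ x y, ∑ z, g x z * B z y + ∑ z, g y z * B x z = 0) (i j : ℕ) :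
    (∑ t : R × R, B t.1 t.2 • (uu i t.1 * uu j t.2) : CV T.W P) ∈ inv T P := by
  intro D hD
  obtain ⟨g, h1, h2⟩ := hB D hD
  have h3 := inv_theta (A := CV T.W P) (D := D P) (u := uu) (g := g) (B := B)
    (LT_mul hD P) h1 h2 i j
  exact h3

theorem theta_gC {R : Type} [Fintype R] {P : 𝒱.Obj} {uu : ℕ → R → CV T.W P}
    (hu : ∀ i x, uu i x ∈ gC T P 1) (B : R → R → ℂ) (i j : ℕ) :
    (∑ t : R × R, B t.1 t.2 • (uu i t.1 * uu j t.2) : CV T.W P) ∈ gC T P 2 := by
  refine Submodule.sum_mem (gC T P 2) fun t _ => Submodule.smul_mem (gC T P 2) _ ?_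
  have h1 := gC_mul (hu i t.1) (hu j t.2)
  rw [one_add_one_eq_two] at h1
  exact h1

/-- **Invariants on the powers.** -/
theorem inv_pw (h : Good T X) (n : ℕ) {c : CV T.W (pw X n)} (hc : c ∈ inv T (pw X n)) :
    c ∈ Algebra.adjoin ℂ {θ | θ ∈ inv T (pw X n) ∧ θ ∈ gC T (pw X n) 2} := by
  obtain ⟨R, _, _, b, S, hb1, hb, hS, hF, hr, ha⟩ := h
  let uu : ℕ → R → CV T.W (pw X n) := lt b n
  have hu1 : ∀ i x, uu i x ∈ gC T (pw X n) 1 := fun i x => pb_gC _ (hb1 x)
  have hDu : ∀ {D : Ops fun X : 𝒱.Obj => CV T.W X}, D ∈ LT T → ∀ {g : Matrix R R ℂ},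
      (∀ y, D X (b y) = ∑ x, g x y • b x) → ∀ i y, D (pw X n) (uu i y) = ∑ x, g x y • uu i x := by
    intro D hD g hg i y
    change D (pw X n) (pb (T := T) (pr X n i) (b y)) = ∑ x, g x y • pb (T := T) (pr X n i) (b x)
    have h1 := LT_map hD (isShift_map (T := T) (pr X n i)) (b y)
    refine h1.trans ?_
    rw [hg, map_sum]
    exact Finset.sum_congr rfl fun x _ => map_smul _ _ _
  refine mem_of_inv (u := uu) hS hF (fun i j x y => gC_anti (hu1 i x) (hu1 j y)) ?_ ?_ _ ?_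
  · refine span_words uu (Algebra.adjoin_mono ?_ (adjoin_pw hb n c))
    rintro _ ⟨i, -, x, rfl⟩
    exact ⟨i, x, rfl⟩
  · intro g hg
    obtain ⟨D, hD, h1⟩ := hr g hg
    exact ⟨D (pw X n), LT_mul hD _, hDu hD h1, hc D hD⟩
  · intro B hB i j
    refine Algebra.subset_adjoin ⟨?_, ?_⟩
    · refine theta_inv (P := pw X n) (uu := uu) (B := B) (fun D hD => ?_) i j
      obtain ⟨g, hg, h1⟩ := ha D hD
      exact ⟨g, hDu hD h1, hB g hg⟩
    · exact theta_gC (P := pw X n) (uu := uu) hu1 B i j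

end

end Pool.Agent.L5helper28.IG
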