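import Pool.Agent.L5helper28.IG.Sp

/-!
# Isomorphic symplectic Lie algebras
-/

set_option autoImplicit false
set_option linter.unusedSectionVars false

open Module

namespace Pool.Agent.L5helper28.IG

noncomputable section

section one

variable {V : Type*} [AddCommGroup V] [Module ℂ V] {ω : V →ₗ[ℂ] V →ₗ[ℂ] ℂ}

/-- the symplectic Lie algebra is spanned by elements of rank at most two -/
theorem Sy.sk_mem [FiniteDimensional ℂ V] (hω : Sy ω) {I : Submodule ℂ (End ℂ V)}
    (h2 : ∀ u v, S2 ω u v ∈ I) {A : End ℂ V} (hA : Sk ω A) : A ∈ I := by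
  classical
  -- the dual basis
  let e := Module.finBasis ℂ V
  have hbij : Function.Bijective ω := by
    have hinj : Function.Injective ω := by
      rw [injective_iff_map_eq_zero]
      intro u hu
      exact hω.nd' fun v => by rw [hu, LinearMap.zero_apply]
    refine ⟨hinj, ?_⟩
    exact (LinearMap.injective_iff_surjective_of_finrank_eq_finrank
      (Subspace.dual_finrank_eq).symm).1 hinj
  choose d hd using fun i => hbij.2 (e.coord i)
  have h3 : ∀ z, z = ∑ i, ω (d i) z • e i := by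
    intro z
    conv_lhs => rw [← e.sum_repr z]
    refine Finset.sum_congr rfl fun i _ => ?_
    rw [hd, Basis.coord_apply]
  have h4 : ∀ y, y = -∑ i, ω (e i) y • d i := by
    intro y
    rw [← sub_eq_zero]
    refine hω.nd _ fun v => ?_
    rw [map_sub, map_neg, sub_neg_eq_add, map_sum]
    have h5 : ω v y = ∑ i, ω (d i) v * ω (e i) y := by
      conv_lhs => rw [h3 v]
      rw [map_sum, LinearMap.sum_apply]
      refine Finset.sum_congr rfl fun i _ => ?_
      rw [map_smul, LinearMap.smul_apply, smul_eq_mul]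
    rw [h5, ← Finset.sum_add_distrib]
    refine Finset.sum_eq_zero fun i _ => ?_
    rw [map_smul, smul_eq_mul, hω.anti v (d i)]
    ring
  have h5 : A = (2⁻¹ : ℂ) • ∑ i, S2 ω (d i) (A (e i)) := by
    refine LinearMap.ext fun z => ?_
    rw [LinearMap.smul_apply, LinearMap.sum_apply]
    have h6 : ∑ i, S2 ω (d i) (A (e i)) z = A z + A z := by
      have e1 : A z = ∑ i, ω (d i) z • A (e i) := by
        conv_lhs => rw [h3 z]
        rw [map_sum]
        exact Finset.sum_congr rfl fun i _ => map_smul _ _ _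
      have e2 : A z = ∑ i, ω (A (e i)) z • d i := by
        conv_lhs => rw [h4 (A z)]
        rw [← Finset.sum_neg_distrib]
        refine Finset.sum_congr rfl fun i _ => ?_
        rw [hA (e i) z, neg_smul]
      have e3 : ∑ i, S2 ω (d i) (A (e i)) z = ∑ i, ω (d i) z • A (e i) +
          ∑ i, ω (A (e i)) z • d i := by
        rw [← Finset.sum_add_distrib]
        rfl
      rw [e3, ← e1, ← e2]
    rw [h6, ← two_smul ℂ, smul_smul, inv_mul_cancel₀ two_ne_zero, one_smul]
  rw [h5]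
  exact Submodule.smul_mem _ _ (sum_mem fun i _ => h2 _ _)

/-- an ideal of the symplectic Lie algebra -/
theorem Sy.ideal [FiniteDimensional ℂ V] (hω : Sy ω) {I : Submodule ℂ (End ℂ V)}
    (hI : ∀ x ∈ I, Sk ω x)
    (hb : ∀ A, Sk ω A → ∀ x ∈ I, A * x - x * A ∈ I) (h0 : I ≠ ⊥) {A : End ℂ V} (hA : Sk ω A) :
    A ∈ I := by
  classical
  -- a rank one element
  obtain ⟨w, hw0, hw⟩ : ∃ w : V, w ≠ 0 ∧ rk ω w w ∈ I := by
    obtain ⟨y, hy, hy0⟩ := (Submodule.ne_bot_iff I).1 h0
    obtain ⟨w, hw⟩ : ∃ w, ω w (y w) ≠ 0 := by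
      by_contra hcon
      push Not at hcon
      apply hy0
      refine LinearMap.ext fun u => ?_
      rw [LinearMap.zero_apply]
      refine hω.nd _ fun v => ?_
      have h1 := hcon (u + v)
      rw [map_add, map_add, map_add, LinearMap.add_apply, LinearMap.add_apply, hcon, hcon,
        zero_add, add_zero, hω.anti u (y v), hI y hy v u, neg_neg] at h1
      have h2 : 2 * ω v (y u) = 0 := by linear_combination h1
      exact (mul_eq_zero.1 h2).resolve_left two_ne_zero
    have h1 := hb _ (hω.sk_rk w) _ (hb _ (hω.sk_rk w) y hy)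
    rw [hω.br_br] at h1
    have h2 := Submodule.smul_mem I (-2 * ω w (y w))⁻¹ h1
    rw [smul_smul, inv_mul_cancel₀ (mul_ne_zero (by norm_num) hw), one_smul] at h2
    refine ⟨w, ?_, h2⟩
    rintro rfl
    exact hw (by rw [map_zero, LinearMap.zero_apply])
  have h1 : ∀ u, S2 ω w u ∈ I := by
    intro u
    obtain ⟨B, hB, hBu⟩ := hω.exists_to hw0 u
    have h2 := hb B hB _ hw
    rwa [hω.br_rk hB, hBu] at h2
  have h2 : ∀ u v, S2 ω u v ∈ I := by
    intro u v
    obtain ⟨B, hB, hBu⟩ := hω.exists_to hw0 u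
    have h3 := hb B hB _ (h1 v)
    rw [hω.br_S2 hB, hBu] at h3
    have h4 := sub_mem h3 (h1 (B v))
    rwa [add_sub_cancel_right] at h4
  exact hω.sk_mem h2 hA

end one

section two

variable {V V' : Type*} [AddCommGroup V] [Module ℂ V] [AddCommGroup V'] [Module ℂ V']
  {ω : V →ₗ[ℂ] V →ₗ[ℂ] ℂ} {ω' : V' →ₗ[ℂ] V' →ₗ[ℂ] ℂ} {L : Submodule ℂ (End ℂ V × End ℂ V')}

/-- **Goursat's lemma.** -/
theorem exists_equiv (hω : Sy ω) (hω' : Sy ω') (hV : ∃ v : V, v ≠ 0)
    (hb : ∀ p ∈ L, ∀ q ∈ L, p * q - q * p ∈ L)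
    (hs : ∀ p ∈ L, Sk ω p.1 ∧ Sk ω' p.2)
    (hp : ∀ A, Sk ω A → ∃ A', (A, A') ∈ L) (hp' : ∀ A', Sk ω' A' → ∃ A, (A, A') ∈ L)
    (h1 : ∀ p ∈ L, p.1 = 0 → p.2 = 0) (h2 : ∀ p ∈ L, p.2 = 0 → p.1 = 0) :
    ∃ θ : V →ₗ[ℂ] V', θ ≠ 0 ∧ ∀ p ∈ L, ∀ v, θ (p.1 v) = p.2 (θ v) := by
  classical
  -- rank one elements are mapped to rank one elements
  have hrk : ∀ v, v ≠ 0 → ∀ X', (rk ω v v, X') ∈ L → ∃ (v' : V') (a : ℂ), v' ≠ 0 ∧ a ≠ 0 ∧
      X' = a • rk ω' v' v' := by
    intro v hv X' hX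
    refine hω'.extremal (hs _ hX).2 ?_ ?_
    · intro h0
      have h3 : rk ω v v = 0 := h2 _ hX h0
      obtain ⟨z, hz⟩ : ∃ z, ω v z ≠ 0 := by
        by_contra hcon
        push Not at hcon
        exact hv (hω.nd' hcon)
      have h4 := LinearMap.congr_fun h3 z
      rw [rk_apply, LinearMap.zero_apply] at h4
      rcases smul_eq_zero.1 h4 with h | h
      · exact hz h
      · exact hv h
    · intro w
      obtain ⟨B, hB⟩ := hp' _ (hω'.sk_rk w)
      refine ⟨-2 * ω v (B v), ?_⟩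
      have h3 := hb _ hX _ (hb _ hX _ hB)
      have h4 := sub_mem h3 (Submodule.smul_mem L (-2 * ω v (B v)) hX)
      have h5 := h1 _ h4 (by
        change (rk ω v v * (rk ω v v * B - B * rk ω v v) -
          (rk ω v v * B - B * rk ω v v) * rk ω v v) - (-2 * ω v (B v)) • rk ω v v = 0
        rw [hω.br_br, sub_self])
      exact sub_eq_zero.1 h5
  obtain ⟨v0, hv0⟩ := hV
  obtain ⟨X', hX⟩ := hp _ (hω.sk_rk v0)
  obtain ⟨v', a, hv', ha, hX'⟩ := hrk v0 hv0 X' hX
  -- the vanishing conditions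
  have hz1 : ∀ p ∈ L, (p.1 v0 = 0 ↔ p.2 v' = 0) := by
    intro p hpL
    have h3 := hb p hpL _ hX
    have e1 : (p * (rk ω v0 v0, X') - (rk ω v0 v0, X') * p).1 = S2 ω v0 (p.1 v0) :=
      hω.br_rk (hs p hpL).1 v0
    have e2 : (p * (rk ω v0 v0, X') - (rk ω v0 v0, X') * p).2 = a • S2 ω' v' (p.2 v') := by
      change p.2 * X' - X' * p.2 = _
      rw [hX', mul_smul_comm, smul_mul_assoc, ← smul_sub, hω'.br_rk (hs p hpL).2]
    constructor
    · intro h0
      have h4 := h1 _ h3 (by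
        rw [e1, h0]
        refine LinearMap.ext fun z => ?_
        rw [S2_apply, smul_zero, map_zero, LinearMap.zero_apply, zero_smul, add_zero,
          LinearMap.zero_apply])
      rw [e2] at h4
      exact hω'.S2_ne hv' ((smul_eq_zero.1 h4).resolve_left ha)
    · intro h0
      have h4 := h2 _ h3 (by
        rw [e2, h0]
        have h5 : S2 ω' v' 0 = 0 := by
          refine LinearMap.ext fun z => ?_
          rw [S2_apply, smul_zero, map_zero, LinearMap.zero_apply, zero_smul, add_zero,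
            LinearMap.zero_apply]
        rw [h5, smul_zero])
      rw [e1] at h4
      exact hω.S2_ne hv0 h4
  -- the map
  have hex : ∀ u, ∃ p ∈ L, p.1 v0 = u := by
    intro u
    obtain ⟨A, hA, hAu⟩ := hω.exists_to hv0 u
    obtain ⟨A', hA'⟩ := hp A hA
    exact ⟨_, hA', hAu⟩
  choose P hP hPu using hex
  have huni : ∀ p ∈ L, ∀ u, p.1 v0 = u → p.2 v' = (P u).2 v' := by
    intro p hpL u hpu
    have h3 := (hz1 (p - P u) (sub_mem hpL (hP u))).1 (by
      change p.1 v0 - (P u).1 v0 = 0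
      rw [hpu, hPu, sub_self])
    exact sub_eq_zero.1 h3
  let θ : V →ₗ[ℂ] V' :=
    { toFun := fun u => (P u).2 v'
      map_add' := fun u w => (huni (P u + P w) (add_mem (hP u) (hP w)) (u + w) (by
        change (P u).1 v0 + (P w).1 v0 = u + w
        rw [hPu, hPu])).symm
      map_smul' := fun c u => (huni (c • P u) (Submodule.smul_mem _ _ (hP u)) (c • u) (by
        change c • (P u).1 v0 = c • u
        rw [hPu])).symm }
  have hθ : ∀ p ∈ L, θ (p.1 v0) = p.2 v' := fun p hpL => (huni p hpL _ rfl).symm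
  have hθinj : ∀ u, θ u = 0 → u = 0 := by
    intro u hu
    have h3 := (hz1 (P u) (hP u)).2 hu
    rw [← hPu u, h3]
  obtain ⟨z0, hz0⟩ : ∃ z, ω z v0 = 1 := by
    obtain ⟨z, hz⟩ : ∃ z, ω z v0 ≠ 0 := by
      by_contra hcon
      push Not at hcon
      exact hv0 (hω.nd v0 hcon)
    exact ⟨(ω z v0)⁻¹ • z, by rw [map_smul, LinearMap.smul_apply, smul_eq_mul, inv_mul_cancel₀ hz]⟩
  -- the defect
  have hsymm : ∀ p ∈ L, ∀ q ∈ L, θ (p.1 (q.1 v0)) - p.2 (θ (q.1 v0)) =
      θ (q.1 (p.1 v0)) - q.2 (θ (p.1 v0)) := by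
    intro p hpL q hqL
    have h3 := hθ _ (hb p hpL q hqL)
    have h4 : (p * q - q * p).1 v0 = p.1 (q.1 v0) - q.1 (p.1 v0) := rfl
    have h5 : (p * q - q * p).2 v' = p.2 (q.2 v') - q.2 (p.2 v') := rfl
    rw [h4, h5, map_sub] at h3
    rw [hθ p hpL, hθ q hqL, sub_eq_sub_iff_sub_eq_sub, h3]
  have hspan : ∀ p : End ℂ V × End ℂ V', (∀ u, ω u v0 = 1 → θ (p.1 u) = p.2 (θ u)) →
      ∀ u, θ (p.1 u) = p.2 (θ u) := by
    intro p hpu u
    have h3 := hpu (u + (1 - ω u v0) • z0) (by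
      rw [map_add, LinearMap.add_apply, map_smul, LinearMap.smul_apply, hz0, smul_eq_mul]
      ring)
    rw [map_add, map_add, map_add, map_add, map_smul, map_smul, map_smul, map_smul, hpu z0 hz0]
      at h3
    exact add_right_cancel h3
  choose Q' hQ using fun b => hp _ (hω.sk_rk b)
  have hQb : ∀ b, ω b v0 = 1 → (rk ω b b) v0 = b := by
    intro b hb'
    rw [rk_apply, hb', one_smul]
  have hne : ∀ b, ω b v0 = 1 → b ≠ 0 := by
    rintro b hb' rfl
    rw [map_zero, LinearMap.zero_apply] at hb'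
    exact zero_ne_one hb'
  -- the image of the rank one elements
  have him : ∀ b, ω b v0 = 1 → ∀ z, ∃ c : ℂ, Q' b z = c • θ b := by
    intro b hb' z
    obtain ⟨b', c, hb0, hc, h3⟩ := hrk b (hne b hb') _ (hQ b)
    have h4 : θ b = (c * ω' b' v') • b' := by
      have h5 := hθ _ (hQ b)
      change θ ((rk ω b b) v0) = Q' b v' at h5
      rw [hQb b hb', h3, LinearMap.smul_apply, rk_apply, smul_smul] at h5
      exact h5
    have h5 : c * ω' b' v' ≠ 0 := by
      intro h6
      rw [h6, zero_smul] at h4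
      exact hne b hb' (hθinj b h4)
    refine ⟨c * ω' b' z * (c * ω' b' v')⁻¹, ?_⟩
    rw [h4, smul_smul, mul_assoc (c * ω' b' z), inv_mul_cancel₀ h5, mul_one, h3,
      LinearMap.smul_apply, rk_apply, smul_smul]
  have him' : ∀ b, ω b v0 = 1 → Q' b (θ b) = 0 := by
    intro b hb'
    obtain ⟨b', c, hb0, hc, h3⟩ := hrk b (hne b hb') _ (hQ b)
    have h4 : θ b = (c * ω' b' v') • b' := by
      have h5 := hθ _ (hQ b)
      change θ ((rk ω b b) v0) = Q' b v' at h5
      rw [hQb b hb', h3, LinearMap.smul_apply, rk_apply, smul_smul] at h5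
      exact h5
    rw [h4, h3, LinearMap.smul_apply, rk_apply, map_smul, hω'.alt, smul_zero, zero_smul, smul_zero]
  have hE : ∀ b, ω b v0 = 1 → ∀ u, ω u v0 = 1 → θ ((rk ω b b) u) = Q' b (θ u) := by
    intro b hb' u hu
    by_cases hdep : ∃ c : ℂ, u = c • b
    · obtain ⟨c, rfl⟩ := hdep
      rw [map_smul, LinearMap.smul_apply, hb', smul_eq_mul, mul_one] at hu
      rw [hu, one_smul, rk_apply, hω.alt, zero_smul, map_zero, him' b hb']
    · have h3 := hsymm _ (hQ b) _ (hQ u)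
      change θ ((rk ω b b) ((rk ω u u) v0)) - Q' b (θ ((rk ω u u) v0)) =
        θ ((rk ω u u) ((rk ω b b) v0)) - Q' u (θ ((rk ω b b) v0)) at h3
      rw [hQb b hb', hQb u hu] at h3
      obtain ⟨c, hc⟩ := him b hb' (θ u)
      obtain ⟨d, hd⟩ := him u hu (θ b)
      rw [hc, hd, rk_apply, rk_apply, map_smul, map_smul, ← sub_smul, ← sub_smul] at h3
      have h4 : ω u b - d = 0 := by
        by_contra h5
        apply hdep
        refine ⟨(ω u b - d)⁻¹ * (ω b u - c), ?_⟩
        rw [← sub_eq_zero]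
        apply hθinj
        rw [map_sub, map_smul, ← smul_smul, h3, smul_smul, inv_mul_cancel₀ h5, one_smul, sub_self]
      rw [h4, zero_smul, sub_smul] at h3
      rw [rk_apply, map_smul, hc]
      exact sub_eq_zero.1 h3
  refine ⟨θ, ?_, fun p hpL => hspan p fun u hu => ?_⟩
  · intro h0
    refine hne z0 hz0 (hθinj z0 ?_)
    rw [h0, LinearMap.zero_apply]
  · have h3 := hsymm p hpL _ (hQ u)
    change θ (p.1 ((rk ω u u) v0)) - p.2 (θ ((rk ω u u) v0)) =
      θ ((rk ω u u) (p.1 v0)) - Q' u (θ (p.1 v0)) at h3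
    rw [hQb u hu] at h3
    have h4 := hspan (rk ω u u, Q' u) (fun w hw => hE u hu w hw) (p.1 v0)
    change θ ((rk ω u u) (p.1 v0)) = Q' u (θ (p.1 v0)) at h4
    rw [h4, sub_self] at h3
    exact sub_eq_zero.1 h3

end two

end

end Pool.Agent.L5helper28.IG
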