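import Pool.Agent.L5helper28.IG.Alg
import Pool.Agent.H204R3.SP.FFT

/-!
# The first fundamental theorem for symplectic Lie algebras and for the torus in `SL(2)`
-/

set_option autoImplicit false
set_option linter.unusedSectionVars false

open Matrix

namespace Pool.Agent.L5helper28.IG

open Pool.Agent.H204R3.SP (JJ InvF MatF matF fft)

noncomputable section

variable {R : Type} [Fintype R] [DecidableEq R] {inv : R → R} {jj : R → ℂ}

/-- the generators of the symplectic Lie algebra -/
def spg (inv : R → R) (jj : R → ℂ) (b c : R) : Matrix R R ℂ :=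
  Matrix.of fun x y => JJ inv jj b x * (if y = c then 1 else 0) +
    JJ inv jj c x * (if y = b then 1 else 0)

theorem spg_sum (b c x : R) (f : R → ℂ) :
    ∑ y, spg inv jj b c x y * f y = JJ inv jj b x * f c + JJ inv jj c x * f b := by
  simp only [spg, Matrix.of_apply, add_mul, mul_assoc, Finset.sum_add_distrib, ite_mul, one_mul,
    zero_mul, mul_ite, mul_zero, Finset.sum_ite_eq', Finset.mem_univ, if_true]

/-- odd tensors are not invariant -/
theorem odd_zero (hjj : ∀ x, jj (inv x) = -jj x) (hinv : ∀ x, inv (inv x) = x)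
    (hj0 : ∀ x, jj x ≠ 0) {n : ℕ} {F : (Fin n → R) → ℂ} (hF : F ∈ InvF inv jj (Fin n))
    (hn : ¬ Even n) : F = 0 := by
  funext I
  by_contra hI
  apply hn
  have hne : ∀ b, inv b ≠ b := by
    intro b h
    have h1 := hjj b
    rw [h] at h1
    exact hj0 b (self_eq_neg.1 h1)
  have hc : ∀ b, (Finset.univ.filter fun k => I k = b).card =
      (Finset.univ.filter fun k => I k = inv b).card := by
    intro b
    have h1 := hF b (inv b) I
    have h2 : ∀ k, JJ inv jj b (I k) * F (Function.update I k (inv b)) +
        JJ inv jj (inv b) (I k) * F (Function.update I k b) =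
        ((if I k = inv b then (1 : ℂ) else 0) - (if I k = b then 1 else 0)) * (jj b * F I) := by
      intro k
      unfold JJ
      rw [hinv, hjj]
      by_cases h3 : I k = inv b
      · rw [if_pos h3, if_pos h3, if_neg (by rw [h3]; exact hne b), ← h3, Function.update_eq_self]
        rw [if_neg (by rw [h3]; exact hne b)]
        ring
      · rw [if_neg h3, if_neg h3]
        by_cases h4 : I k = b
        · rw [if_pos h4, if_pos h4, ← h4, Function.update_eq_self]
          ring
        · rw [if_neg h4, if_neg h4]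
          ring
    rw [Finset.sum_congr rfl fun k _ => h2 k, ← Finset.sum_mul, Finset.sum_sub_distrib,
      Finset.sum_boole, Finset.sum_boole] at h1
    have h3 := (mul_eq_zero.1 h1).resolve_right (mul_ne_zero (hj0 b) hI)
    have h4 : ((Finset.univ.filter fun k => I k = inv b).card : ℂ) =
      (Finset.univ.filter fun k => I k = b).card := sub_eq_zero.1 h3
    exact_mod_cast h4.symm
  have h1 : (n : ZMod 2) = 0 := by
    have h2 : n = ∑ b, (Finset.univ.filter fun k => I k = b).card := by
      rw [← Finset.card_eq_sum_card_fiberwise (fun k _ => Finset.mem_univ (I k)), Finset.card_univ,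
        Fintype.card_fin]
    rw [h2, Nat.cast_sum]
    refine Finset.sum_involution (fun b _ => inv b) ?_ ?_ ?_ ?_
    · intro b _
      rw [← hc b, ← two_mul]
      have : (2 : ZMod 2) = 0 := rfl
      rw [this, zero_mul]
    · intro b _ _
      exact hne b
    · intro b _
      exact Finset.mem_univ _
    · intro b _
      exact hinv b
  exact (ZMod.natCast_eq_zero_iff_even).1 h1

/-- **The symplectic Lie algebra.** -/
theorem fft_sp (hinv : ∀ x, inv (inv x) = x) (hjj : ∀ x, jj (inv x) = -jj x)
    (hj0 : ∀ x, jj x ≠ 0) {S : Set (Matrix R R ℂ)} (hS : ∀ b c, spg inv jj b c ∈ S)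
    (hB : InvForm S (JJ inv jj)) : FFT S := by
  intro n F hF
  have h1 : F ∈ InvF inv jj (Fin n) := by
    intro b c I
    have h2 := hF _ (hS b c) I
    rw [← h2]
    refine Finset.sum_congr rfl fun k _ => ?_
    rw [spg_sum]
  by_cases hn : Even n
  · obtain ⟨m, hm⟩ := hn
    have h2 := fft hinv hjj hj0 m (Fin n) (by rw [Fintype.card_fin]; omega) h1
    refine Submodule.span_mono ?_ h2
    rintro _ ⟨e, rfl⟩
    exact ⟨m, e, fun _ => JJ inv jj, fun _ => hB, rfl⟩
  · rw [odd_zero hjj hinv hj0 h1 hn]
    exact zero_mem _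

/-! ### The torus -/

/-- the diagonal matrix -/
def dg (c : ℂ) : Matrix (Fin 2) (Fin 2) ℂ := !![c, 0; 0, -c]

theorem dg_sum (c : ℂ) (x : Fin 2) (f : Fin 2 → ℂ) :
    ∑ y, dg c x y * f y = (if x = 0 then c else -c) * f x := by
  fin_cases x <;> simp [dg, Fin.sum_univ_two]

/-- the torus -/
def tor : Set (Matrix (Fin 2) (Fin 2) ℂ) := Set.range dg

theorem tor_star : ∀ g ∈ tor, gᴴ ∈ tor := by
  rintro _ ⟨c, rfl⟩
  refine ⟨star c, ?_⟩
  ext i j
  fin_cases i <;> fin_cases j <;> simp [dg, conjTranspose_apply]

/-- the matching of a balanced sequence -/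
theorem exists_match {n : ℕ} {I : Fin n → Fin 2}
    (h : (Finset.univ.filter fun k => I k = 0).card = (Finset.univ.filter fun k => I k = 1).card) :
    ∃ (m : ℕ) (e : Fin m × Fin 2 ≃ Fin n), ∀ s b, I (e (s, b)) = b := by
  classical
  let m := (Finset.univ.filter fun k => I k = 0).card
  have e0 : Fin m ≃ {k // I k = 0} := (Fintype.equivFinOfCardEq (by
    rw [Fintype.card_subtype])).symm
  have e1 : Fin m ≃ {k // I k = 1} := (Fintype.equivFinOfCardEq (by
    rw [Fintype.card_subtype, ← h])).symm
  let f : Fin m × Fin 2 → Fin n := fun t => if t.2 = 0 then (e0 t.1 : Fin n) else (e1 t.1 : Fin n)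
  have hf : ∀ s b, I (f (s, b)) = b := by
    intro s b
    fin_cases b
    · exact (e0 s).2
    · exact (e1 s).2
  have hinj : Function.Injective f := by
    rintro ⟨s, b⟩ ⟨t, c⟩ hst
    have h1 : b = c := by rw [← hf s b, ← hf t c, hst]
    subst h1
    congr 1
    revert hst
    fin_cases b
    · intro hst
      exact e0.injective (Subtype.ext hst)
    · intro hst
      exact e1.injective (Subtype.ext hst)
  have hsurj : Function.Surjective f := by
    intro k
    have h1 : I k = 0 ∨ I k = 1 := by
      generalize I k = b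
      fin_cases b <;> simp
    rcases h1 with h1 | h1
    · refine ⟨(e0.symm ⟨k, h1⟩, 0), ?_⟩
      change (e0 (e0.symm ⟨k, h1⟩) : Fin n) = k
      rw [Equiv.apply_symm_apply]
    · refine ⟨(e1.symm ⟨k, h1⟩, 1), ?_⟩
      change (e1 (e1.symm ⟨k, h1⟩) : Fin n) = k
      rw [Equiv.apply_symm_apply]
  exact ⟨m, Equiv.ofBijective f ⟨hinj, hsurj⟩, hf⟩

/-- **The torus.** -/
theorem fft_tor : FFT tor := by
  classical
  intro n F hF
  have h0 : ∀ I, F I ≠ 0 → (Finset.univ.filter fun k => I k = 0).card =
      (Finset.univ.filter fun k => I k = 1).card := by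
    intro I hI
    have h1 := hF (dg 1) ⟨1, rfl⟩ I
    have h2 : ∀ k, ∑ y, dg 1 (I k) y * F (Function.update I k y) =
        ((if I k = 0 then (1 : ℂ) else 0) - (if I k = 1 then 1 else 0)) * F I := by
      intro k
      rw [dg_sum, Function.update_eq_self]
      congr 1
      generalize I k = b
      fin_cases b <;> simp
    rw [Finset.sum_congr rfl fun k _ => h2 k, ← Finset.sum_mul, Finset.sum_sub_distrib,
      Finset.sum_boole, Finset.sum_boole] at h1
    have h3 := (mul_eq_zero.1 h1).resolve_right hI
    have h4 : ((Finset.univ.filter fun k => I k = 0).card : ℂ) =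
      (Finset.univ.filter fun k => I k = 1).card := sub_eq_zero.1 h3
    exact_mod_cast h4
  have h1 : F = ∑ I, F I • (Pi.single I (1 : ℂ)) := by
    funext I'
    rw [Finset.sum_apply, Finset.sum_eq_single I']
    · rw [Pi.smul_apply, Pi.single_eq_same, smul_eq_mul, mul_one]
    · intro I _ hne
      rw [Pi.smul_apply, Pi.single_eq_of_ne (Ne.symm hne), smul_zero]
    · intro h
      exact absurd (Finset.mem_univ _) h
  rw [h1]
  refine sum_mem fun I _ => ?_
  by_cases hI : F I = 0
  · rw [hI, zero_smul]
    exact zero_mem _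
  · refine Submodule.smul_mem _ _ (Submodule.subset_span ?_)
    obtain ⟨m, e, he⟩ := exists_match (h0 I hI)
    let B : Fin 2 → Fin 2 → ℂ := fun x y => if x = 0 ∧ y = 1 then 1 else 0
    refine ⟨m, e, fun _ => B, fun _ => ?_, ?_⟩
    · rintro _ ⟨c, rfl⟩ x y
      rw [dg_sum c x (fun z => B z y), dg_sum c y (fun z => B x z)]
      fin_cases x <;> fin_cases y <;> simp [B]
    · funext I'
      by_cases h2 : I' = I
      · rw [h2, Pi.single_eq_same, Finset.prod_eq_one]
        intro s _
        simp only [B, he]
        simp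
      · rw [Pi.single_eq_of_ne h2]
        symm
        rw [Finset.prod_eq_zero_iff]
        by_contra hcon
        push Not at hcon
        apply h2
        funext k
        obtain ⟨t, rfl⟩ := e.surjective k
        obtain ⟨s, b⟩ := t
        have h3 := hcon s (Finset.mem_univ s)
        have h4 : I' (e (s, 0)) = 0 ∧ I' (e (s, 1)) = 1 := by
          by_contra h5
          exact h3 (if_neg h5)
        rw [he]
        fin_cases b
        · exact h4.1
        · exact h4.2

/-! ### The Lie algebra `sl(2)` -/

/-- matrices of trace zero -/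
def sl2 : Set (Matrix (Fin 2) (Fin 2) ℂ) := {g | g 1 1 = -g 0 0}

theorem sl2_star : ∀ g ∈ sl2, gᴴ ∈ sl2 := by
  intro g hg
  change gᴴ 1 1 = -gᴴ 0 0
  have h : g 1 1 = -g 0 0 := hg
  rw [conjTranspose_apply, conjTranspose_apply, h, star_neg]

/-- the involution -/
def sw (x : Fin 2) : Fin 2 := 1 - x

/-- the signs -/
def sg2 (x : Fin 2) : ℂ := if x = 0 then 1 else -1

theorem fft_sl2 : FFT sl2 := by
  refine fft_sp (inv := sw) (jj := sg2) (by decide) ?_ ?_ ?_ ?_
  · intro x
    fin_cases x <;> simp [sw, sg2]
  · intro x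
    fin_cases x <;> simp [sg2]
  · intro b c
    change spg sw sg2 b c 1 1 = -spg sw sg2 b c 0 0
    fin_cases b <;> fin_cases c <;> simp [spg, JJ, sw, sg2]
  · intro g hg x y
    have h : g 1 1 = -g 0 0 := hg
    fin_cases x <;> fin_cases y <;> simp [JJ, sw, sg2, Fin.sum_univ_two, h]

end

end Pool.Agent.L5helper28.IG
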