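import Pool.Agent.L5helper28.IG.Word

/-!
# Matchings of the letters of a word
-/

set_option autoImplicit false
set_option linter.unusedSectionVars false

namespace Pool.Agent.L5helper28.IG

noncomputable section

variable {R : Type} [Fintype R] [DecidableEq R] {J : Type} {A : Type*} [Ring A] [Algebra ℂ A]
  {u : J → R → A}

theorem perm_word {κ : Type*} {v : κ → R → A} (hv : ∀ i j x y, v i x * v j y = -(v j y * v i x))
    {l l' : List κ} (h : l.Perm l') :
    ∃ ε : ℂ, ∀ I : κ → R, (l.map fun k => v k (I k)).prod =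
      ε • (l'.map fun k => v k (I k)).prod := by
  induction h with
  | nil => exact ⟨1, fun I => (one_smul _ _).symm⟩
  | cons x _ ih =>
    obtain ⟨ε, h⟩ := ih
    refine ⟨ε, fun I => ?_⟩
    rw [List.map_cons, List.prod_cons, List.map_cons, List.prod_cons, h, mul_smul_comm]
  | swap x y l =>
    refine ⟨-1, fun I => ?_⟩
    rw [List.map_cons, List.map_cons, List.prod_cons, List.prod_cons, List.map_cons, List.map_cons,
      List.prod_cons, List.prod_cons, ← mul_assoc, ← mul_assoc, hv, neg_mul, neg_smul, one_smul]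
  | trans _ _ ih ih' =>
    obtain ⟨ε, h⟩ := ih
    obtain ⟨ε', h'⟩ := ih'
    exact ⟨ε * ε', fun I => by rw [h, h', mul_smul]⟩

theorem prod_flat {κ α : Type*} (f : α → List κ) (G : κ → A) (l : List α) :
    ((l.flatMap f).map G).prod = (l.map fun s => ((f s).map G).prod).prod := by
  induction l with
  | nil => rfl
  | cons a l ih => rw [List.flatMap_cons, List.map_append, List.prod_append, ih, List.map_cons,
      List.prod_cons]

variable {n m : ℕ} (e : Fin m × Fin 2 ≃ Fin n)

/-- the positions in the order of the matching -/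
def lst : List (Fin n) := (List.finRange m).flatMap fun s => [e (s, 0), e (s, 1)]

theorem lst_perm : (List.finRange n).Perm (lst e) := by
  refine (List.perm_ext_iff_of_nodup (List.nodup_finRange n) ?_).2 ?_
  · rw [lst, List.nodup_flatMap]
    refine ⟨fun s _ => ?_, ?_⟩
    · rw [List.nodup_cons, List.mem_singleton]
      refine ⟨fun h => ?_, List.nodup_singleton _⟩
      have := e.injective h
      simp at this
    · refine (List.nodup_finRange m).imp ?_
      intro s t hst
      rw [Function.onFun, List.disjoint_left]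
      intro x hx hx'
      simp only [List.mem_cons, List.not_mem_nil, or_false] at hx hx'
      rcases hx with rfl | rfl <;> rcases hx' with h | h <;>
        exact hst (congrArg Prod.fst (e.injective h))
  · intro k
    refine ⟨fun _ => ?_, fun _ => List.mem_finRange k⟩
    rw [lst, List.mem_flatMap]
    refine ⟨(e.symm k).1, List.mem_finRange _, ?_⟩
    have h1 : e ((e.symm k).1, (e.symm k).2) = k := e.apply_symm_apply k
    have h2 : (e.symm k).2 = 0 ∨ (e.symm k).2 = 1 := by
      generalize (e.symm k).2 = b
      fin_cases b <;> simp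
    rcases h2 with h2 | h2
    · rw [h2] at h1
      rw [h1]
      exact List.mem_cons_self
    · rw [h2] at h1
      rw [h1]
      exact List.mem_cons_of_mem _ List.mem_cons_self

/-- the pairs of values -/
def prs : (Fin n → R) ≃ (Fin m → R × R) where
  toFun I s := (I (e (s, 0)), I (e (s, 1)))
  invFun r k := if (e.symm k).2 = 0 then (r (e.symm k).1).1 else (r (e.symm k).1).2
  left_inv I := by
    funext k
    have h1 : e ((e.symm k).1, (e.symm k).2) = k := e.apply_symm_apply k
    change (if (e.symm k).2 = 0 then I (e ((e.symm k).1, 0)) else I (e ((e.symm k).1, 1))) = I k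
    split_ifs with h
    · rw [h] at h1
      rw [h1]
    · have h2 : (e.symm k).2 = 1 := by
        revert h
        generalize (e.symm k).2 = b
        fin_cases b <;> simp
      rw [h2] at h1
      rw [h1]
  right_inv r := by
    funext s
    simp

/-- **The sum over a matching.** -/
theorem sum_match (hu : ∀ i j x y, u i x * u j y = -(u j y * u i x)) (a : Fin n → J)
    (B : Fin m → R → R → ℂ) :
    ∃ ε : ℂ, ∑ I : Fin n → R, (∏ s, B s (I (e (s, 0))) (I (e (s, 1)))) • wd u a I =
      ε • (List.ofFn fun s : Fin m => ∑ t : R × R, B s t.1 t.2 •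
        (u (a (e (s, 0))) t.1 * u (a (e (s, 1))) t.2)).prod := by
  obtain ⟨ε, hε⟩ := perm_word (v := fun k => u (a k)) (fun i j x y => hu _ _ x y) (lst_perm e)
  refine ⟨ε, ?_⟩
  have h1 : ∀ I : Fin n → R, wd u a I = ε • (List.ofFn fun s : Fin m =>
      u (a (e (s, 0))) (I (e (s, 0))) * u (a (e (s, 1))) (I (e (s, 1)))).prod := by
    intro I
    rw [wd, List.ofFn_eq_map, hε, lst, prod_flat, List.ofFn_eq_map]
    congr 3
    funext s
    simp
  have h2 : (List.ofFn fun s : Fin m => ∑ t : R × R, B s t.1 t.2 •
        (u (a (e (s, 0))) t.1 * u (a (e (s, 1))) t.2)).prod =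
      MultilinearMap.mkPiAlgebraFin ℂ m A (fun s : Fin m => ∑ t : R × R, B s t.1 t.2 •
        (u (a (e (s, 0))) t.1 * u (a (e (s, 1))) t.2)) :=
    (MultilinearMap.mkPiAlgebraFin_apply _).symm
  rw [h2, MultilinearMap.map_sum, Finset.smul_sum]
  refine Fintype.sum_equiv (prs e) _ _ fun I => ?_
  rw [MultilinearMap.map_smul_univ, MultilinearMap.mkPiAlgebraFin_apply, h1 I, smul_comm]
  rfl

/-- The sum is in the algebra generated by the forms. -/
theorem sum_match_mem (hu : ∀ i j x y, u i x * u j y = -(u j y * u i x)) (a : Fin n → J)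
    (B : Fin m → R → R → ℂ) (S : Subalgebra ℂ A)
    (hS : ∀ s i j, ∑ t : R × R, B s t.1 t.2 • (u i t.1 * u j t.2) ∈ S) :
    ∑ I : Fin n → R, (∏ s, B s (I (e (s, 0))) (I (e (s, 1)))) • wd u a I ∈ S := by
  obtain ⟨ε, h⟩ := sum_match e hu a B
  rw [h]
  refine S.smul_mem (S.list_prod_mem ?_) ε
  intro x hx
  obtain ⟨s, rfl⟩ := (List.mem_ofFn' _ _).1 hx
  exact hS s _ _

end

end Pool.Agent.L5helper28.IG
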