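import Pool.Agent.L5helper28.IG.Gou
import Pool.Agent.L5helper28.IG.Ell

/-!
# Varieties with maximal Hodge group: the form on `H^1`
-/

set_option autoImplicit false
set_option linter.unusedSectionVars false

open CategoryTheory AlgebraicGeometry TensorProduct Matrix

universe u

namespace Pool.Agent.L5helper28.IG

open Module
open Pool.Agent.H914 Pool.Agent.H914.VarClass Pool.Agent.H914.VarClass.Obj
  Pool.Agent.H914.WeilCohomology
open Pool.Agent.Y121 Pool.Agent.Y121.AHS Pool.Agent.N996 Pool.Agent.N996.FP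
open Pool.Agent.L5helper28.IF

noncomputable section

variable {k : Type u} [Field k] {𝒱 : VarClass k} {ops : CycleOps 𝒱} {T : HodgeTheory ops}
  {X Y P : 𝒱.Obj}

set_option maxHeartbeats 400000

/-! ### Degree one -/

theorem isShift_q1' {ψ : RForm T.W X} (hψ : IsPolarisation T X ψ) : IsShift T (q1 T X) 0 := by
  intro p q x hx
  rw [add_zero, add_zero]
  change IsType T.pq p q (show HL T.W ℂ X from (q1 T X).baseChange ℂ (show CV T.W X from x))
  by_cases hx0 : x = 0
  · have h1 : (q1 T X).baseChange ℂ (show CV T.W X from x) = 0 := by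
      rw [hx0]
      exact map_zero ((q1 T X).baseChange ℂ)
    rw [h1]
    exact zero_mem (T.pq X p q)
  · obtain ⟨h1, h2, h3, h4⟩ := hψ.range p q x hx hx0
    obtain ⟨i, hi⟩ : ∃ i : ℕ, p + q = (i : ℤ) := ⟨(p + q).toNat, by omega⟩
    by_cases h5 : i = 1
    · subst h5
      rw [q1_same (type_gr hi hx)]
      exact hx
    · rw [q1_ne h5 (type_gr hi hx)]
      exact zero_mem (T.pq X p q)

theorem LT_q1' {ψ : RForm T.W X} (hψ : IsPolarisation T X ψ)
    {D : Ops fun X : 𝒱.Obj => CV T.W X} (hD : D ∈ LT T) (x : CV T.W X) :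
    D X ((q1 T X).baseChange ℂ x) = (q1 T X).baseChange ℂ (D X x) :=
  LT_map hD (isShift_q1' hψ) x

theorem q1_mem (x : CV T.W X) : (q1 T X).baseChange ℂ x ∈ gC T X 1 := by
  refine cv_ind (P := fun x => (q1 T X).baseChange ℂ x ∈ gC T X 1) ?_ ?_ ?_ x
  · rw [map_zero]; exact zero_mem _
  · intro l c
    rw [LinearMap.baseChange_tmul]
    exact Submodule.tmul_mem_baseChange_of_mem l (proj_mem (T.W.isInternal X) 1 c)
  · intro a b ha hb
    rw [map_add]; exact add_mem ha hb

theorem LT_gC {ψ : RForm T.W X} (hψ : IsPolarisation T X ψ)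
    {D : Ops fun X : 𝒱.Obj => CV T.W X} (hD : D ∈ LT T) {x : CV T.W X} (hx : x ∈ gC T X 1) :
    D X x ∈ gC T X 1 := by
  have h1 := LT_q1' hψ hD x
  rw [q1_same hx] at h1
  rw [h1]
  exact q1_mem _

/-- the types in degree one -/
theorem split_one {ψ : RForm T.W X} (hψ : IsPolarisation T X ψ) {x : CV T.W X}
    (hx : x ∈ gC T X 1) : ∃ u v : CV T.W X, IsType T.pq 1 0 (show HL T.W ℂ X from u) ∧
      IsType T.pq 0 1 (show HL T.W ℂ X from v) ∧ x = u + v := by
  have h1 := gr_type hx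
  have h2 : (⨆ r : {r : ℤ × ℤ // r.1 + r.2 = ((1 : ℕ) : ℤ)}, T.pq X r.1.1 r.1.2) ≤
      T.pq X 1 0 ⊔ T.pq X 0 1 := by
    refine iSup_le fun r y hy => ?_
    by_cases hy0 : y = 0
    · rw [hy0]
      exact zero_mem _
    · obtain ⟨h3, h3', h4, h4'⟩ := hψ.range _ _ y hy hy0
      have h5 := r.2
      have h6 : (r.1.1 = 1 ∧ r.1.2 = 0) ∨ (r.1.1 = 0 ∧ r.1.2 = 1) := by
        push_cast at h5
        omega
      rcases h6 with h6 | h6
      · rw [h6.1, h6.2] at hy
        exact Submodule.mem_sup_left hy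
      · rw [h6.1, h6.2] at hy
        exact Submodule.mem_sup_right hy
  obtain ⟨u, hu, v, hv, h3⟩ := Submodule.mem_sup.1 (h2 h1)
  exact ⟨u, v, hu, hv, h3.symm⟩

theorem hop_one {u : CV T.W X} (hu : IsType T.pq 1 0 (show HL T.W ℂ X from u)) :
    hop T X u = u := by
  rw [hop_pq hu]; norm_num

theorem hop_two {u : CV T.W X} (hu : IsType T.pq 0 1 (show HL T.W ℂ X from u)) :
    hop T X u = -u := by
  rw [hop_pq hu]; norm_num

theorem type_one {ψ : RForm T.W X} (hψ : IsPolarisation T X ψ) {x : CV T.W X}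
    (hx : x ∈ gC T X 1) (h : hop T X x = x) : IsType T.pq 1 0 (show HL T.W ℂ X from x) := by
  obtain ⟨u, v, hu, hv, rfl⟩ := split_one hψ hx
  rw [map_add, hop_one hu, hop_two hv] at h
  have h1 : (2 : ℂ) • v = 0 := by
    rw [two_smul]
    have h2 := add_left_cancel h
    nth_rewrite 1 [← h2]
    exact neg_add_cancel v
  have h2 := (smul_eq_zero.1 h1).resolve_left two_ne_zero
  rw [h2, add_zero]
  exact hu

theorem type_two {ψ : RForm T.W X} (hψ : IsPolarisation T X ψ) {x : CV T.W X}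
    (hx : x ∈ gC T X 1) (h : hop T X x = -x) : IsType T.pq 0 1 (show HL T.W ℂ X from x) := by
  obtain ⟨u, v, hu, hv, rfl⟩ := split_one hψ hx
  rw [map_add, hop_one hu, hop_two hv, neg_add] at h
  have h1 : (2 : ℂ) • u = 0 := by
    rw [two_smul]
    have h2 := add_right_cancel h
    nth_rewrite 1 [h2]
    exact neg_add_cancel u
  have h2 := (smul_eq_zero.1 h1).resolve_left two_ne_zero
  rw [h2, zero_add]
  exact hv

/-! ### The form -/

section form

variable {ψ : RForm T.W X} (hψ : IsPolarisation T X ψ)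

/-- forms of different types -/
theorem B_orth' {p q r s : ℤ} {u v : CV T.W X}
    (hu : IsType T.pq p q (show HL T.W ℂ X from u))
    (hv : IsType T.pq r s (show HL T.W ℂ X from v)) (h : r ≠ q ∨ s ≠ p) :
    (polS hψ).B u v = 0 := hψ.orth p q r s u v hu hv h

/-- the form is antisymmetric in degree one -/
theorem B_anti {u v : CV T.W X} (hu : u ∈ gC T X 1) (hv : v ∈ gC T X 1) :
    (polS hψ).B u v = -(polS hψ).B v u := by
  haveI : FiniteDimensional ℂ (CV T.W X) := Module.Finite.of_basis (rb T.W X)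
  obtain ⟨n, e, w, he⟩ := exists_eigenbasis (polS hψ).diag
  -- opposite types
  have key : ∀ a b : CV T.W X, IsType T.pq 1 0 (show HL T.W ℂ X from a) →
      IsType T.pq 1 0 (show HL T.W ℂ X from b) →
      (polS hψ).B b (Pool.Agent.N179.DB.sl (rb T.W X) cc a) =
        -(polS hψ).B (Pool.Agent.N179.DB.sl (rb T.W X) cc a) b := by
    intro a b ha hb
    have h1 := sq_symm (polS hψ) he a b
    have ha1 : hop T X a = ((1 : ℤ) : ℂ) • a := by rw [hop_one ha]; norm_num
    have hb1 : hop T X b = ((1 : ℤ) : ℂ) • b := by rw [hop_one hb]; norm_num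
    rw [IF.sq, IF.sq, dg_eig he _ ha1, dg_eig he _ hb1, map_smul, map_smul, LinearMap.smul_apply,
      LinearMap.smul_apply, smul_eq_mul, smul_eq_mul, zpow_one, map_mul, Complex.conj_I] at h1
    have h2 : (starRingEnd ℂ) ((polS hψ).B a (Pool.Agent.N179.DB.sl (rb T.W X) cc b)) =
        (polS hψ).B (Pool.Agent.N179.DB.sl (rb T.W X) cc a) b := by
      have h3 := (polS hψ).rat cc a (Pool.Agent.N179.DB.sl (rb T.W X) cc b)
      rw [sl_cc] at h3
      exact h3.symm
    rw [h2] at h1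
    have h3 : Complex.I * ((polS hψ).B b (Pool.Agent.N179.DB.sl (rb T.W X) cc a) +
        (polS hψ).B (Pool.Agent.N179.DB.sl (rb T.W X) cc a) b) = 0 := by
      rw [mul_add, ← h1]
      ring
    exact eq_neg_of_add_eq_zero_left ((mul_eq_zero.1 h3).resolve_left Complex.I_ne_zero)
  have key2 : ∀ a b : CV T.W X, IsType T.pq 1 0 (show HL T.W ℂ X from a) →
      IsType T.pq 0 1 (show HL T.W ℂ X from b) →
      (polS hψ).B a b = -(polS hψ).B b a := by
    intro a b ha hb
    have h1 : IsType T.pq 1 0 (show HL T.W ℂ X from Pool.Agent.N179.DB.sl (rb T.W X) cc b) := by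
      rw [sl_sig]
      exact (isPHS hψ).cnj 0 1 b hb
    have h2 := key _ _ h1 ha
    rwa [sl_cc] at h2
  obtain ⟨u1, u2, hu1, hu2, rfl⟩ := split_one hψ hu
  obtain ⟨v1, v2, hv1, hv2, rfl⟩ := split_one hψ hv
  simp only [map_add, LinearMap.add_apply]
  rw [B_orth' hψ hu1 hv1 (Or.inl (by decide)), B_orth' hψ hu2 hv2 (Or.inl (by decide)),
    B_orth' hψ hv1 hu1 (Or.inl (by decide)), B_orth' hψ hv2 hu2 (Or.inl (by decide)),
    key2 u1 v2 hu1 hv2, key2 v1 u2 hv1 hu2]
  ring

/-- the form on `H^1` -/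
def om : ↥(gC T X 1) →ₗ[ℂ] ↥(gC T X 1) →ₗ[ℂ] ℂ :=
  (polS hψ).B.domRestrict₁₂ (gC T X 1) (gC T X 1)

theorem om_apply (u v : ↥(gC T X 1)) : om hψ u v = (polS hψ).B u v := rfl

theorem sy_om : Sy (om hψ) where
  alt v := by
    rw [om_apply]
    have h1 := B_anti hψ v.2 v.2
    exact self_eq_neg.1 h1
  nd u hu := by
    have h1 : ∀ v ∈ gC T X 1, (polS hψ).B u v = 0 := by
      intro v hv
      rw [B_anti hψ u.2 hv, neg_eq_zero]
      exact hu ⟨v, hv⟩
    refine Subtype.ext (B_nondeg (polS hψ) _ fun v => ?_)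
    refine hop_ind (P := fun v => (polS hψ).B u v = 0) ?_ ?_ ?_ v
    · intro r s v hv
      by_cases hrs : r + s = 1
      · exact h1 v (type_gr (by rw [hrs]; rfl) hv)
      · obtain ⟨u1, u2, hu1, hu2, h2⟩ := split_one hψ u.2
        rw [h2, map_add, LinearMap.add_apply, B_orth' hψ hu1 hv (by
          by_contra hcon
          push Not at hcon
          omega), B_orth' hψ hu2 hv (by
          by_contra hcon
          push Not at hcon
          omega), add_zero]
    · intro a b ha hb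
      rw [map_add, ha, hb, add_zero]
    · rw [map_zero]

theorem sk_LT {D : Ops fun X : 𝒱.Obj => CV T.W X} (hD : D ∈ LT T) {A : End ℂ ↥(gC T X 1)}
    (hA : ∀ v, (A v : CV T.W X) = D X v) : Sk (om hψ) A := by
  intro x y
  rw [om_apply, om_apply, hA, hA]
  exact skew_LL (polS hψ) hD _ _

/-- the restriction to `H^1` -/
def rs1 {D : Ops fun X : 𝒱.Obj => CV T.W X} (hD : D ∈ LT T) : End ℂ ↥(gC T X 1) :=
  (D X).restrict fun _ hx => LT_gC hψ hD hx

theorem rs1_apply {D : Ops fun X : 𝒱.Obj => CV T.W X} (hD : D ∈ LT T) (v : ↥(gC T X 1)) :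
    (rs1 hψ hD v : CV T.W X) = D X v := rfl

end form

/-- Every skew operator on `H^1` comes from the Lie algebra. -/
def MxC (T : HodgeTheory ops) (X : 𝒱.Obj) : Prop :=
  Algebra.adjoin T.W.K (T.W.gr X 1 : Set (T.W.H X)) = ⊤ ∧
    ∃ (ψ : RForm T.W X) (hψ : IsPolarisation T X ψ), ∀ A : End ℂ ↥(gC T X 1), Sk (om hψ) A →
      ∃ D ∈ LT T, ∀ v : ↥(gC T X 1), D X v = A v

/-- elements of the Lie algebra which vanish on `H^1` -/
theorem kill_gen (hg : Algebra.adjoin T.W.K (T.W.gr X 1 : Set (T.W.H X)) = ⊤)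
    {D : Ops fun X : 𝒱.Obj => CV T.W X} (hD : D ∈ LT T) (h0 : ∀ v ∈ gC T X 1, D X v = 0) :
    D X = 0 := by
  have h1 : ∀ x ∈ Algebra.adjoin T.W.K (T.W.gr X 1 : Set (T.W.H X)),
      D X ((1 : ℂ) ⊗ₜ[T.W.K] x) = 0 := by
    intro x hx
    induction hx using Algebra.adjoin_induction with
    | mem x hx => exact h0 _ (Submodule.tmul_mem_baseChange_of_mem (1 : ℂ) hx)
    | algebraMap r =>
      have h3 : ((1 : ℂ) ⊗ₜ[T.W.K] (algebraMap T.W.K (T.W.H X) r) : CV T.W X) =
          (algebraMap T.W.K ℂ r) • (1 : CV T.W X) := by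
        rw [Algebra.algebraMap_eq_smul_one, TensorProduct.tmul_smul,
          Algebra.TensorProduct.one_def, TensorProduct.smul_tmul', TensorProduct.smul_tmul',
          Algebra.smul_def, smul_eq_mul]
      have h2 : D X (1 : CV T.W X) = 0 := by
        have h4 := LT_mul hD X 1 1
        rw [mul_one, mul_one, one_mul] at h4
        exact left_eq_add.1 h4
      rw [h3, map_smul, h2, smul_zero]
    | add x y _ _ hx hy => rw [TensorProduct.tmul_add, map_add, hx, hy, add_zero]
    | mul x y _ _ hx hy =>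
      have h3 : ((1 : ℂ) ⊗ₜ[T.W.K] (x * y) : CV T.W X) =
          ((1 : ℂ) ⊗ₜ[T.W.K] x) * ((1 : ℂ) ⊗ₜ[T.W.K] y) := by
        rw [Algebra.TensorProduct.tmul_mul_tmul, one_mul]
      rw [h3, LT_mul hD, hx, hy, zero_mul, mul_zero, add_zero]
  refine LinearMap.ext fun z => ?_
  refine cv_ind (P := fun z => D X z = (0 : End ℂ (CV T.W X)) z) ?_ ?_ ?_ z
  · rw [map_zero, map_zero]
  · intro l x
    have h3 : (l ⊗ₜ[T.W.K] x : CV T.W X) = l • ((1 : ℂ) ⊗ₜ[T.W.K] x) := by
      rw [TensorProduct.smul_tmul', smul_eq_mul, mul_one]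
    rw [h3, map_smul, h1 x (by rw [hg]; trivial), smul_zero]
    rfl
  · intro x y hx hy
    rw [map_add, map_add, hx, hy]

end

end Pool.Agent.L5helper28.IG
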