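import Pool.Agent.L5helper28.IG.Max
import Pool.Agent.W529.Ta.Darboux

/-!
# Varieties with maximal Hodge group: invariants and independence
-/

set_option autoImplicit false
set_option linter.unusedSectionVars false

open CategoryTheory AlgebraicGeometry TensorProduct Matrix

universe u

namespace Pool.Agent.L5helper28.IG

open Module
open Pool.Agent.H914 Pool.Agent.H914.VarClass Pool.Agent.H914.VarClass.Obj
  Pool.Agent.H914.WeilCohomology
open Pool.Agent.Y121 Pool.Agent.Y121.AHS Pool.Agent.N996 Pool.Agent.N996.FP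
open Pool.Agent.L5helper28.IF
open Pool.Agent.H204R3.SP (JJ)

noncomputable section

/-! ### Matrices -/

section mat

variable {R : Type} [Fintype R] [DecidableEq R] {inv : R → R} {jj : R → ℂ}

/-- the matrix of the form -/
def Jm (inv : R → R) (jj : R → ℂ) : Matrix R R ℂ := Matrix.of (JJ inv jj)

/-- the symplectic Lie algebra -/
def spS (inv : R → R) (jj : R → ℂ) : Set (Matrix R R ℂ) :=
  {g | gᵀ * Jm inv jj + Jm inv jj * g = 0}

variable (hinv : ∀ x, inv (inv x) = x) (hjj : ∀ x, jj (inv x) = -jj x)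
  (hj1 : ∀ x, jj x = 1 ∨ jj x = -1)
include hinv hjj hj1

theorem Jm_sq : Jm inv jj * Jm inv jj = -1 := by
  ext x y
  rw [Matrix.mul_apply, Matrix.neg_apply, Matrix.one_apply]
  simp only [Jm, Matrix.of_apply, JJ]
  rw [Finset.sum_eq_single (inv x)]
  · rw [if_pos rfl, hinv, hjj]
    by_cases h : x = y
    · rw [if_pos h.symm, if_pos h]
      rcases hj1 x with h1 | h1 <;> rw [h1] <;> norm_num
    · rw [if_neg (Ne.symm h), if_neg h]
      simp
  · intro z _ hz
    rw [if_neg hz, zero_mul]
  · intro h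
    exact absurd (Finset.mem_univ _) h

theorem Jm_tr : (Jm inv jj)ᵀ = -Jm inv jj := by
  ext x y
  rw [Matrix.transpose_apply, Matrix.neg_apply]
  simp only [Jm, Matrix.of_apply, JJ]
  by_cases h : y = inv x
  · rw [if_pos h, if_pos (by rw [h, hinv]), h, hjj]
  · rw [if_neg h, if_neg (fun h' => h (by rw [h', hinv])), neg_zero]

theorem Jm_star : (Jm inv jj).map (starRingEnd ℂ) = Jm inv jj := by
  ext x y
  rw [Matrix.map_apply]
  simp only [Jm, Matrix.of_apply, JJ]
  split_ifs
  · rcases hj1 x with h1 | h1 <;> rw [h1] <;> simp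
  · simp

theorem spS_iff {g : Matrix R R ℂ} : g ∈ spS inv jj ↔
    g * Jm inv jj + Jm inv jj * gᵀ = 0 := by
  have h1 := Jm_sq hinv hjj hj1
  set J := Jm inv jj
  constructor
  · intro h
    have h2 : gᵀ * J + J * g = 0 := h
    have h3 : J * (gᵀ * J + J * g) * J = 0 := by rw [h2, mul_zero, zero_mul]
    have h4 : J * (gᵀ * J + J * g) * J = J * gᵀ * (J * J) + (J * J) * g * J := by
      noncomm_ring
    rw [h4, h1] at h3
    have h5 : J * gᵀ * -1 + -1 * g * J = -(g * J + J * gᵀ) := by noncomm_ring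
    rw [h5] at h3
    exact neg_eq_zero.1 h3
  · intro h2
    change gᵀ * J + J * g = 0
    have h3 : J * (g * J + J * gᵀ) * J = 0 := by rw [h2, mul_zero, zero_mul]
    have h4 : J * (g * J + J * gᵀ) * J = J * g * (J * J) + (J * J) * gᵀ * J := by
      noncomm_ring
    rw [h4, h1] at h3
    have h5 : J * g * -1 + -1 * gᵀ * J = -(gᵀ * J + J * g) := by noncomm_ring
    rw [h5] at h3
    exact neg_eq_zero.1 h3

theorem spS_star {g : Matrix R R ℂ} (hg : g ∈ spS inv jj) : gᴴ ∈ spS inv jj := by
  have h1 := (spS_iff hinv hjj hj1).1 hg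
  have h2 : (g * Jm inv jj + Jm inv jj * gᵀ).map (starRingEnd ℂ) =
      (0 : Matrix R R ℂ).map (starRingEnd ℂ) :=
    congrArg (fun M : Matrix R R ℂ => M.map (starRingEnd ℂ)) h1
  have h3 : (g * Jm inv jj + Jm inv jj * gᵀ).map (starRingEnd ℂ) =
      (gᴴ)ᵀ * Jm inv jj + Jm inv jj * gᴴ := by
    rw [Matrix.map_add _ (map_add _), Matrix.map_mul, Matrix.map_mul, Jm_star hinv hjj hj1]
    rfl
  rw [h3] at h2
  change (gᴴ)ᵀ * Jm inv jj + Jm inv jj * gᴴ = 0
  rw [h2]
  ext x y
  simp

theorem spS_fft : FFT (spS inv jj) := by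
  have h1 := Jm_sq hinv hjj hj1
  have h2 := Jm_tr hinv hjj hj1
  refine fft_sp hinv hjj (fun x => by rcases hj1 x with h | h <;> rw [h] <;> norm_num) ?_ ?_
  · intro b c
    rw [spS_iff hinv hjj hj1]
    ext x y
    rw [Matrix.add_apply, Matrix.mul_apply, Matrix.mul_apply, Matrix.zero_apply]
    have h3 : ∀ b x, ∑ z, Jm inv jj b z * Jm inv jj z x = if b = x then -1 else 0 := by
      intro b x
      have h4 := congrFun (congrFun h1 b) x
      rw [Matrix.mul_apply, Matrix.neg_apply, Matrix.one_apply] at h4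
      rw [h4]
      split_ifs <;> simp
    have h4 : ∀ z, spg inv jj b c x z * Jm inv jj z y =
        spg inv jj b c x z * Jm inv jj z y := fun _ => rfl
    rw [spg_sum b c x (fun z => Jm inv jj z y)]
    have h5 : ∑ z, Jm inv jj x z * (spg inv jj b c)ᵀ z y =
        ∑ z, spg inv jj b c y z * Jm inv jj x z := by
      refine Finset.sum_congr rfl fun z _ => ?_
      rw [Matrix.transpose_apply, mul_comm]
    rw [h5, spg_sum b c y (fun z => Jm inv jj x z)]
    have h6 : ∀ a b, Jm inv jj a b = -Jm inv jj b a := by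
      intro a b
      have h7 := congrFun (congrFun h2 b) a
      rwa [Matrix.transpose_apply, Matrix.neg_apply] at h7
    have h7 : ∀ a b, JJ inv jj a b = Jm inv jj a b := fun _ _ => rfl
    rw [h7, h7, h7, h7, h6 x c, h6 x b]
    ring
  · intro g hg x y
    have h3 := congrFun (congrFun ((spS_iff hinv hjj hj1).1 hg) x) y
    rw [Matrix.add_apply, Matrix.mul_apply, Matrix.mul_apply, Matrix.zero_apply] at h3
    rw [← h3]
    congr 1
    refine Finset.sum_congr rfl fun z _ => ?_
    rw [Matrix.transpose_apply, mul_comm]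
    rfl

end mat

variable {k : Type u} [Field k] {𝒱 : VarClass k} {ops : CycleOps 𝒱} {T : HodgeTheory ops}
  {X Y P : 𝒱.Obj}

set_option maxHeartbeats 400000

/-- **Varieties with maximal Hodge group.** -/
theorem good_max (h : MxC T X) : Good T X := by
  obtain ⟨hg, ψ, hψ, hmx⟩ := h
  haveI : FiniteDimensional ℂ (CV T.W X) := Module.Finite.of_basis (rb T.W X)
  have hsy := sy_om hψ
  obtain ⟨R, i1, i2, e, inv, jj, hinv, hne, hjj, hj1, hω⟩ :=
    Pool.Agent.W529.Ta.exists_darboux (finrank ℂ ↥(gC T X 1)) ↥(gC T X 1) (om hψ) hsy.alt hsy.nd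
      le_rfl
  have hω' : ∀ x y, om hψ (e x) (e y) = Jm inv jj x y := hω
  refine ⟨R, i1, i2, fun x => (e x : CV T.W X), spS inv jj, fun x => (e x).2, ?_,
    fun g hg => spS_star hinv hjj hj1 hg, spS_fft hinv hjj hj1, ?_, ?_⟩
  · refine gen_C hg fun z hz => ?_
    have h1 := e.sum_repr ⟨z, hz⟩
    have h2 := congrArg Subtype.val h1
    rw [Submodule.coe_sum] at h2
    change _ = z at h2
    rw [← h2]
    exact sum_mem fun x _ => Submodule.smul_mem _ _ (Submodule.subset_span ⟨x, rfl⟩)
  · intro g hg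
    let A : End ℂ ↥(gC T X 1) := e.constr ℂ fun y => ∑ x, g x y • e x
    have hA : ∀ y, A (e y) = ∑ x, g x y • e x := fun y => e.constr_basis ℂ _ y
    have hsk : Sk (om hψ) A := by
      have h1 : (om hψ).comp A = -((om hψ).compl₂ A) := by
        refine e.ext fun x => e.ext fun y => ?_
        rw [LinearMap.comp_apply, LinearMap.neg_apply, LinearMap.neg_apply,
          LinearMap.compl₂_apply, hA, hA, map_sum, map_sum, LinearMap.sum_apply]
        have h2 : gᵀ * Jm inv jj + Jm inv jj * g = 0 := hg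
        have h3 := congrFun (congrFun h2 x) y
        rw [Matrix.add_apply, Matrix.mul_apply, Matrix.mul_apply, Matrix.zero_apply] at h3
        have h4 : ∑ z, (om hψ (g z x • e z)) (e y) = ∑ z, gᵀ x z * Jm inv jj z y := by
          refine Finset.sum_congr rfl fun z _ => ?_
          rw [map_smul, LinearMap.smul_apply, hω', smul_eq_mul, Matrix.transpose_apply]
        have h5 : ∑ z, (om hψ (e x)) (g z y • e z) = ∑ z, Jm inv jj x z * g z y := by
          refine Finset.sum_congr rfl fun z _ => ?_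
          rw [map_smul, hω', smul_eq_mul, mul_comm]
        rw [h4, h5]
        exact eq_neg_of_add_eq_zero_left h3
      intro x y
      exact LinearMap.congr_fun (LinearMap.congr_fun h1 x) y
    obtain ⟨D, hD, h1⟩ := hmx A hsk
    refine ⟨D, hD, fun y => ?_⟩
    rw [h1, hA, Submodule.coe_sum]
    rfl
  · intro D hD
    let A := rs1 hψ hD
    have hA : ∀ y, A (e y) = ∑ x, e.repr (A (e y)) x • e x := fun y => (e.sum_repr _).symm
    refine ⟨Matrix.of fun x y => e.repr (A (e y)) x, ?_, fun y => ?_⟩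
    · change _ = _
      ext x y
      rw [Matrix.add_apply, Matrix.mul_apply, Matrix.mul_apply, Matrix.zero_apply]
      have h1 : Sk (om hψ) A := sk_LT hψ hD fun v => rs1_apply hψ hD v
      have h2 := h1 (e x) (e y)
      rw [hA x, hA y, map_sum, map_sum, LinearMap.sum_apply] at h2
      have h4 : ∑ z, (om hψ (e.repr (A (e x)) z • e z)) (e y) =
          ∑ z, (Matrix.of fun x y => e.repr (A (e y)) x)ᵀ x z * Jm inv jj z y := by
        refine Finset.sum_congr rfl fun z _ => ?_
        rw [map_smul, LinearMap.smul_apply, hω', smul_eq_mul, Matrix.transpose_apply,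
          Matrix.of_apply]
      have h5 : ∑ z, (om hψ (e x)) (e.repr (A (e y)) z • e z) =
          ∑ z, Jm inv jj x z * (Matrix.of fun x y => e.repr (A (e y)) x) z y := by
        refine Finset.sum_congr rfl fun z _ => ?_
        rw [map_smul, hω', smul_eq_mul, mul_comm, Matrix.of_apply]
      rw [h4, h5] at h2
      rw [h2, neg_add_cancel]
    · have h1 := congrArg Subtype.val (hA y)
      rw [Submodule.coe_sum] at h1
      exact h1

end

end Pool.Agent.L5helper28.IG
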