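import Pool.Agent.L5helper28.IG.Max2
import Pool.Agent.L5helper28.CA.Pair

/-!
# Varieties with maximal Hodge group: independence
-/

set_option autoImplicit false
set_option linter.unusedSectionVars false

open CategoryTheory AlgebraicGeometry TensorProduct Matrix

universe u

namespace Pool.Agent.L5helper28.IG

open Module
open Pool.Agent.H914 Pool.Agent.H914.VarClass Pool.Agent.H914.VarClass.Obj
  Pool.Agent.H914.WeilCohomology
open Pool.Agent.Y121 Pool.Agent.Y121.AHS Pool.Agent.N996 Pool.Agent.N996.FP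
open Pool.Agent.L5helper28.IF

noncomputable section

variable {k : Type u} [Field k] {𝒱 : VarClass k} {ops : CycleOps 𝒱} {T : HodgeTheory ops}
  {X Y P : 𝒱.Obj}

set_option maxHeartbeats 400000

/-- The combinations of commutators. -/
def Brs (T : HodgeTheory ops) (X : 𝒱.Obj) : Submodule ℂ (Module.End ℂ (CV T.W X)) :=
  Submodule.span ℂ {w : Module.End ℂ (CV T.W X) | ∃ A ∈ LT T, ∃ B ∈ LT T,
      w = A X * B X - B X * A X}

/-- **The Lie algebra is perfect.** -/
theorem perf_max (h : MxC T X) {D : Ops fun X : 𝒱.Obj => CV T.W X} (hD : D ∈ LT T) :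
    D X ∈ Brs T X := by
  obtain ⟨hg, ψ, hψ, hmx⟩ := h
  haveI : FiniteDimensional ℂ (CV T.W X) := Module.Finite.of_basis (rb T.W X)
  have hsy := sy_om hψ
  let I : Submodule ℂ (End ℂ ↥(gC T X 1)) :=
    { carrier := {A | ∃ E ∈ LT T, (∀ v : ↥(gC T X 1), E X v = A v) ∧ E X ∈ Brs T X}
      zero_mem' := ⟨0, zero_mem _, fun v => rfl, zero_mem _⟩
      add_mem' := by
        rintro A B ⟨E, hE, h1, h2⟩ ⟨E', hE', h3, h4⟩
        refine ⟨E + E', add_mem hE hE', fun v => ?_, add_mem h2 h4⟩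
        change E X v + E' X v = A v + B v
        rw [h1, h3]
      smul_mem' := by
        rintro c A ⟨E, hE, h1, h2⟩
        refine ⟨c • E, Submodule.smul_mem _ _ hE, fun v => ?_, Submodule.smul_mem _ _ h2⟩
        change c • E X v = c • (A v : CV T.W X)
        rw [h1] }
  have h1 : rs1 hψ hD ∈ I := by
    refine hsy.sk_mem (fun u v => ?_) (sk_LT hψ hD fun v => rs1_apply hψ hD v)
    by_cases hu : u = 0
    · subst hu
      have h2 : S2 (om hψ) 0 v = 0 := by
        refine LinearMap.ext fun z => ?_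
        rw [S2_apply, map_zero, LinearMap.zero_apply, zero_smul, smul_zero, add_zero,
          LinearMap.zero_apply]
      rw [h2]
      exact zero_mem _
    · obtain ⟨A, hA, hAu⟩ := hsy.exists_to hu v
      obtain ⟨D1, hD1, h2⟩ := hmx A hA
      obtain ⟨D2, hD2, h3⟩ := hmx _ (hsy.sk_rk u)
      refine ⟨D1 * D2 - D2 * D1, LL_br hD1 hD2, fun z => ?_,
        Submodule.subset_span ⟨D1, hD1, D2, hD2, rfl⟩⟩
      rw [← hAu, ← hsy.br_rk hA]
      change D1 X (D2 X z) - D2 X (D1 X z) = A (rk (om hψ) u u z) - rk (om hψ) u u (A z)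
      rw [h3, h2, h2, h3]
  obtain ⟨E, hE, h2, h3⟩ := h1
  have h4 := kill_gen hg (sub_mem hE hD) (fun v hv => by
    change E X v - D X v = 0
    rw [h2 ⟨v, hv⟩, rs1_apply, sub_self])
  have h5 : E X = D X := sub_eq_zero.1 h4
  rwa [h5] at h3

/-! ### Equivariant maps -/

/-- the conjugate of a linear map between the cohomology spaces -/
def cjh (τ : ℂ ≃+* ℂ) (g : CV T.W X →ₗ[ℂ] CV T.W Y) : CV T.W X →ₗ[ℂ] CV T.W Y where
  toFun x := Pool.Agent.N179.DB.sl (rb T.W Y) τ
    (g (Pool.Agent.N179.DB.sl (rb T.W X) τ.symm x))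
  map_add' x y := by rw [map_add, map_add, map_add]
  map_smul' c x := by
    rw [Pool.Agent.N179.DB.sl_smul, map_smul, Pool.Agent.N179.DB.sl_smul, RingHom.id_apply,
      RingEquiv.apply_symm_apply]

/-- the coordinates -/
def crd (T : HodgeTheory ops) (X Y : 𝒱.Obj) :
    (CV T.W X →ₗ[ℂ] CV T.W Y) →ₗ[ℂ] (Bi T.W Y × Bi T.W X → ℂ) where
  toFun g t := (rb T.W Y).repr (g (rb T.W X t.2)) t.1
  map_add' g g' := by
    funext t
    rw [Pi.add_apply, LinearMap.add_apply, map_add]
    rfl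
  map_smul' c g := by
    funext t
    rw [Pi.smul_apply, LinearMap.smul_apply, map_smul]
    rfl

theorem crd_inj {g g' : CV T.W X →ₗ[ℂ] CV T.W Y} (h : crd T X Y g = crd T X Y g') : g = g' := by
  refine (rb T.W X).ext fun j => ?_
  refine (rb T.W Y).repr.injective (Finsupp.ext fun i => ?_)
  exact congrFun h (i, j)

theorem crd_cjh (τ : ℂ ≃+* ℂ) (g : CV T.W X →ₗ[ℂ] CV T.W Y) (t : Bi T.W Y × Bi T.W X) :
    crd T X Y (cjh τ g) t = τ (crd T X Y g t) := by
  change (rb T.W Y).repr (Pool.Agent.N179.DB.sl (rb T.W Y) τ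
    (g (Pool.Agent.N179.DB.sl (rb T.W X) τ.symm (rb T.W X t.2)))) t.1 = _
  rw [Pool.Agent.N179.DB.sl_basis, Pool.Agent.N179.DB.repr_sl]
  rfl

theorem crd_rat (f : T.W.H X →ₗ[T.W.K] T.W.H Y) (t : Bi T.W Y × Bi T.W X) :
    crd T X Y (f.baseChange ℂ) t = algebraMap T.W.K ℂ
      ((Module.finBasis T.W.K (T.W.H Y)).repr (f (Module.finBasis T.W.K (T.W.H X) t.2)) t.1) := by
  change (rb T.W Y).repr (f.baseChange ℂ (rb T.W X t.2)) t.1 = _
  rw [rb_apply, LinearMap.baseChange_tmul, repr_rb, mul_one]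

/-- a map with rational coordinates -/
theorem exists_ratmap {g : CV T.W X →ₗ[ℂ] CV T.W Y}
    (h : ∀ t, crd T X Y g t ∈ (algebraMap T.W.K ℂ).fieldRange) :
    ∃ f : T.W.H X →ₗ[T.W.K] T.W.H Y, g = f.baseChange ℂ := by
  classical
  choose r hr using h
  refine ⟨Matrix.toLin (Module.finBasis T.W.K (T.W.H X)) (Module.finBasis T.W.K (T.W.H Y))
    (fun i j => r (i, j)), crd_inj ?_⟩
  funext t
  rw [crd_rat, Matrix.toLin_self, map_sum, Finsupp.finset_sum_apply, Finset.sum_eq_single t.1]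
  · rw [map_smul, Finsupp.smul_apply, Basis.repr_self, Finsupp.single_eq_same, smul_eq_mul,
      mul_one]
    exact (hr t).symm
  · intro l _ hl
    rw [map_smul, Finsupp.smul_apply, Basis.repr_self, Finsupp.single_eq_of_ne, smul_zero]
    first
      | exact hl
      | exact Ne.symm hl
  · intro h
    exact absurd (Finset.mem_univ _) h

/-- the equivariant maps are combinations of rational equivariant maps -/
theorem equi_rat {g : CV T.W X →ₗ[ℂ] CV T.W Y}
    (hg : ∀ D ∈ LT T, ∀ x, g (D X x) = D Y (g x)) :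
    g ∈ Submodule.span ℂ {g' | ∃ f : T.W.H X →ₗ[T.W.K] T.W.H Y, g' = f.baseChange ℂ ∧
      ∀ x, f.baseChange ℂ (hop T X x) = hop T Y (f.baseChange ℂ x)} := by
  classical
  let N : Submodule ℂ (CV T.W X →ₗ[ℂ] CV T.W Y) :=
    { carrier := {g | ∀ D ∈ LT T, ∀ x, g (D X x) = D Y (g x)}
      zero_mem' := fun D _ x => by rw [LinearMap.zero_apply, LinearMap.zero_apply, map_zero]
      add_mem' := fun ha hb D hD x => by
        rw [LinearMap.add_apply, LinearMap.add_apply, map_add, ha D hD, hb D hD]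
      smul_mem' := fun c x hx D hD y => by
        rw [LinearMap.smul_apply, LinearMap.smul_apply, map_smul, hx D hD] }
  have h1 := Pool.Agent.TH119.MX.defOver_of_aut (F := (algebraMap T.W.K ℂ).fieldRange)
    (N.map (crd T X Y)) (by
      rintro τ - _ ⟨g, hg, rfl⟩
      refine ⟨cjh τ g, fun D hD x => ?_, ?_⟩
      · have h2 := hg _ (cjg_mem (fun X => rb T.W X) (fun X => hop T X) τ⁻¹ hD)
          (Pool.Agent.N179.DB.sl (rb T.W X) τ.symm x)
        have e1 : ∀ (Z : 𝒱.Obj) (z : CV T.W Z), cjg (rb T.W Z) τ⁻¹ (D Z)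
            (Pool.Agent.N179.DB.sl (rb T.W Z) τ.symm z) =
            Pool.Agent.N179.DB.sl (rb T.W Z) τ.symm (D Z z) := by
          intro Z z
          rw [cjg_apply]
          change Pool.Agent.N179.DB.sl (rb T.W Z) τ.symm (D Z
            (Pool.Agent.N179.DB.sl (rb T.W Z) τ (Pool.Agent.N179.DB.sl (rb T.W Z) τ.symm z))) = _
          rw [Pool.Agent.N179.DB.sl_symm']
        rw [e1] at h2
        change Pool.Agent.N179.DB.sl (rb T.W Y) τ
          (g (Pool.Agent.N179.DB.sl (rb T.W X) τ.symm (D X x))) =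
          D Y (Pool.Agent.N179.DB.sl (rb T.W Y) τ
            (g (Pool.Agent.N179.DB.sl (rb T.W X) τ.symm x)))
        rw [h2]
        have e2 : g (Pool.Agent.N179.DB.sl (rb T.W X) τ.symm x) =
            Pool.Agent.N179.DB.sl (rb T.W Y) τ.symm (Pool.Agent.N179.DB.sl (rb T.W Y) τ
              (g (Pool.Agent.N179.DB.sl (rb T.W X) τ.symm x))) :=
          (Pool.Agent.N179.DB.sl_symm (rb T.W Y) τ _).symm
        rw [e2, e1, Pool.Agent.N179.DB.sl_symm', ← e2]
      · funext t
        exact crd_cjh τ g t)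
  have h2 : crd T X Y g ∈ N.map (crd T X Y) := ⟨g, hg, rfl⟩
  have h3 := h1 h2
  have h4 : Submodule.span ℂ {v : Bi T.W Y × Bi T.W X → ℂ | v ∈ N.map (crd T X Y) ∧
      ∀ t, v t ∈ (algebraMap T.W.K ℂ).fieldRange} ≤ (Submodule.span ℂ {g' |
        ∃ f : T.W.H X →ₗ[T.W.K] T.W.H Y, g' = f.baseChange ℂ ∧
      ∀ x, f.baseChange ℂ (hop T X x) = hop T Y (f.baseChange ℂ x)}).map (crd T X Y) := by
    refine Submodule.span_le.2 ?_
    rintro v ⟨⟨g, hg, rfl⟩, hv⟩
    obtain ⟨f, rfl⟩ := exists_ratmap hv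
    exact ⟨_, Submodule.subset_span ⟨f, rfl, fun x => hg _ H_mem x⟩, rfl⟩
  obtain ⟨g', hg', h5⟩ := h4 h3
  rwa [crd_inj h5] at hg'

/-- a rational map which commutes with the Hodge operators gives a morphism on `H^1` -/
theorem kill_morphism {ψ : RForm T.W X} (hψ : IsPolarisation T X ψ) {φ : RForm T.W Y}
    (hφ : IsPolarisation T Y φ) (hno : NoMorphism T X Y) {f : T.W.H X →ₗ[T.W.K] T.W.H Y}
    (hf : ∀ x, f.baseChange ℂ (hop T X x) = hop T Y (f.baseChange ℂ x)) {x : CV T.W X}
    (hx : x ∈ gC T X 1) : (q1 T Y).baseChange ℂ (f.baseChange ℂ x) = 0 := by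
  let f1 : T.W.H X →ₗ[T.W.K] T.W.H Y := q1 T Y ∘ₗ f ∘ₗ q1 T X
  have hf1 : ∀ x : CV T.W X, f1.baseChange ℂ x = (q1 T Y).baseChange ℂ (f.baseChange ℂ
      ((q1 T X).baseChange ℂ x)) := by
    intro x
    have h1 : f1.baseChange ℂ = (q1 T Y).baseChange ℂ ∘ₗ f.baseChange ℂ ∘ₗ
        (q1 T X).baseChange ℂ := by
      rw [← LinearMap.baseChange_comp, ← LinearMap.baseChange_comp]
    rw [h1]
    rfl
  have hq : ∀ (Z : 𝒱.Obj) {χ : RForm T.W Z}, IsPolarisation T Z χ → ∀ z : CV T.W Z,
      hop T Z ((q1 T Z).baseChange ℂ z) = (q1 T Z).baseChange ℂ (hop T Z z) := fun Z χ hχ z =>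
    LT_q1' hχ (D := fun X => hop T X) H_mem z
  have htype : ∀ (p q : ℤ) (x : HL T.W ℂ X), IsType T.pq p q x →
      IsType T.pq p q (extMap T.W.K ℂ f1 x) := by
    intro p q x hx
    change IsType T.pq p q (show HL T.W ℂ Y from f1.baseChange ℂ (show CV T.W X from x))
    by_cases hx0 : x = 0
    · have h1 : f1.baseChange ℂ (show CV T.W X from x) = 0 := by
        rw [hx0]
        exact map_zero (f1.baseChange ℂ)
      rw [h1]
      exact zero_mem (T.pq Y p q)
    · obtain ⟨h1, h2, h3, h4⟩ := hψ.range p q x hx hx0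
      obtain ⟨i, hi⟩ : ∃ i : ℕ, p + q = (i : ℤ) := ⟨(p + q).toNat, by omega⟩
      rw [hf1]
      by_cases h5 : i = 1
      · subst h5
        have hx1 := type_gr hi hx
        rw [q1_same hx1]
        have h6 : hop T Y ((q1 T Y).baseChange ℂ (f.baseChange ℂ (show CV T.W X from x))) =
            ((p - q : ℤ) : ℂ) • (q1 T Y).baseChange ℂ (f.baseChange ℂ (show CV T.W X from x)) := by
          rw [hq Y hφ, ← hf, hop_pq hx, map_smul, map_smul]
        have h7 : (p = 1 ∧ q = 0) ∨ (p = 0 ∧ q = 1) := by omega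
        rcases h7 with ⟨rfl, rfl⟩ | ⟨rfl, rfl⟩
        · refine type_one hφ (q1_mem _) ?_
          rw [h6]
          norm_num
        · refine type_two hφ (q1_mem _) ?_
          rw [h6]
          norm_num
      · rw [q1_ne h5 (type_gr hi hx), map_zero, map_zero]
        exact zero_mem (T.pq Y p q)
  have h1 := hno f1 htype
  have h2 : ∀ x ∈ gC T X 1, f1.baseChange ℂ x = 0 := by
    intro x hx
    rw [gC, Submodule.baseChange_eq_span] at hx
    induction hx using Submodule.span_induction with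
    | mem x hx =>
      obtain ⟨c, hc, rfl⟩ := hx
      rw [TensorProduct.mk_apply, LinearMap.baseChange_tmul, h1 c hc, TensorProduct.tmul_zero]
    | zero => rw [map_zero]
    | add x y _ _ hx hy => rw [map_add, hx, hy, add_zero]
    | smul c x _ hx => rw [map_smul, hx, smul_zero]
  have h3 := h2 x hx
  rwa [hf1, q1_same hx] at h3

/-- there is no equivariant map -/
theorem no_equi {ψ : RForm T.W X} (hψ : IsPolarisation T X ψ) {φ : RForm T.W Y}
    (hφ : IsPolarisation T Y φ) (hno : NoMorphism T X Y) {g : CV T.W X →ₗ[ℂ] CV T.W Y}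
    (hg : ∀ D ∈ LT T, ∀ x, g (D X x) = D Y (g x)) {x : CV T.W X} (hx : x ∈ gC T X 1) :
    (q1 T Y).baseChange ℂ (g x) = 0 := by
  have h1 := equi_rat hg
  clear hg
  induction h1 using Submodule.span_induction with
  | mem g hg =>
    obtain ⟨f, rfl, hf⟩ := hg
    exact kill_morphism hψ hφ hno hf hx
  | zero => rw [LinearMap.zero_apply, map_zero]
  | add a b _ _ ha hb => rw [LinearMap.add_apply, map_add, ha, hb, add_zero]
  | smul c a _ ha => rw [LinearMap.smul_apply, map_smul, ha, smul_zero]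

/-- **Pairs.** -/
theorem pair_max (hX : MxC T X) (hY : MxC T Y) (hno : NoMorphism T X Y)
    {D : Ops fun X : 𝒱.Obj => CV T.W X} (hD : D ∈ LT T) :
    ∃ D' ∈ LT T, D' Y = 0 ∧ D' X = D X := by
  obtain ⟨hgX, ψ, hψ, hmX⟩ := hX
  obtain ⟨hgY, φ, hφ, hmY⟩ := hY
  haveI : FiniteDimensional ℂ (CV T.W X) := Module.Finite.of_basis (rb T.W X)
  haveI : FiniteDimensional ℂ (CV T.W Y) := Module.Finite.of_basis (rb T.W Y)
  have hsX := sy_om hψ
  have hsY := sy_om hφ
  -- the ideals
  let I : Submodule ℂ (End ℂ ↥(gC T X 1)) :=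
    { carrier := {A | ∃ E ∈ LT T, (∀ v : ↥(gC T X 1), E X v = A v) ∧ E Y = 0}
      zero_mem' := ⟨0, zero_mem _, fun v => rfl, rfl⟩
      add_mem' := by
        rintro A B ⟨E, hE, h1, h2⟩ ⟨E', hE', h3, h4⟩
        refine ⟨E + E', add_mem hE hE', fun v => ?_, ?_⟩
        · change E X v + E' X v = A v + B v
          rw [h1, h3]
        · rw [Pi.add_apply, h2, h4, add_zero]
      smul_mem' := by
        rintro c A ⟨E, hE, h1, h2⟩
        refine ⟨c • E, Submodule.smul_mem _ _ hE, fun v => ?_, ?_⟩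
        · change c • E X v = c • (A v : CV T.W X)
          rw [h1]
        · rw [Pi.smul_apply, h2, smul_zero] }
  let J : Submodule ℂ (End ℂ ↥(gC T Y 1)) :=
    { carrier := {A | ∃ E ∈ LT T, (∀ v : ↥(gC T Y 1), E Y v = A v) ∧ E X = 0}
      zero_mem' := ⟨0, zero_mem _, fun v => rfl, rfl⟩
      add_mem' := by
        rintro A B ⟨E, hE, h1, h2⟩ ⟨E', hE', h3, h4⟩
        refine ⟨E + E', add_mem hE hE', fun v => ?_, ?_⟩
        · change E Y v + E' Y v = A v + B v
          rw [h1, h3]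
        · rw [Pi.add_apply, h2, h4, add_zero]
      smul_mem' := by
        rintro c A ⟨E, hE, h1, h2⟩
        refine ⟨c • E, Submodule.smul_mem _ _ hE, fun v => ?_, ?_⟩
        · change c • E Y v = c • (A v : CV T.W Y)
          rw [h1]
        · rw [Pi.smul_apply, h2, smul_zero] }
  have hbrI : ∀ A, Sk (om hψ) A → ∀ x ∈ I, A * x - x * A ∈ I := by
    rintro A hA B ⟨E, hE, h1, h2⟩
    obtain ⟨F, hF, h3⟩ := hmX A hA
    refine ⟨F * E - E * F, LL_br hF hE, fun v => ?_, ?_⟩
    · change F X (E X v) - E X (F X v) = A (B v) - B (A v)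
      rw [h1, h3, h3, h1]
    · change F Y * E Y - E Y * F Y = 0
      rw [h2, mul_zero, zero_mul, sub_zero]
  have hbrJ : ∀ A, Sk (om hφ) A → ∀ x ∈ J, A * x - x * A ∈ J := by
    rintro A hA B ⟨E, hE, h1, h2⟩
    obtain ⟨F, hF, h3⟩ := hmY A hA
    refine ⟨F * E - E * F, LL_br hF hE, fun v => ?_, ?_⟩
    · change F Y (E Y v) - E Y (F Y v) = A (B v) - B (A v)
      rw [h1, h3, h3, h1]
    · change F X * E X - E X * F X = 0
      rw [h2, mul_zero, zero_mul, sub_zero]
  have hskI : ∀ x ∈ I, Sk (om hψ) x := by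
    rintro A ⟨E, hE, h1, -⟩
    exact sk_LT hψ hE fun v => (h1 v).symm
  have hskJ : ∀ x ∈ J, Sk (om hφ) x := by
    rintro A ⟨E, hE, h1, -⟩
    exact sk_LT hφ hE fun v => (h1 v).symm
  have hDX : ∀ E ∈ LT T, (∀ v ∈ gC T X 1, E X v = 0) → E X = 0 := fun E hE h => kill_gen hgX hE h
  have hDY : ∀ E ∈ LT T, (∀ v ∈ gC T Y 1, E Y v = 0) → E Y = 0 := fun E hE h => kill_gen hgY hE h
  by_cases hI : I = ⊥
  · -- the operator on `X` is determined by the operator on `Y`
    have h1 : ∀ E ∈ LT T, E Y = 0 → E X = 0 := by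
      intro E hE h0
      have h2 : rs1 hψ hE ∈ I := ⟨E, hE, fun v => rfl, h0⟩
      rw [hI] at h2
      have h3 := (Submodule.mem_bot ℂ).1 h2
      refine hDX E hE fun v hv => ?_
      have h4 := LinearMap.congr_fun h3 ⟨v, hv⟩
      exact congrArg Subtype.val h4
    suffices hs : D X = 0 from ⟨0, zero_mem _, rfl, hs.symm⟩
    by_cases hJ : J = ⊥
    · have h2 : ∀ E ∈ LT T, E X = 0 → E Y = 0 := by
        intro E hE h0
        have h2 : rs1 hφ hE ∈ J := ⟨E, hE, fun v => rfl, h0⟩
        rw [hJ] at h2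
        have h3 := (Submodule.mem_bot ℂ).1 h2
        refine hDY E hE fun v hv => ?_
        have h4 := LinearMap.congr_fun h3 ⟨v, hv⟩
        exact congrArg Subtype.val h4
      by_cases hV : ∃ v : ↥(gC T X 1), v ≠ 0
      · exfalso
        let L : Submodule ℂ (End ℂ ↥(gC T X 1) × End ℂ ↥(gC T Y 1)) :=
          { carrier := {p | ∃ E ∈ LT T, (∀ v : ↥(gC T X 1), E X v = p.1 v) ∧
              ∀ v : ↥(gC T Y 1), E Y v = p.2 v}
            zero_mem' := ⟨0, zero_mem _, fun v => rfl, fun v => rfl⟩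
            add_mem' := by
              rintro p q ⟨E, hE, h1, h2⟩ ⟨E', hE', h3, h4⟩
              refine ⟨E + E', add_mem hE hE', fun v => ?_, fun v => ?_⟩
              · change E X v + E' X v = p.1 v + q.1 v
                rw [h1, h3]
              · change E Y v + E' Y v = p.2 v + q.2 v
                rw [h2, h4]
            smul_mem' := by
              rintro c p ⟨E, hE, h1, h2⟩
              refine ⟨c • E, Submodule.smul_mem _ _ hE, fun v => ?_, fun v => ?_⟩
              · change c • E X v = c • (p.1 v : CV T.W X)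
                rw [h1]
              · change c • E Y v = c • (p.2 v : CV T.W Y)
                rw [h2] }
        obtain ⟨θ, hθ0, hθ⟩ := exists_equiv (L := L) hsX hsY hV (by
            rintro p ⟨E, hE, a1, a2⟩ q ⟨F, hF, b1, b2⟩
            refine ⟨E * F - F * E, LL_br hE hF, fun v => ?_, fun v => ?_⟩
            · change E X (F X v) - F X (E X v) = p.1 (q.1 v) - q.1 (p.1 v)
              rw [b1, a1, a1, b1]
            · change E Y (F Y v) - F Y (E Y v) = p.2 (q.2 v) - q.2 (p.2 v)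
              rw [b2, a2, a2, b2])
          (by
            rintro p ⟨E, hE, a1, a2⟩
            exact ⟨sk_LT hψ hE fun v => (a1 v).symm, sk_LT hφ hE fun v => (a2 v).symm⟩)
          (by
            intro A hA
            obtain ⟨E, hE, a1⟩ := hmX A hA
            exact ⟨rs1 hφ hE, E, hE, a1, fun v => rfl⟩)
          (by
            intro A hA
            obtain ⟨E, hE, a1⟩ := hmY A hA
            exact ⟨rs1 hψ hE, E, hE, fun v => rfl, a1⟩)
          (by
            rintro p ⟨E, hE, a1, a2⟩ h0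
            have h3 : E Y = 0 := h2 E hE (hDX E hE fun v hv => by
              rw [a1 ⟨v, hv⟩, h0]; rfl)
            refine LinearMap.ext fun v => Subtype.ext ?_
            rw [← a2 v, h3]
            rfl)
          (by
            rintro p ⟨E, hE, a1, a2⟩ h0
            have h3 : E X = 0 := h1 E hE (hDY E hE fun v hv => by
              rw [a2 ⟨v, hv⟩, h0]; rfl)
            refine LinearMap.ext fun v => Subtype.ext ?_
            rw [← a1 v, h3]
            rfl)
        -- the equivariant map on the cohomology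
        let g : CV T.W X →ₗ[ℂ] CV T.W Y := (gC T Y 1).subtype ∘ₗ θ ∘ₗ
          LinearMap.codRestrict (gC T X 1) ((q1 T X).baseChange ℂ) q1_mem
        have hgx : ∀ v : ↥(gC T X 1), g v = θ v := by
          intro v
          change ((θ ⟨(q1 T X).baseChange ℂ v, q1_mem _⟩ : ↥(gC T Y 1)) : CV T.W Y) = θ v
          congr 2
          exact Subtype.ext (q1_same v.2)
        have hg : ∀ E ∈ LT T, ∀ x, g (E X x) = E Y (g x) := by
          intro E hE x
          have h3 := hθ (rs1 hψ hE, rs1 hφ hE) ⟨E, hE, fun v => rfl, fun v => rfl⟩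
            ⟨(q1 T X).baseChange ℂ x, q1_mem _⟩
          have h4 := congrArg Subtype.val h3
          change ((θ ⟨(q1 T X).baseChange ℂ (E X x), q1_mem _⟩ : ↥(gC T Y 1)) : CV T.W Y) =
            E Y ((θ ⟨(q1 T X).baseChange ℂ x, q1_mem _⟩ : ↥(gC T Y 1)) : CV T.W Y)
          refine Eq.trans ?_ h4
          congr 2
          exact Subtype.ext (LT_q1' hψ hE x).symm
        apply hθ0
        refine LinearMap.ext fun v => Subtype.ext ?_
        have h3 := no_equi hψ hφ hno hg v.2
        rw [hgx, q1_same (θ v).2] at h3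
        exact h3
      · push Not at hV
        refine hDX D hD fun v hv => ?_
        have h3 := congrArg Subtype.val (hV ⟨v, hv⟩)
        change v = 0 at h3
        rw [h3, map_zero]
    · have h2 : rs1 hφ hD ∈ J := hsY.ideal hskJ hbrJ hJ (sk_LT hφ hD fun v => rs1_apply hφ hD v)
      obtain ⟨E, hE, h3, h4⟩ := h2
      have h5 := hDY _ (sub_mem hD hE) fun v hv => by
        change D Y v - E Y v = 0
        rw [h3 ⟨v, hv⟩, rs1_apply, sub_self]
      have h6 := h1 _ (sub_mem hD hE) h5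
      change D X - E X = 0 at h6
      rw [h4, sub_zero] at h6
      exact h6
  · have h1 : rs1 hψ hD ∈ I := hsX.ideal hskI hbrI hI (sk_LT hψ hD fun v => rs1_apply hψ hD v)
    obtain ⟨E, hE, h2, h3⟩ := h1
    refine ⟨E, hE, h3, ?_⟩
    have h4 := hDX _ (sub_mem hE hD) fun v hv => by
      change E X v - D X v = 0
      rw [h2 ⟨v, hv⟩, rs1_apply, sub_self]
    exact sub_eq_zero.1 h4

end

end Pool.Agent.L5helper28.IG
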