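import Pool.Agent.L5helper28.IG.Max3

/-!
# Families of elliptic curves and varieties with maximal Hodge groups
-/

set_option autoImplicit false
set_option linter.unusedSectionVars false

open CategoryTheory AlgebraicGeometry TensorProduct Matrix

universe u

namespace Pool.Agent.L5helper28.IG

open Module
open Pool.Agent.H914 Pool.Agent.H914.VarClass Pool.Agent.H914.VarClass.Obj
  Pool.Agent.H914.WeilCohomology
open Pool.Agent.Y121 Pool.Agent.Y121.AHS Pool.Agent.N996 Pool.Agent.N996.FP
open Pool.Agent.L5helper28.IF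

noncomputable section

section Abstract

variable {J : Type*} {V : J → Type} [∀ j, AddCommGroup (V j)] [∀ j, Module ℂ (V j)]
  {ι : Type*} {L : Submodule ℂ (Ops V)} {x : ι → J}

/-- **The lemma of Ribet, mixed form.** -/
theorem ind_mixed (hL : ∀ D ∈ L, ∀ E ∈ L, D * E - E * D ∈ L) {B : Set ι}
    (perf : ∀ i ∈ B, ∀ D ∈ L, D (x i) ∈ Submodule.span ℂ {w : Module.End ℂ (V (x i)) |
      ∃ A ∈ L, ∃ B ∈ L, w = A (x i) * B (x i) - B (x i) * A (x i)})
    (pair : ∀ i ∈ B, ∀ j, i ≠ j → ∀ D ∈ L, ∃ D' ∈ L, D' (x j) = 0 ∧ D' (x i) = D (x i))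
    (hC : ∀ F : Finset ι, (∀ i ∈ F, i ∉ B) → Ind L x (F : Set ι))
    (F : Finset ι) : Ind L x (F : Set ι) := by
  classical
  have key : ∀ i ∈ B, ∀ (G : Finset ι), i ∉ G → ∀ D ∈ L, ∃ D' ∈ JF L x (G : Set ι),
      D' (x i) = D (x i) := by
    intro i hiB G
    induction G using Finset.induction_on with
    | empty =>
      intro _ D hD
      exact ⟨D, ⟨hD, fun j hj => absurd hj (by simp)⟩, rfl⟩
    | insert j G hj ih =>
      intro hi D hD
      rw [Finset.mem_insert, not_or] at hi
      have h1 : ∀ w ∈ Submodule.span ℂ {w : Module.End ℂ (V (x i)) | ∃ A ∈ L, ∃ B ∈ L,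
          w = A (x i) * B (x i) - B (x i) * A (x i)},
          ∃ D' ∈ JF L x ((insert j G : Finset ι) : Set ι), D' (x i) = w := by
        intro w hw
        induction hw using Submodule.span_induction with
        | mem w hw =>
          obtain ⟨A, hA, B, hB, rfl⟩ := hw
          obtain ⟨A', hA', hA2⟩ := ih hi.2 A hA
          obtain ⟨B', hB', hB1, hB2⟩ := pair i hiB j hi.1 B hB
          refine ⟨A' * B' - B' * A', ⟨hL _ hA'.1 _ hB', fun l hl => ?_⟩, ?_⟩
          · change A' (x l) * B' (x l) - B' (x l) * A' (x l) = 0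
            rw [Finset.coe_insert, Set.mem_insert_iff] at hl
            rcases hl with rfl | hl
            · rw [hB1, mul_zero, zero_mul, sub_zero]
            · rw [hA'.2 l hl, mul_zero, zero_mul, sub_zero]
          · change A' (x i) * B' (x i) - B' (x i) * A' (x i) = _
            rw [hA2, hB2]
        | zero => exact ⟨0, zero_mem _, rfl⟩
        | add a b _ _ ha hb =>
          obtain ⟨D1, h1, h2⟩ := ha
          obtain ⟨D2, h3, h4⟩ := hb
          exact ⟨D1 + D2, add_mem h1 h3, by rw [Pi.add_apply, h2, h4]⟩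
        | smul c a _ ha =>
          obtain ⟨D1, h1, h2⟩ := ha
          exact ⟨c • D1, Submodule.smul_mem _ _ h1, by rw [Pi.smul_apply, h2]⟩
      exact h1 _ (perf i hiB D hD)
  intro i hi D hD
  by_cases hiB : i ∈ B
  · obtain ⟨D', hD', h1⟩ := key i hiB (F.erase i) (Finset.notMem_erase i F) D hD
    refine ⟨D', ⟨hD'.1, fun l hl => hD'.2 l ?_⟩, h1⟩
    rw [Finset.coe_erase]
    exact hl
  · obtain ⟨D0, hD0, h0⟩ := hC (F.filter fun j => j ∉ B) (fun j hj => (Finset.mem_filter.1 hj).2) i
      (by simpa using ⟨hi, hiB⟩) D hD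
    have h1 : ∀ j : ι, ∃ E ∈ L, j ∈ F.filter (fun j => j ∈ B) →
        ((∀ l ∈ F, l ≠ j → E (x l) = 0) ∧ E (x j) = D0 (x j)) := by
      intro j
      by_cases hj : j ∈ F.filter fun j => j ∈ B
      · obtain ⟨E, hE, h2⟩ := key j (Finset.mem_filter.1 hj).2 (F.erase j)
          (Finset.notMem_erase j F) D0 hD0.1
        exact ⟨E, hE.1, fun _ => ⟨fun l hl hlj => hE.2 l (by
          rw [Finset.coe_erase]; exact ⟨hl, hlj⟩), h2⟩⟩
      · exact ⟨0, zero_mem _, fun h => absurd h hj⟩
    choose E hE h2 using h1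
    refine ⟨D0 - ∑ j ∈ F.filter (fun j => j ∈ B), E j,
      ⟨sub_mem hD0.1 (sum_mem fun j _ => hE j), fun l hl => ?_⟩, ?_⟩
    · rw [Pi.sub_apply, Finset.sum_apply]
      by_cases hlB : l ∈ B
      · rw [Finset.sum_eq_single l, (h2 l (Finset.mem_filter.2 ⟨hl.1, hlB⟩)).2, sub_self]
        · intro j hj hjl
          exact (h2 j hj).1 l hl.1 (Ne.symm hjl)
        · intro h
          exact absurd (Finset.mem_filter.2 ⟨hl.1, hlB⟩) h
      · rw [hD0.2 l ⟨by simpa using ⟨hl.1, hlB⟩, hl.2⟩, zero_sub, neg_eq_zero]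
        refine Finset.sum_eq_zero fun j hj => (h2 j hj).1 l hl.1 ?_
        rintro rfl
        exact hlB (Finset.mem_filter.1 hj).2
    · rw [Pi.sub_apply, Finset.sum_apply, h0, Finset.sum_eq_zero, sub_zero]
      intro j hj
      refine (h2 j hj).1 i hi ?_
      rintro rfl
      exact hiB (Finset.mem_filter.1 hj).2

end Abstract

variable {k : Type u} [Field k] {𝒱 : VarClass k} {ops : CycleOps 𝒱} {T : HodgeTheory ops}
  {X Y P E : 𝒱.Obj}

set_option maxHeartbeats 400000

/-- **Elliptic curves: with or without complex multiplication.** -/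
theorem ell_dich (hE : IsEllipticCurve T E) (hp : ∃ ψ, IsPolarisation T E ψ) :
    MxC T E ∨ ∀ D ∈ LT T, ∀ D' ∈ LT T, (D * D' - D' * D) E = 0 := by
  obtain ⟨ψ, hψ⟩ := hp
  let c : Basis (Fin 2) T.W.K (T.W.gr E 1) := Module.finBasisOfFinrankEq _ _ hE.2
  have h1 : hh (fun X => rb T.W X) (fun X => hop T X) 1 = fun X => hop T X := by
    funext Y
    exact cjg_one _ _
  have S : ESys (LT T) (hh (fun X => rb T.W X) (fun X => hop T X)) (fun _ : Unit => mt c)
      (algebraMap T.W.K ℂ).fieldRange :=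
    { lie := fun D hD E hE => LL_br hD hE
      gen := fun σ => LL_of σ
      mul := fun i D _ E hE' => mt_mul c hE hψ D hE'
      tr := fun i D hD => mt_tr c hE hψ hD
      gl := fun i σ => by
        rw [h1]
        exact mt_gal c hE hψ σ _
      sq := fun i => by
        rw [h1]
        exact mt_sq c hE hψ
      cj := fun i => by
        rw [h1]
        exact mt_cj c hE hψ
      act := fun τ D hD => ⟨_, cjg_mem (fun X => rb T.W X) (fun X => hop T X) τ hD,
        fun i => mt_gal c hE hψ τ D⟩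
      noiso := fun i j hij g hg h => absurd rfl hij }
  rcases S.dich' () with h | h
  · left
    have hs := sy_om hψ
    refine ⟨gen_ell hE, ψ, hψ, fun A hA => ?_⟩
    let v : Fin 2 → ↥(gC T E 1) := fun b =>
      ⟨ev c b, Submodule.tmul_mem_baseChange_of_mem (1 : ℂ) (c b).2⟩
    have hspan : ∀ z : ↥(gC T E 1), z = ∑ a, fC (ph c a) z • v a := by
      intro z
      refine Subtype.ext ?_
      rw [Submodule.coe_sum]
      exact span_ev c z.2
    let g : Pool.Agent.N179.DB.Mt.M2 := Matrix.of fun a b => fC (ph c a) (A (v b))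
    have hAv : ∀ b, A (v b) = ∑ a, g a b • v a := fun b => hspan (A (v b))
    have hv01 : om hψ (v 0) (v 1) ≠ 0 := by
      intro h0
      have h2 : v 0 = 0 := by
        refine hs.nd' fun z => ?_
        rw [hspan z, map_sum, Fin.sum_univ_two, map_smul, map_smul, hs.alt, h0, smul_zero,
          smul_zero, add_zero]
      have h3 := congrArg (fun z : ↥(gC T E 1) => fC (ph c 0) (z : CV T.W E)) h2
      have h4 : fC (ph c 0) (ev c 0) = 1 := by rw [fC_ev, if_pos rfl]
      change fC (ph c 0) (ev c 0) = fC (ph c 0) ((0 : ↥(gC T E 1)) : CV T.W E) at h3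
      rw [h4, Submodule.coe_zero, map_zero] at h3
      exact one_ne_zero h3
    have htr : g ∈ Pool.Agent.N179.DB.Mt.sl := by
      rw [Pool.Agent.N179.DB.Mt.mem_sl']
      have h2 := hA (v 0) (v 1)
      rw [hAv, hAv, map_sum, map_sum, LinearMap.sum_apply, Fin.sum_univ_two, Fin.sum_univ_two,
        map_smul, map_smul, map_smul, map_smul, LinearMap.smul_apply, LinearMap.smul_apply,
        hs.alt, hs.alt, smul_zero, smul_zero, add_zero, zero_add, smul_eq_mul, smul_eq_mul,
        ← neg_mul] at h2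
      have h3 := mul_right_cancel₀ hv01 h2
      rw [h3, neg_neg]
    obtain ⟨D, hD, h2⟩ : g ∈ (LT T).map (mt c) := by
      rw [h]
      exact htr
    refine ⟨D, hD, fun z => ?_⟩
    have h3 : ∀ b, D E (ev c b) = ∑ a, g a b • ev c a := by
      intro b
      rw [D_ev c hE hψ hD b, h2]
    have h4 : (z : CV T.W E) = ∑ a, fC (ph c a) z • ev c a := span_ev c z.2
    have h5 : A z = ∑ a, fC (ph c a) z • A (v a) := by
      conv_lhs => rw [hspan z]
      rw [map_sum]
      exact Finset.sum_congr rfl fun a _ => map_smul _ _ _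
    conv_lhs => rw [h4]
    rw [h5, map_sum, Submodule.coe_sum]
    refine Finset.sum_congr rfl fun a _ => ?_
    rw [map_smul, h3, hAv, Submodule.coe_smul, Submodule.coe_sum]
    rfl
  · right
    intro D hD D' hD'
    refine mt_inj c hE hψ (LL_br hD hD') ?_
    obtain ⟨r, hr⟩ := h D hD
    obtain ⟨r', hr'⟩ := h D' hD'
    rw [map_sub, mt_mul c hE hψ D hD', mt_mul c hE hψ D' hD, hr, hr', smul_mul_assoc,
      mul_smul_comm, smul_mul_assoc, mul_smul_comm, smul_comm r r', sub_self]

/-- **Independence.** -/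
theorem ind_kinds {ι : Type*} {x : ι → 𝒱.Obj} (hp : ∀ i, ∃ ψ, IsPolarisation T (x i) ψ)
    (hk : ∀ i, IsEllipticCurve T (x i) ∨ MxC T (x i))
    (hno : ∀ i j, i ≠ j → NoMorphism T (x i) (x j)) (F : Finset ι) :
    Ind (LT T) x (F : Set ι) := by
  classical
  refine ind_mixed (B := {i | MxC T (x i)}) (fun D hD E hE => LL_br hD hE)
    (fun i hi D hD => perf_max hi hD) ?_ ?_ F
  · intro i hi j hij D hD
    by_cases hj : MxC T (x j)
    · exact pair_max hi hj (hno i j hij) hD
    · have hjE : IsEllipticCurve T (x j) := (hk j).resolve_right hj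
      have hab := (ell_dich hjE (hp j)).resolve_left hj
      have h1 := perf_max hi hD
      have h2 : ∀ w ∈ Brs T (x i), ∃ D' ∈ LT T, D' (x j) = 0 ∧ D' (x i) = w := by
        intro w hw
        induction hw using Submodule.span_induction with
        | mem w hw =>
          obtain ⟨A, hA, B, hB, rfl⟩ := hw
          exact ⟨A * B - B * A, LL_br hA hB, hab A hA B hB, rfl⟩
        | zero => exact ⟨0, zero_mem _, rfl, rfl⟩
        | add a b _ _ ha hb =>
          obtain ⟨D1, h1, h2, h3⟩ := ha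
          obtain ⟨D2, h4, h5, h6⟩ := hb
          exact ⟨D1 + D2, add_mem h1 h4, by rw [Pi.add_apply, h2, h5, add_zero],
            by rw [Pi.add_apply, h3, h6]⟩
        | smul c a _ ha =>
          obtain ⟨D1, h1, h2, h3⟩ := ha
          exact ⟨c • D1, Submodule.smul_mem _ _ h1, by rw [Pi.smul_apply, h2, smul_zero],
            by rw [Pi.smul_apply, h3]⟩
      exact h2 _ h1
  · intro G hG
    let κ := {i : ι // i ∉ {i | MxC T (x i)}}
    have h1 : IF.Independent T (fun i : κ => x i) := independent_elliptic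
      (fun i => (hk i).resolve_right i.2) (fun i => hp i) (fun i j hij => hno i j
        fun h => hij (Subtype.ext h))
    intro i hi D hD
    have h2 := h1.ind (G.subtype fun i => i ∉ {i | MxC T (x i)}) ⟨i, hG i hi⟩
      (Finset.mem_coe.2 (Finset.mem_subtype.2 hi)) D hD
    obtain ⟨D', hD', h3⟩ := h2
    refine ⟨D', ⟨hD'.1, fun j hj => ?_⟩, h3⟩
    exact hD'.2 ⟨j, hG j hj.1⟩ ⟨Finset.mem_coe.2 (Finset.mem_subtype.2 hj.1),
      fun h => hj.2 (congrArg Subtype.val h)⟩

theorem good_kinds {X : 𝒱.Obj} (hp : ∃ ψ, IsPolarisation T X ψ)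
    (hk : IsEllipticCurve T X ∨ MxC T X) : Good T X := by
  rcases hk with h | h
  · exact good_ell h hp
  · exact good_max h

end

end Pool.Agent.L5helper28.IG
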