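import Mathlib

/-!
# Symplectic Lie algebras: extremal elements and isomorphisms
-/

set_option autoImplicit false
set_option linter.unusedSectionVars false

open Module

namespace Pool.Agent.L5helper28.IG

noncomputable section

section one

variable {V : Type*} [AddCommGroup V] [Module ℂ V]

/-- a symplectic form -/
structure Sy (ω : V →ₗ[ℂ] V →ₗ[ℂ] ℂ) : Prop where
  alt : ∀ v, ω v v = 0
  nd : ∀ u, (∀ v, ω v u = 0) → u = 0

/-- skew operators -/
def Sk (ω : V →ₗ[ℂ] V →ₗ[ℂ] ℂ) (A : End ℂ V) : Prop := ∀ x y, ω (A x) y = -ω x (A y)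

/-- the operator `z ↦ ω(u, z) v` -/
def rk (ω : V →ₗ[ℂ] V →ₗ[ℂ] ℂ) (u v : V) : End ℂ V := (ω u).smulRight v

/-- the operator `z ↦ ω(u, z) v + ω(v, z) u` -/
def S2 (ω : V →ₗ[ℂ] V →ₗ[ℂ] ℂ) (u v : V) : End ℂ V := rk ω u v + rk ω v u

variable {ω : V →ₗ[ℂ] V →ₗ[ℂ] ℂ}

theorem rk_apply (u v z : V) : rk ω u v z = ω u z • v := rfl

theorem S2_apply (u v z : V) : S2 ω u v z = ω u z • v + ω v z • u := rfl

theorem S2_comm (u v : V) : S2 ω u v = S2 ω v u := add_comm _ _

namespace Sy

variable (hω : Sy ω)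
include hω

theorem anti (u v : V) : ω u v = -ω v u := by
  have h1 := hω.alt (u + v)
  simp only [map_add, LinearMap.add_apply, hω.alt, zero_add, add_zero] at h1
  exact eq_neg_of_add_eq_zero_left (by rw [← h1]; ring)

theorem nd' {u : V} (h : ∀ v, ω u v = 0) : u = 0 :=
  hω.nd u fun v => by rw [hω.anti, h, neg_zero]

theorem sk_S2 (u v : V) : Sk ω (S2 ω u v) := by
  intro x y
  rw [S2_apply, S2_apply, map_add, map_smul, map_smul, LinearMap.add_apply, LinearMap.smul_apply,
    LinearMap.smul_apply, map_add, map_smul, map_smul, smul_eq_mul, smul_eq_mul, smul_eq_mul,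
    smul_eq_mul, hω.anti u x, hω.anti v x]
  ring

theorem sk_rk (u : V) : Sk ω (rk ω u u) := by
  intro x y
  rw [rk_apply, rk_apply, map_smul, LinearMap.smul_apply, map_smul, smul_eq_mul, smul_eq_mul,
    hω.anti u x]
  ring

/-- the commutator with a rank one element -/
theorem br_rk {A : End ℂ V} (hA : Sk ω A) (w : V) :
    A * rk ω w w - rk ω w w * A = S2 ω w (A w) := by
  refine LinearMap.ext fun z => ?_
  rw [LinearMap.sub_apply, End.mul_apply, End.mul_apply, rk_apply, rk_apply, map_smul, S2_apply,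
    hA w z, neg_smul, sub_eq_add_neg]

theorem br_S2 {A : End ℂ V} (hA : Sk ω A) (u v : V) :
    A * S2 ω u v - S2 ω u v * A = S2 ω (A u) v + S2 ω u (A v) := by
  refine LinearMap.ext fun z => ?_
  rw [LinearMap.sub_apply, End.mul_apply, End.mul_apply, S2_apply, S2_apply, map_add, map_smul,
    map_smul, LinearMap.add_apply, S2_apply, S2_apply, hA u z, hA v z]
  simp only [neg_smul]
  abel

/-- the double commutator with a rank one element -/
theorem br_br {y : End ℂ V} (w : V) :
    rk ω w w * (rk ω w w * y - y * rk ω w w) - (rk ω w w * y - y * rk ω w w) * rk ω w w =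
      (-2 * ω w (y w)) • rk ω w w := by
  refine LinearMap.ext fun z => ?_
  have h1 : ((-2 * ω w (y w)) • rk ω w w) z = -((ω w z * ω w (y w)) • w) -
      (ω w z * ω w (y w)) • w := by
    rw [LinearMap.smul_apply, rk_apply, smul_smul, ← neg_smul, ← sub_smul]
    congr 1
    ring
  rw [h1]
  simp only [LinearMap.sub_apply, End.mul_apply, rk_apply, map_smul, map_sub, smul_eq_mul,
    hω.alt, smul_smul, mul_zero, zero_smul, sub_zero, zero_sub, smul_zero, map_zero, smul_sub,
    LinearMap.smul_apply]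

theorem S2_ne {v u : V} (hv : v ≠ 0) (h : S2 ω v u = 0) : u = 0 := by
  obtain ⟨z, hz⟩ : ∃ z, ω v z ≠ 0 := by
    by_contra hcon
    push Not at hcon
    exact hv (hω.nd' hcon)
  have h1 := LinearMap.congr_fun h z
  rw [S2_apply, LinearMap.zero_apply] at h1
  -- `u` is a multiple of `v`
  have h2 : u = (-(ω v z)⁻¹ * ω u z) • v := by
    have h3 : ω v z • u = -(ω u z • v) := eq_neg_of_add_eq_zero_left h1
    calc u = (ω v z)⁻¹ • ω v z • u := by rw [smul_smul, inv_mul_cancel₀ hz, one_smul]
      _ = (-(ω v z)⁻¹ * ω u z) • v := by rw [h3, smul_neg, smul_smul, neg_mul, neg_smul]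
  set c := -(ω v z)⁻¹ * ω u z
  rw [h2, map_smul, LinearMap.smul_apply, smul_smul, ← add_smul, smul_eq_mul] at h1
  have h3 := (smul_eq_zero.1 h1).resolve_right hv
  have h4 : 2 * c * ω v z = 0 := by linear_combination h3
  have h5 : c = 0 := by
    rcases mul_eq_zero.1 h4 with h | h
    · exact (mul_eq_zero.1 h).resolve_left two_ne_zero
    · exact absurd h hz
  rw [h2, h5, zero_smul]

/-- transitivity -/
theorem exists_to {v : V} (hv : v ≠ 0) (u : V) : ∃ A, Sk ω A ∧ A v = u := by
  obtain ⟨z, hz⟩ : ∃ z, ω z v = 1 := by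
    obtain ⟨z, hz⟩ : ∃ z, ω z v ≠ 0 := by
      by_contra hcon
      push Not at hcon
      exact hv (hω.nd v hcon)
    exact ⟨(ω z v)⁻¹ • z, by rw [map_smul, LinearMap.smul_apply, smul_eq_mul, inv_mul_cancel₀ hz]⟩
  refine ⟨S2 ω u z - ω u v • rk ω z z, ?_, ?_⟩
  · intro x y
    have h1 := hω.sk_S2 u z x y
    have h2 := hω.sk_rk z x y
    rw [LinearMap.sub_apply, LinearMap.sub_apply, map_sub, map_sub, LinearMap.sub_apply, h1,
      LinearMap.smul_apply, LinearMap.smul_apply, map_smul, map_smul, LinearMap.smul_apply, h2]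
    simp only [smul_eq_mul]
    ring
  · rw [LinearMap.sub_apply, LinearMap.smul_apply, S2_apply, rk_apply, hz, one_smul, one_smul]
    abel

/-- **Extremal elements have rank one.** -/
theorem extremal {x : End ℂ V} (hx : Sk ω x) (hx0 : x ≠ 0) (h : ∀ w, ∃ c : ℂ,
    x * (x * rk ω w w - rk ω w w * x) - (x * rk ω w w - rk ω w w * x) * x = c • x) :
    ∃ (v : V) (a : ℂ), v ≠ 0 ∧ a ≠ 0 ∧ x = a • rk ω v v := by
  have hx2 : ∀ w z, ω (x (x w)) z = ω w (x (x z)) := fun w z => by
    rw [hx, hx, neg_neg]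
  -- the identity
  have key : ∀ w, ∃ c : ℂ, ∀ z, ω w z • x (x w) + (2 * ω (x w) z) • x w + ω (x (x w)) z • w =
      c • x z := by
    intro w
    obtain ⟨c, hc⟩ := h w
    refine ⟨c, fun z => ?_⟩
    have h1 := LinearMap.congr_fun hc z
    simp only [LinearMap.sub_apply, End.mul_apply, rk_apply, map_smul, map_sub,
      LinearMap.smul_apply] at h1
    rw [← h1, hx2, hx w z]
    have h2 : (2 * -ω w (x z)) • x w = -(ω w (x z) • x w) - ω w (x z) • x w := by
      rw [mul_neg, neg_smul, two_mul, add_smul]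
      abel
    rw [h2]
    abel
  -- a vector
  obtain ⟨w, hw⟩ : ∃ w, ω (x w) w ≠ 0 := by
    by_contra hcon
    push Not at hcon
    apply hx0
    refine LinearMap.ext fun u => ?_
    rw [LinearMap.zero_apply]
    refine hω.nd' fun v => ?_
    have h1 := hcon (u + v)
    rw [map_add, map_add, map_add, LinearMap.add_apply, LinearMap.add_apply, hcon, hcon, zero_add,
      add_zero, hx v u, hω.anti v (x u), neg_neg] at h1
    have h2 : 2 * ω (x u) v = 0 := by linear_combination h1
    exact (mul_eq_zero.1 h2).resolve_left two_ne_zero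
  set a := ω (x w) w with ha
  have hxw : x w ≠ 0 := by
    intro h0
    apply hw
    rw [ha, h0, map_zero, LinearMap.zero_apply]
  have hw0 : w ≠ 0 := by
    rintro rfl
    exact hxw (map_zero x)
  obtain ⟨c, hc⟩ := key w
  have hc2 : c = 2 * a := by
    have h1 := hc w
    rw [hω.alt, zero_smul, zero_add, hx (x w) w, hω.alt, neg_zero, zero_smul, add_zero] at h1
    have h2 : (2 * a - c) • x w = 0 := by rw [sub_smul, h1, sub_self]
    exact (sub_eq_zero.1 ((smul_eq_zero.1 h2).resolve_right hxw)).symm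
  rw [hc2] at hc
  -- `x (x w)` is a multiple of `w`
  obtain ⟨β, hβ⟩ : ∃ β : ℂ, x (x w) = β • w := by
    have h1 : ∀ z, (3 * a) * ω (x (x w)) z = ω (x (x w)) (x w) * ω w z := by
      intro z
      have h2 := congrArg (fun y => ω y (x w)) (hc z)
      simp only [map_add, map_smul, LinearMap.add_apply, LinearMap.smul_apply, smul_eq_mul,
        hω.alt, mul_zero, add_zero] at h2
      have h3 : ω (x z) (x w) = ω (x (x w)) z := by
        rw [hx z (x w), hω.anti z, neg_neg]
      have h4 : ω w (x w) = -a := by rw [hω.anti]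
      rw [h3, h4] at h2
      linear_combination -h2
    have h2 : (3 * a) • x (x w) = ω (x (x w)) (x w) • w := by
      rw [← sub_eq_zero]
      refine hω.nd' fun z => ?_
      rw [map_sub, map_smul, map_smul, LinearMap.sub_apply, LinearMap.smul_apply,
        LinearMap.smul_apply, smul_eq_mul, smul_eq_mul, h1, sub_self]
    have h3 : (3 * a) ≠ 0 := mul_ne_zero three_ne_zero hw
    refine ⟨(3 * a)⁻¹ * ω (x (x w)) (x w), ?_⟩
    rw [← smul_smul, ← h2, smul_smul, inv_mul_cancel₀ h3, one_smul]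
  have hβ0 : β = 0 := by
    have h1 := hc (x w)
    have h4 : ω w (x w) = -a := by rw [hω.anti]
    rw [hω.alt, mul_zero, zero_smul, add_zero, hβ, map_smul, LinearMap.smul_apply, h4, smul_smul,
      smul_smul, ← add_smul, smul_eq_mul] at h1
    have h2 : (-a * β + β * -a - 2 * a * β) • w = 0 := by rw [sub_smul, h1, sub_self]
    have h3 := (smul_eq_zero.1 h2).resolve_right hw0
    have h5 : (-4 * a) * β = 0 := by linear_combination h3
    exact (mul_eq_zero.1 h5).resolve_left (mul_ne_zero (by norm_num) hw)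
  refine ⟨x w, a⁻¹, hxw, inv_ne_zero hw, LinearMap.ext fun z => ?_⟩
  have h1 := hc z
  rw [hβ, hβ0, zero_smul, smul_zero, map_zero, LinearMap.zero_apply, zero_smul, add_zero,
    zero_add] at h1
  rw [LinearMap.smul_apply, rk_apply]
  have h2 : (2 * a) ≠ 0 := mul_ne_zero two_ne_zero hw
  have h3 : x z = (2 * a)⁻¹ • ((2 * ω (x w) z) • x w) := by
    rw [h1, smul_smul, inv_mul_cancel₀ h2, one_smul]
  rw [h3, smul_smul, smul_smul]
  congr 1
  field_simp

end Sy

end one

end

end Pool.Agent.L5helper28.IG
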