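import Pool.Agent.L5helper28.IG.Fun

/-!
# Words in an algebra with a derivation
-/

set_option autoImplicit false
set_option linter.unusedSectionVars false

open Matrix ComplexConjugate

namespace Pool.Agent.L5helper28.IG

noncomputable section

variable {R : Type} [Fintype R] [DecidableEq R] {J : Type} {A : Type*} [Ring A] [Algebra ℂ A]
  (u : J → R → A)

/-- the ordered product of the letters -/
def wd {n : ℕ} (a : Fin n → J) (I : Fin n → R) : A := (List.ofFn fun k => u (a k) (I k)).prod

theorem wd_zero (a : Fin 0 → J) (I : Fin 0 → R) : wd u a I = 1 := by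
  rw [wd, List.ofFn_zero, List.prod_nil]

theorem wd_succ {n : ℕ} (a : Fin (n + 1) → J) (I : Fin (n + 1) → R) :
    wd u a I = u (a 0) (I 0) * wd u (fun k => a k.succ) (fun k => I k.succ) := by
  rw [wd, List.ofFn_succ, List.prod_cons, wd]

variable {u} {D : A →ₗ[ℂ] A} (hD : ∀ x y, D (x * y) = D x * y + x * D y) {g : Matrix R R ℂ}
  (hu : ∀ i y, D (u i y) = ∑ x, g x y • u i x)
include hD

theorem der_one : D 1 = 0 := by
  have h := hD 1 1
  rw [mul_one, mul_one, one_mul] at h
  exact left_eq_add.1 h

include hu

theorem wd_der : ∀ {n : ℕ} (a : Fin n → J) (I : Fin n → R),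
    D (wd u a I) = ∑ k, ∑ x, g x (I k) • wd u a (Function.update I k x) := by
  intro n
  induction n with
  | zero =>
    intro a I
    rw [wd_zero, der_one hD, Fin.sum_univ_zero]
  | succ n ih =>
    intro a I
    rw [wd_succ, hD, ih, hu, Fin.sum_univ_succ, Finset.sum_mul, Finset.mul_sum]
    congr 1
    · refine Finset.sum_congr rfl fun x _ => ?_
      rw [wd_succ, smul_mul_assoc, Function.update_self]
      congr 3
    · refine Finset.sum_congr rfl fun k _ => ?_
      rw [Finset.mul_sum]
      refine Finset.sum_congr rfl fun x _ => ?_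
      rw [wd_succ u a, mul_smul_comm, Function.update_of_ne (Fin.succ_ne_zero k).symm]
      congr 3
      funext l
      by_cases h : l = k
      · subst h
        rw [Function.update_self, Function.update_self]
      · rw [Function.update_of_ne h, Function.update_of_ne (fun h' => h (Fin.succ_injective _ h'))]

omit hD hu

variable {ι : Type} [Fintype ι] {N : ι → ℕ} (a : ∀ p, Fin (N p) → J)

variable (u) in
/-- the linear combination of words -/
def piw : (Idx R N → ℂ) →ₗ[ℂ] A where
  toFun F := ∑ ω, F ω • wd u (a ω.1) ω.2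
  map_add' F G := by
    rw [← Finset.sum_add_distrib]
    exact Finset.sum_congr rfl fun ω _ => add_smul _ _ _
  map_smul' c F := by
    rw [RingHom.id_apply, Finset.smul_sum]
    exact Finset.sum_congr rfl fun ω _ => mul_smul _ _ _

theorem piw_apply (F : Idx R N → ℂ) : piw u a F = ∑ ω, F ω • wd u (a ω.1) ω.2 := rfl

include hD hu

theorem sum_aux {n : ℕ} (a : Fin n → J) (F : (Fin n → R) → ℂ) :
    D (∑ I, F I • wd u a I) =
      ∑ I : Fin n → R, (∑ k, ∑ y, g (I k) y * F (Function.update I k y)) • wd u a I := by
  rw [map_sum]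
  simp only [map_smul, wd_der hD hu, Finset.smul_sum, Finset.sum_smul]
  rw [Finset.sum_comm, Finset.sum_comm (s := Finset.univ) (t := Finset.univ)
    (f := fun I k => ∑ y, (g (I k) y * F (Function.update I k y)) • wd u a I)]
  refine Finset.sum_congr rfl fun k _ => ?_
  rw [sum_swap k]
  refine Finset.sum_congr rfl fun I _ => Finset.sum_congr rfl fun y _ => ?_
  rw [Function.update_self, Function.update_idem, Function.update_eq_self, smul_smul, mul_comm]

theorem piw_der (F : Idx R N → ℂ) : D (piw u a F) = piw u a (rho N g F) := by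
  rw [piw_apply, piw_apply, Fintype.sum_sigma, Fintype.sum_sigma, map_sum]
  exact Finset.sum_congr rfl fun p _ => sum_aux hD hu (a p) (fun I => F ⟨p, I⟩)

end

end Pool.Agent.L5helper28.IG
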